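import Pool.Agent.Helper73.SH.WLocD

/-!
# Project RC, SHARP, zone I, (C2): `StC2` from the pointwise inequality `T1St`
-/

set_option autoImplicit false

open MeasureTheory Set Filter Topology

namespace Pool.Agent.Helper73.SH

open Helper49.LT hiding sg
open Helper49.RC Helper44.GQ
open Helper49.Sharp hiding un
open Helper87.RC (BM pars)
open Helper56.RC (fc)
open Helper95.RC (tp tp_BM tp_per fc_tp Sup)
open Pool.Agent.Helper20.RC (lk lk_ge lk_sq eD eM)
open Pool.Agent.Helper33.SH (z0I PI)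
open Pool.Agent.Helper43.SH hiding tp
open Pool.Agent.Helper61.RC.QC

section

variable {v v' : ℝ → ℂ}

theorem nU_cont (hv : ∀ x, HasDerivAt v (v' x) x) (cv : Continuous v') (hr : ∀ x, v x ∈ Complex.slitPlane)
    (S : Finset ℤ) (X : ℤ → ℂ) (a00 : ℝ) : Continuous (nU S X v v' a00) := by
  have c1 := cont_slope hv cv hr
  have c2 : Continuous v := continuous_iff_continuousAt.2 fun x => (hv x).continuousAt
  have c3 : Continuous fun x => (v x).arg := continuous_iff_continuousAt.2 fun x => (arg_dd hv hr x).continuousAt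
  have c4 := Complex.continuous_conj.comp c2
  have c5 : Continuous fun t : ℝ => ee (-t) := continuous_ee.comp continuous_neg
  have k : ∀ Y : ℤ → ℂ, Continuous fun t => tp S Y t * (starRingEnd ℂ) (v t) := fun Y => (tp_cont S Y).mul c4
  have k2 : Continuous fun t : ℝ => X (-1) * ee (-t) * (starRingEnd ℂ) (v t) := (continuous_const.mul c5).mul c4
  unfold nU
  exact (((Complex.continuous_im.comp (k _)).sub (c1.mul (Complex.continuous_im.comp (k _)))).sub
    (c1.mul (Complex.continuous_im.comp k2))).add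
    (((continuous_const.add c1).mul (c3.sub continuous_const)).mul (Complex.continuous_re.comp k2))

theorem nU_per (hv : ∀ x, HasDerivAt v (v' x) x) (hper : ∀ x, v (x + 2 * Real.pi) = v x) (S : Finset ℤ) (X : ℤ → ℂ)
    (a00 t : ℝ) : nU S X v v' a00 (t + 2 * Real.pi) = nU S X v v' a00 t := by
  unfold nU
  rw [tp_per, tp_per, per_dv hv hper, hper, show -(t + 2 * Real.pi) = -t - 2 * Real.pi by ring,
    show ee (-t - 2 * Real.pi) = ee (-t) by rw [← ee_per (-t - 2 * Real.pi)]; congr 1; ring]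

/-- one family: `U²/d` at `θ` -/
theorem WU_sq (hr : ∀ x, v x ∈ Complex.slitPlane) (S : Finset ℤ) (X : ℤ → ℂ) (hS : (-1 : ℤ) ∈ S) (a00 τ θ : ℝ) :
    (WU (fA S X τ) (pA S X v a00 τ) (phA v τ) (dA v v' τ) (X (-1)) θ - 0) ^ 2 / dA v v' τ θ =
      nU S X v v' a00 (θ - τ) ^ 2 / (‖v (θ - τ)‖ ^ 2 * (1 + (v' (θ - τ) / v (θ - τ)).im)) := by
  have h := WU_ang (v := v) (v' := v') S X hS a00 τ θ
  have hn : ‖v (θ - τ)‖ ≠ 0 := norm_ne_zero_iff.2 (Complex.slitPlane_ne_zero (hr _))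
  rw [sub_zero, ← h, mul_pow]
  show _ / (1 + (v' (θ - τ) / v (θ - τ)).im) = _
  rw [mul_div_mul_left _ _ (pow_ne_zero 2 hn)]

end

section

variable {A : ℝ} {B : ℂ} {β ρ : ℝ → ℂ} {M : ℕ} {p r s : ℤ → ℂ}

theorem hh1_cont (hA : 0 ≤ A) (hz : A + 8 / 5 * ‖B‖ ≤ 1 / 12) : Continuous (hh1 A B M p r s) := by
  have hb := zone_box hA hz
  have c2 : Continuous (v1 A B) := continuous_iff_continuousAt.2 fun x => (v1_dd A B x).continuousAt
  refine ((nU_cont (v1_dd A B) (v1'_c A B) (slit1 hb) _ _ _).pow 2).div ((c2.norm.pow 2).mul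
    (continuous_const.add (cont_slope (v1_dd A B) (v1'_c A B) (slit1 hb)))) fun x => ?_
  have h1 : (1 : ℝ) / 100 ≤ 1 + (v1' A B x / v1 A B x).im := slope1 hb x
  have h2 : ‖v1 A B x‖ ≠ 0 := norm_ne_zero_iff.2 (Complex.slitPlane_ne_zero (slit1 hb x))
  exact mul_ne_zero (pow_ne_zero 2 h2) (by linarith)

theorem hh2_cont (hA : 0 ≤ A) (hz : A + 8 / 5 * ‖B‖ ≤ 1 / 12) : Continuous (hh2 A B M p r s) := by
  have hb := zone_box hA hz
  have c2 : Continuous (v2 A B) := continuous_iff_continuousAt.2 fun x => (v2_dd A B x).continuousAt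
  refine ((nU_cont (v2_dd A B) (v2'_c A B) (slit2 hb) _ _ _).pow 2).div ((c2.norm.pow 2).mul
    (continuous_const.add (cont_slope (v2_dd A B) (v2'_c A B) (slit2 hb)))) fun x => ?_
  have h1 : (1 : ℝ) / 100 ≤ 1 + (v2' A B x / v2 A B x).im := slope2 hb x
  have h2 : ‖v2 A B x‖ ≠ 0 := norm_ne_zero_iff.2 (Complex.slitPlane_ne_zero (slit2 hb x))
  exact mul_ne_zero (pow_ne_zero 2 h2) (by linarith)

theorem v1_per (A : ℝ) (B : ℂ) (x : ℝ) : v1 A B (x + 2 * Real.pi) = v1 A B x := by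
  unfold v1; rw [z0I_per]
theorem v2_per (A : ℝ) (B : ℂ) (x : ℝ) : v2 A B (x + 2 * Real.pi) = v2 A B x := by
  unfold v2; rw [z0I_per]

theorem hh1_per (x : ℝ) : hh1 A B M p r s (x + 2 * Real.pi) = hh1 A B M p r s x := by
  unfold hh1
  rw [nU_per (v1_dd A B) (v1_per A B), per_dv (v1_dd A B) (v1_per A B), v1_per]
theorem hh2_per (x : ℝ) : hh2 A B M p r s (x + 2 * Real.pi) = hh2 A B M p r s x := by
  unfold hh2
  rw [nU_per (v2_dd A B) (v2_per A B), per_dv (v2_dd A B) (v2_per A B), v2_per]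

/-- shift of a periodic integral -/
theorem int_shift {h : ℝ → ℝ} (hp : ∀ x, h (x + 2 * Real.pi) = h x) (τ : ℝ) :
    ∫ θ in (0 : ℝ)..(2 * Real.pi), h (θ - τ) = ∫ θ in (0 : ℝ)..(2 * Real.pi), h θ := by
  rw [intervalIntegral.integral_comp_sub_right (fun x => h x) τ]
  have e := (show Function.Periodic h (2 * Real.pi) from hp).intervalIntegral_add_eq (0 - τ) 0
  rw [zero_add] at e
  rw [← e]
  congr 1
  ring

theorem fu_pi (R : RestC β ρ M p r s) (t : ℝ) : fu M p (t + Real.pi) = fu M p t := by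
  unfold fu
  refine Helper95.RC.tp_pi _ _ (fun m _ hm => ?_) t
  rw [Int.not_even_iff_odd] at hm
  show mm m * pO p m = 0
  unfold pO
  rw [R.par.po m hm]
  simp

theorem fur_pi (R : RestC β ρ M p r s) (t : ℝ) : fu M r (t + Real.pi) = fu M r t := by
  unfold fu
  refine Helper95.RC.tp_pi _ _ (fun m _ hm => ?_) t
  rw [Int.not_even_iff_odd] at hm
  show mm m * pO r m = 0
  unfold pO
  rw [R.par.ro m hm]
  simp

theorem fY_pi (R : RestC β ρ M p r s) (t : ℝ) : fY M s (t + Real.pi) = -fY M s t := by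
  unfold fY tp
  rw [← Finset.sum_neg_distrib]
  refine Finset.sum_congr rfl fun n _ => ?_
  show mm n * s n * ee ((n : ℝ) * (t + Real.pi)) = -(mm n * s n * ee ((n : ℝ) * t))
  rcases Int.even_or_odd n with he | ho
  · rw [R.par.se n he]; simp
  · obtain ⟨m, rfl⟩ := ho
    have : ee (((2 * m + 1 : ℤ) : ℝ) * (t + Real.pi)) = -ee (((2 * m + 1 : ℤ) : ℝ) * t) := by
      have e : ((2 * m + 1 : ℤ) : ℝ) * (t + Real.pi) =
          (((2 * m + 1 : ℤ) : ℝ) * t + Real.pi) + 2 * Real.pi * (m : ℝ) := by push_cast; ring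
      rw [e, ee_int_per, ee_add, ee_pi]
      ring
    rw [this]
    ring

theorem o2_pi (R : RestC β ρ M p r s) (t : ℝ) : o2F β (t + Real.pi) = o2F β t := by
  have h : ee (2 * (t + Real.pi)) = ee (2 * t) := by
    rw [mul_add, ee_per]
  unfold o2F h2F
  rw [R.pb, h]

/-- **(C2) FROM THE POINTWISE INEQUALITY `T1`** -/
theorem stC2_of (T : T1St) : StC2 := by
  intro A B β ρ M p r s hA hz R
  have hb := zone_box hA hz
  have hp := Real.pi_gt_three
  obtain ⟨b1, B1, W1⟩ := WF_ang (v1_dd A B) (v1'_c A B) (slit1 hb) (v1_per A B) (SW M) (X1 p r s) (mem_SW M)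
    (Real.pi / 3) (Real.pi / 3)
  obtain ⟨b2, B2, W2⟩ := WF_ang (v2_dd A B) (v2'_c A B) (slit2 hb) (v2_per A B) (SW M) (X2 p r s) (mem_SW M)
    (2 * Real.pi / 3) (2 * Real.pi / 3)
  have eF1 : fA (SW M) (X1 p r s) (Real.pi / 3) = f1R (o2F β) ρ := by
    funext θ
    unfold fA f1R
    rw [tp_X1 R]
  have eF2 : fA (SW M) (X2 p r s) (2 * Real.pi / 3) = f2R (o2F β) ρ := by
    funext θ
    unfold fA f2R
    rw [tp_X2 R]
  have q1 : ∀ x, phA (v1 A B) (Real.pi / 3) (x + 2 * Real.pi) = phA (v1 A B) (Real.pi / 3) x + 2 * Real.pi := fun x => by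
    unfold phA
    rw [show x + 2 * Real.pi - Real.pi / 3 = x - Real.pi / 3 + 2 * Real.pi by ring, v1_per]
    ring
  have q2 : ∀ x, phA (v2 A B) (2 * Real.pi / 3) (x + 2 * Real.pi) = phA (v2 A B) (2 * Real.pi / 3) x + 2 * Real.pi :=
    fun x => by
      unfold phA
      rw [show x + 2 * Real.pi - 2 * Real.pi / 3 = x - 2 * Real.pi / 3 + 2 * Real.pi by ring, v2_per]
      ring
  have key := W_tsum (R1 := fun _ => 0) (R2 := fun _ => 0) (C := 0) W1 W2 (σ := 1 / 100) (by norm_num)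
    (fun x => slope1 hb _) (fun x => slope2 hb _) q1 q2 measurable_const measurable_const (by simp) (by simp) 1
    (fun k _ => by unfold Pool.Agent.Helper17.RC.yk; simp)
  rw [eF1, eF2] at key
  have eP1 : phA (v1 A B) (Real.pi / 3) = (PZ A B).ph1 := rfl
  have eP2 : phA (v2 A B) (2 * Real.pi / 3) = (PZ A B).ph2 := rfl
  refine key.trans ?_
  -- the integral
  have c1 := hh1_cont (M := M) (p := p) (r := r) (s := s) hA hz
  have c2 := hh2_cont (M := M) (p := p) (r := r) (s := s) hA hz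
  have i1 : ∀ a b, IntervalIntegrable (hh1 A B M p r s) volume a b := fun a b => c1.intervalIntegrable a b
  have i2 : ∀ a b, IntervalIntegrable (hh2 A B M p r s) volume a b := fun a b => c2.intervalIntegrable a b
  have j : ∀ {h : ℝ → ℝ}, Continuous h → ∀ τ a b, IntervalIntegrable (fun θ => h (θ - τ)) volume a b :=
    fun hc τ a b => (hc.comp (continuous_id.sub continuous_const)).intervalIntegrable a b
  rw [← eF1, ← eF2]
  have e0 : ∀ θ, (WU (fA (SW M) (X1 p r s) (Real.pi / 3)) (pA (SW M) (X1 p r s) (v1 A B) (Real.pi / 3) (Real.pi / 3))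
        (phA (v1 A B) (Real.pi / 3)) (dA (v1 A B) (v1' A B) (Real.pi / 3)) (X1 p r s (-1)) θ - 0) ^ 2 /
          dA (v1 A B) (v1' A B) (Real.pi / 3) θ +
      (WU (fA (SW M) (X2 p r s) (2 * Real.pi / 3)) (pA (SW M) (X2 p r s) (v2 A B) (2 * Real.pi / 3) (2 * Real.pi / 3))
        (phA (v2 A B) (2 * Real.pi / 3)) (dA (v2 A B) (v2' A B) (2 * Real.pi / 3)) (X2 p r s (-1)) θ - 0) ^ 2 /
          dA (v2 A B) (v2' A B) (2 * Real.pi / 3) θ =
      hh1 A B M p r s (θ - Real.pi / 3) + hh2 A B M p r s (θ - 2 * Real.pi / 3) := fun θ => by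
    rw [WU_sq (v := v1 A B) (v' := v1' A B) (slit1 hb) _ _ (mem_SW M),
      WU_sq (v := v2 A B) (v' := v2' A B) (slit2 hb) _ _ (mem_SW M)]
    rfl
  simp_rw [e0]
  rw [intervalIntegral.integral_add (j c1 _ _ _) (j c2 _ _ _), int_shift hh1_per, int_shift hh2_per,
    ← intervalIntegral.integral_add (i1 _ _) (i2 _ _)]
  -- the pairing
  set h := fun θ => hh1 A B M p r s θ + hh2 A B M p r s θ with hh
  have ch : Continuous h := c1.add c2
  have hper : ∀ x, h (x + 2 * Real.pi) = h x := fun x => by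
    show hh1 _ _ _ _ _ _ _ + hh2 _ _ _ _ _ _ _ = _
    rw [hh1_per, hh2_per]
  have hs := int_shift hper (-Real.pi)
  simp only [sub_neg_eq_add] at hs
  have ih : IntervalIntegrable (fun θ => h (θ + Real.pi)) volume 0 (2 * Real.pi) :=
    (ch.comp (continuous_id.add continuous_const)).intervalIntegrable _ _
  have hpair : ∫ θ in (0 : ℝ)..(2 * Real.pi), h θ =
      ∫ θ in (0 : ℝ)..(2 * Real.pi), 1 / 2 * (h θ + h (θ + Real.pi)) := by
    rw [intervalIntegral.integral_const_mul, intervalIntegral.integral_add (ch.intervalIntegrable _ _) ih, hs]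
    ring
  rw [hpair]
  have hPB := ms_PB R
  rw [← sum_Fn R, ← hPB.m]
  unfold mean
  refine mul_le_mul_of_nonneg_left ?_ (by positivity)
  refine intervalIntegral.integral_mono_on (by linarith)
    ((continuous_const.mul (ch.add (ch.comp (continuous_id.add continuous_const)))).intervalIntegrable _ _)
    (hPB.c.intervalIntegrable _ _) fun t _ => ?_
  show 1 / 2 * ((hh1 A B M p r s t + hh2 A B M p r s t) + (hh1 A B M p r s (t + Real.pi) + hh2 A B M p r s (t + Real.pi))) ≤ _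
  rw [hh1_eq R hA hz, hh2_eq R hA hz, hh1_eq R hA hz, hh2_eq R hA hz, o2_pi R, fu_pi R, fur_pi R, fY_pi R, R.pz,
    em3, em5, em1, mul_neg, mul_neg, mul_neg]
  have := HH_pt T (zone_as hA hz t) (ρ t) (fY M s t) (s (-1) * ee (-t)) (fu M p t) (fu M r t) (o2F β t).re (o2F β t).im
  linarith

end

end Pool.Agent.Helper73.SH
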