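import Pool.Agent.Helper73.SH.WLocE
import Pool.Agent.Helper17.SH.PtT1

/-!
# Project RC, SHARP, zone I: (C2) of the contract
-/

set_option autoImplicit false

open MeasureTheory Set Filter Topology

namespace Pool.Agent.Helper73.SH

open Helper49.RC (om)

theorem T1f_eq (e xb a s ρ : ℂ) : T1f e xb a s ρ = Pool.Agent.Helper17.SH.T1f e xb a s ρ := by
  unfold T1f Pool.Agent.Helper17.SH.T1f Pool.Agent.Helper17.SH.z0f Pool.Agent.Helper17.SH.n0f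
  rw [show a + s - 1 / 2 * (starRingEnd ℂ) s = a + s - (starRingEnd ℂ) s / 2 by ring, Complex.normSq_eq_norm_sq]

theorem t1St : T1St := by
  intro a s ρ b2 b3 hz
  have c1 : ((starRingEnd ℂ) om).re = 1 / 2 := by rw [Complex.conj_re, Helper43.SH.om_re']
  have c2 : ((starRingEnd ℂ) om).im = -(Real.sqrt 3 / 2) := by rw [Complex.conj_im, Helper43.SH.om_im']
  have h := Pool.Agent.Helper17.SH.T1_pt c1 c2 Helper43.SH.om_re' Helper43.SH.om_im' hz ρ b2 b3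
  have x1 : xb1 b2 b3 = (starRingEnd ℂ) om ^ 2 * b2 + (starRingEnd ℂ) om * (Real.sqrt 3 + Complex.I / 4) * b3 := rfl
  have x2 : xb2 b2 b3 = om ^ 2 * b2 - om * (Real.sqrt 3 - Complex.I / 4) * b3 := by unfold xb2; rw [kp_c]
  have n1 := nat_z ρ
  have n2 := nat_b (b2 : ℂ) (b3 : ℂ)
  have n3 := nsq ρ
  have n4 : (ρ * ρ).re = ρ.re ^ 2 - ρ.im ^ 2 := by rw [Complex.mul_re]; ring
  have n5 : ‖(b2 : ℂ)‖ ^ 2 = b2 ^ 2 := by rw [Complex.norm_real, Real.norm_eq_abs, sq_abs]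
  have n6 : ‖(b3 : ℂ)‖ ^ 2 = b3 ^ 2 := by rw [Complex.norm_real, Real.norm_eq_abs, sq_abs]
  have n7 : ((b2 : ℂ) * (b2 : ℂ)).re = b2 ^ 2 := by rw [← Complex.ofReal_mul, Complex.ofReal_re]; ring
  have n8 : ((b3 : ℂ) * (b3 : ℂ)).re = b3 ^ 2 := by rw [← Complex.ofReal_mul, Complex.ofReal_re]; ring
  have n9 : ((b2 : ℂ) * (starRingEnd ℂ) (b3 : ℂ)).im = 0 := by
    rw [Complex.conj_ofReal, ← Complex.ofReal_mul, Complex.ofReal_im]
  have n10 : ((b2 : ℂ) * (b3 : ℂ)).im = 0 := by rw [← Complex.ofReal_mul, Complex.ofReal_im]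
  rw [n5, n6, n7, n8, n9, n10] at n2
  simp only [T1f_eq]
  rw [x1, x2] at n2 ⊢
  linarith

/-- **(C2)** -/
theorem stC2 : Helper61.RC.QC.StC2 := stC2_of t1St

end Pool.Agent.Helper73.SH
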