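import Pool.Agent.Helper43.SH.Exp

/-!
# Project RC, SHARP, zone I, (C2): the pointwise part `T2`

`T2 q d x Y = -Re (x conj Y) + Re (x Y q) + (1/2) d (|Y|² - Re (Y² q))`, `q = conj F / F`, `d` the slope.
`pair`: the mean over `t`, `t + π` minus the natural parts. `Dv_le`: one family. `dev_le`: the two families.
-/

set_option autoImplicit false

open MeasureTheory Set Filter Topology

namespace Pool.Agent.Helper73.SH

open Helper49.LT hiding sg
open Pool.Agent.Helper43.SH (om_re' om_im')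

/-- the natural part -/
noncomputable def Nn (x Y : ℂ) : ℝ := (x.im - Y.im) ^ 2 - x.im ^ 2

noncomputable def T2 (q : ℂ) (d : ℝ) (x Y : ℂ) : ℝ :=
  -(x * (starRingEnd ℂ) Y).re + (x * Y * q).re + 1 / 2 * d * (‖Y‖ ^ 2 - (Y ^ 2 * q).re)

theorem nsq (x : ℂ) : ‖x‖ ^ 2 = x.re ^ 2 + x.im ^ 2 := by
  rw [← Complex.normSq_eq_norm_sq, Complex.normSq_apply]; ring

theorem T2_of {F : ℂ} (hF : F ≠ 0) (d : ℝ) (x Y : ℂ) :
    -2 * (x * (starRingEnd ℂ) F).im * (Y * (starRingEnd ℂ) F).im / ‖F‖ ^ 2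
      + d * (Y * (starRingEnd ℂ) F).im ^ 2 / ‖F‖ ^ 2 = T2 ((starRingEnd ℂ) F / F) d x Y := by
  have hn : Complex.normSq F ≠ 0 := (Complex.normSq_pos.2 hF).ne'
  have hn2 : F.re ^ 2 + F.im ^ 2 ≠ 0 := by
    rw [Complex.normSq_apply] at hn
    intro h
    apply hn
    linarith
  unfold T2
  have hq : (starRingEnd ℂ) F / F = ⟨(F.re ^ 2 - F.im ^ 2) / (F.re ^ 2 + F.im ^ 2), -2 * F.re * F.im / (F.re ^ 2 + F.im ^ 2)⟩ := by
    rw [div_eq_iff hF]
    apply Complex.ext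
    · simp only [Complex.conj_re, Complex.mul_re]
      field_simp
      ring
    · simp only [Complex.conj_im, Complex.mul_im]
      field_simp
      ring
  rw [hq, nsq, nsq]
  simp only [Complex.mul_re, Complex.mul_im, Complex.conj_re, Complex.conj_im, pow_two]
  have h3 : F.re * F.re + F.im * F.im ≠ 0 := by
    intro h; apply hn2; linarith
  field_simp
  ring

/-- the deviation of one family -/
noncomputable def Dv (qe qo : ℂ) (ae ao : ℝ) (xz xb Yz Yb : ℂ) : ℝ :=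
  ((xz * Yz + xb * Yb) * qe).re + ((xz * Yb + xb * Yz) * qo).re + 1 / 2 * ae * (‖Yz‖ ^ 2 + ‖Yb‖ ^ 2)
    + ao * (Yz * (starRingEnd ℂ) Yb).re - 1 / 2 * ((Yz ^ 2 + Yb ^ 2) * (ae + (1 + ae) * qe + ao * qo)).re
    - (Yz * Yb * ((1 + ae) * qo + ao * (1 + qe))).re

theorem pair (qe qo : ℂ) (ae ao : ℝ) (xz xb Yz Yb : ℂ) :
    1 / 2 * (T2 (1 + qe + qo) (1 + ae + ao) (xz + xb) (Yz + Yb)
      + T2 (1 + qe - qo) (1 + ae - ao) (-xz + xb) (-Yz + Yb)) =
    Nn xz Yz + Nn xb Yb + Dv qe qo ae ao xz xb Yz Yb := by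
  unfold T2 Nn Dv
  rw [nsq, nsq, nsq, nsq]
  simp only [Complex.mul_re, Complex.mul_im, Complex.conj_re, Complex.conj_im, pow_two, Complex.add_re,
    Complex.add_im, Complex.sub_re, Complex.sub_im, Complex.neg_re, Complex.neg_im, Complex.one_re, Complex.one_im,
    Complex.ofReal_re, Complex.ofReal_im]
  ring

theorem Dv_le {qe qo : ℂ} {ae ao η η' : ℝ} {xz xb Yz Yb : ℂ} {QE QO QR KA AO DA X1 X2 Y1 Y2 : ℝ}
    (hqe : ‖qe‖ ≤ QE) (hqo : ‖qo‖ ≤ QO) (hqr : ‖qo + 2 * Complex.I * η‖ ≤ QR) (hae : |ae| ≤ KA) (hao : |ao| ≤ AO)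
    (hda : |ao - η'| ≤ DA) (x1 : ‖xz‖ ≤ X1) (x2 : ‖xb‖ ≤ X2) (y1 : ‖Yz‖ ≤ Y1) (y2 : ‖Yb‖ ≤ Y2) :
    Dv qe qo ae ao xz xb Yz Yb ≤ 2 * η * (xz * Yb + xb * Yz - Yz * Yb).im + 2 * η' * Yz.im * Yb.im
      + QE * (X1 * Y1 + X2 * Y2) + QR * (X1 * Y2 + X2 * Y1)
      + (KA + 1 / 2 * (QE * (1 + KA) + AO * QO)) * (Y1 ^ 2 + Y2 ^ 2)
      + (2 * DA + KA * QO + AO * QE + QR) * (Y1 * Y2) := by
  have X10 := (norm_nonneg _).trans x1
  have X20 := (norm_nonneg _).trans x2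
  have Y10 := (norm_nonneg _).trans y1
  have Y20 := (norm_nonneg _).trans y2
  have QE0 := (norm_nonneg _).trans hqe
  have QO0 := (norm_nonneg _).trans hqo
  have QR0 := (norm_nonneg _).trans hqr
  have KA0 := (abs_nonneg _).trans hae
  have AO0 := (abs_nonneg _).trans hao
  have DA0 := (abs_nonneg _).trans hda
  have m2 : ∀ {u v : ℂ} {a b : ℝ}, ‖u‖ ≤ a → ‖v‖ ≤ b → 0 ≤ a → ‖u * v‖ ≤ a * b := by
    intro u v a b hu hv ha
    rw [norm_mul]
    exact mul_le_mul hu hv (norm_nonneg _) ha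
  have hp : ‖xz * Yz + xb * Yb‖ ≤ X1 * Y1 + X2 * Y2 := (norm_add_le _ _).trans (add_le_add (m2 x1 y1 X10) (m2 x2 y2 X20))
  have hm : ‖xz * Yb + xb * Yz‖ ≤ X1 * Y2 + X2 * Y1 := (norm_add_le _ _).trans (add_le_add (m2 x1 y2 X10) (m2 x2 y1 X20))
  have hyy : ‖Yz * Yb‖ ≤ Y1 * Y2 := m2 y1 y2 Y10
  have hy1 : ‖Yz‖ ^ 2 ≤ Y1 ^ 2 := pow_le_pow_left₀ (norm_nonneg _) y1 2
  have hy2 : ‖Yb‖ ^ 2 ≤ Y2 ^ 2 := pow_le_pow_left₀ (norm_nonneg _) y2 2
  have hsq : ‖Yz ^ 2 + Yb ^ 2‖ ≤ Y1 ^ 2 + Y2 ^ 2 := by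
    refine (norm_add_le _ _).trans ?_
    rw [norm_pow, norm_pow]
    exact add_le_add hy1 hy2
  -- the pieces
  have e1 : ((xz * Yz + xb * Yb) * qe).re ≤ QE * (X1 * Y1 + X2 * Y2) := by
    refine (Complex.re_le_norm _).trans ((m2 hp hqe (by positivity)).trans (le_of_eq (mul_comm _ _)))
  have e2 : ((xz * Yb + xb * Yz) * qo).re ≤ 2 * η * (xz * Yb + xb * Yz).im + QR * (X1 * Y2 + X2 * Y1) := by
    have h := (Complex.re_le_norm ((xz * Yb + xb * Yz) * (qo + 2 * Complex.I * η))).trans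
      (m2 hm hqr (by positivity))
    have h2 : ((xz * Yb + xb * Yz) * (qo + 2 * Complex.I * η)).re =
        ((xz * Yb + xb * Yz) * qo).re - 2 * η * (xz * Yb + xb * Yz).im := by
      set w := xz * Yb + xb * Yz
      simp
      ring
    linarith
  have e3 : 1 / 2 * ae * (‖Yz‖ ^ 2 + ‖Yb‖ ^ 2) ≤ 1 / 2 * KA * (Y1 ^ 2 + Y2 ^ 2) := by
    have h1 : ae * (‖Yz‖ ^ 2 + ‖Yb‖ ^ 2) ≤ KA * (Y1 ^ 2 + Y2 ^ 2) :=
      mul_le_mul ((le_abs_self _).trans hae) (add_le_add hy1 hy2) (by positivity) KA0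
    linarith
  have e4 : -(1 / 2 * ((Yz ^ 2 + Yb ^ 2) * (ae + (1 + ae) * qe + ao * qo)).re) ≤
      1 / 2 * ((Y1 ^ 2 + Y2 ^ 2) * (KA + (1 + KA) * QE + AO * QO)) := by
    have h1 : ‖(ae : ℂ) + (1 + ae) * qe + ao * qo‖ ≤ KA + (1 + KA) * QE + AO * QO := by
      refine (norm_add_le _ _).trans (add_le_add ((norm_add_le _ _).trans (add_le_add ?_ ?_)) ?_)
      · rw [Complex.norm_real, Real.norm_eq_abs]; exact hae
      · refine m2 ?_ hqe (by positivity)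
        have : (1 + ae : ℂ) = ((1 + ae : ℝ) : ℂ) := by push_cast; rfl
        rw [this, Complex.norm_real, Real.norm_eq_abs]
        refine (abs_add_le _ _).trans ?_
        rw [abs_one]
        linarith
      · refine m2 ?_ hqo AO0
        rw [Complex.norm_real, Real.norm_eq_abs]; exact hao
    have h2 := m2 hsq h1 (by positivity)
    have h3 := (abs_le.1 ((Complex.abs_re_le_norm ((Yz ^ 2 + Yb ^ 2) * (ae + (1 + ae) * qe + ao * qo))).trans h2)).1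
    linarith
  have e5 : ao * (Yz * (starRingEnd ℂ) Yb).re - (Yz * Yb * ((1 + ae) * qo + ao * (1 + qe))).re ≤
      2 * η' * Yz.im * Yb.im - 2 * η * (Yz * Yb).im + (2 * DA + KA * QO + AO * QE + QR) * (Y1 * Y2) := by
    have h1 : ao * (Yz * (starRingEnd ℂ) Yb).re - (Yz * Yb * ((1 + ae) * qo + ao * (1 + qe))).re =
        2 * η' * Yz.im * Yb.im - 2 * η * (Yz * Yb).im + 2 * (ao - η') * (Yz.im * Yb.im)
          - ((Yz * Yb) * (qo + 2 * Complex.I * η)).re - ((Yz * Yb) * (ae * qo + ao * qe)).re := by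
      simp only [Complex.mul_re, Complex.mul_im, Complex.conj_re, Complex.conj_im, Complex.add_re, Complex.add_im,
        Complex.one_re, Complex.one_im, Complex.ofReal_re, Complex.ofReal_im, Complex.I_re, Complex.I_im,
        Complex.re_ofNat, Complex.im_ofNat]
      ring
    have h2 : 2 * (ao - η') * (Yz.im * Yb.im) ≤ 2 * DA * (Y1 * Y2) := by
      have h3 : |(ao - η') * (Yz.im * Yb.im)| ≤ DA * (Y1 * Y2) := by
        rw [abs_mul, abs_mul]
        exact mul_le_mul hda (mul_le_mul ((Complex.abs_im_le_norm _).trans y1) ((Complex.abs_im_le_norm _).trans y2)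
          (abs_nonneg _) Y10) (by positivity) DA0
      have := (le_abs_self _).trans h3
      linarith
    have h3 := (abs_le.1 ((Complex.abs_re_le_norm ((Yz * Yb) * (qo + 2 * Complex.I * η))).trans
      (m2 hyy hqr (by positivity)))).1
    have h4 : ‖(ae : ℂ) * qo + ao * qe‖ ≤ KA * QO + AO * QE := by
      refine (norm_add_le _ _).trans (add_le_add (m2 ?_ hqo KA0) (m2 ?_ hqe AO0))
      · rw [Complex.norm_real, Real.norm_eq_abs]; exact hae
      · rw [Complex.norm_real, Real.norm_eq_abs]; exact hao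
    have h5 := (abs_le.1 ((Complex.abs_re_le_norm ((Yz * Yb) * (ae * qo + ao * qe))).trans
      (m2 hyy h4 (by positivity)))).1
    rw [h1]
    nlinarith
  unfold Dv
  rw [Complex.sub_im]
  have e6 : 2 * η * (xz * Yb + xb * Yz).im - 2 * η * (Yz * Yb).im =
      2 * η * ((xz * Yb + xb * Yz).im - (Yz * Yb).im) := by ring
  have e7 : (KA + 1 / 2 * (QE * (1 + KA) + AO * QO)) * (Y1 ^ 2 + Y2 ^ 2) =
      1 / 2 * KA * (Y1 ^ 2 + Y2 ^ 2) + 1 / 2 * ((Y1 ^ 2 + Y2 ^ 2) * (KA + (1 + KA) * QE + AO * QO)) := by ring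
  rw [e7]
  linarith

end Pool.Agent.Helper73.SH
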