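import Pool.Agent.Helper73.SH.PtT2

/-!
# Project RC, SHARP, zone I, (C2): the sum over the two families of the deviation of `T2`, radius `1/12`
-/

set_option autoImplicit false

open MeasureTheory Set Filter Topology

namespace Pool.Agent.Helper73.SH

open Helper49.LT hiding sg
open Helper49.RC Helper44.GQ
open Pool.Agent.Helper43.SH (om_re' om_im')

/-- bounds of the coefficients of one family -/
structure CO (η η' : ℝ) (qe qo : ℂ) (ae ao : ℝ) : Prop where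
  hqe : ‖qe‖ ≤ 24 / 143 * |η|
  hqo : ‖qo‖ ≤ 288 / 143 * |η|
  hqr : ‖qo + 2 * Complex.I * η‖ ≤ 2 / 143 * |η|
  hae : |ae| ≤ 328 / 10000
  hao : |ao| ≤ 3934 / 10000
  hda : |ao - η'| ≤ 274 / 100000

/-- the coefficients -/
noncomputable def wζ (ζ : ℂ) : ℂ := 1 / (1 - ζ ^ 2)
noncomputable def qE (ζ : ℂ) : ℂ := 2 * Complex.I * ζ.im * ζ * wζ ζ
noncomputable def qO (ζ : ℂ) : ℂ := -(2 * Complex.I * ζ.im) * wζ ζ
noncomputable def aE (ζ ζ' : ℂ) : ℝ := -(ζ' * ζ * wζ ζ).im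
noncomputable def aO (ζ ζ' : ℂ) : ℝ := (ζ' * wζ ζ).im

section

variable {ζ ζ' : ℂ} (h0 : ‖ζ‖ ≤ 1 / 12)

include h0

theorem ne_p : 1 + ζ ≠ 0 := by
  intro h
  have : ζ = -1 := by linear_combination h
  rw [this] at h0
  norm_num at h0

theorem ne_m : 1 - ζ ≠ 0 := by
  intro h
  have : ζ = 1 := by linear_combination -h
  rw [this] at h0
  norm_num at h0

theorem ne_pm : 1 - ζ ^ 2 ≠ 0 := by
  have : 1 - ζ ^ 2 = (1 + ζ) * (1 - ζ) := by ring
  rw [this]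
  exact mul_ne_zero (ne_p h0) (ne_m h0)

theorem w_norm : ‖wζ ζ‖ ≤ 144 / 143 := by
  unfold wζ
  rw [norm_div, norm_one]
  have h1 : 143 / 144 ≤ ‖1 - ζ ^ 2‖ := by
    have := norm_sub_norm_le (1 : ℂ) (ζ ^ 2)
    rw [norm_one, norm_pow] at this
    have h2 : ‖ζ‖ ^ 2 ≤ (1 / 12) ^ 2 := pow_le_pow_left₀ (norm_nonneg _) h0 2
    linarith
  rw [div_le_iff₀ (by linarith)]
  linarith

theorem w_sub : wζ ζ - 1 = ζ ^ 2 * wζ ζ := by
  have := ne_pm h0
  unfold wζ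
  field_simp
  ring

theorem w_sub_norm : ‖wζ ζ - 1‖ ≤ 1 / 143 := by
  rw [w_sub h0, norm_mul, norm_pow]
  have h2 : ‖ζ‖ ^ 2 ≤ (1 / 12) ^ 2 := pow_le_pow_left₀ (norm_nonneg _) h0 2
  have h3 := w_norm h0
  have := mul_le_mul h2 h3 (norm_nonneg _) (by norm_num)
  linarith

theorem q_p : (starRingEnd ℂ) (1 + ζ) / (1 + ζ) = 1 + qE ζ + qO ζ := by
  have h1 := ne_p h0
  have h2 := ne_m h0
  have e : (starRingEnd ℂ) ζ = ζ - 2 * Complex.I * ζ.im := by
    apply Complex.ext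
    · simp
    · simp; ring
  have e2 : 1 - ζ ^ 2 = (1 + ζ) * (1 - ζ) := by ring
  unfold qE qO wζ
  rw [map_add, map_one, e, e2]
  field_simp
  ring

theorem q_m : (starRingEnd ℂ) (1 - ζ) / (1 - ζ) = 1 + qE ζ - qO ζ := by
  have h1 := ne_p h0
  have h2 := ne_m h0
  have e : (starRingEnd ℂ) ζ = ζ - 2 * Complex.I * ζ.im := by
    apply Complex.ext
    · simp
    · simp; ring
  have e2 : 1 - ζ ^ 2 = (1 + ζ) * (1 - ζ) := by ring
  unfold qE qO wζ
  rw [map_sub, map_one, e, e2]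
  field_simp
  ring

theorem a_p : 1 + (ζ' / (1 + ζ)).im = 1 + aE ζ ζ' + aO ζ ζ' := by
  have h1 := ne_p h0
  have h2 := ne_m h0
  have e2 : 1 - ζ ^ 2 = (1 + ζ) * (1 - ζ) := by ring
  have : ζ' / (1 + ζ) = ζ' * wζ ζ - ζ' * ζ * wζ ζ := by
    unfold wζ
    rw [e2]
    field_simp
  unfold aE aO
  rw [this, Complex.sub_im]
  ring

theorem a_m : 1 + (-ζ' / (1 - ζ)).im = 1 + aE ζ ζ' - aO ζ ζ' := by
  have h1 := ne_p h0
  have h2 := ne_m h0
  have e2 : 1 - ζ ^ 2 = (1 + ζ) * (1 - ζ) := by ring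
  have : -ζ' / (1 - ζ) = -(ζ' * wζ ζ) - ζ' * ζ * wζ ζ := by
    unfold wζ
    rw [e2]
    field_simp
    ring
  unfold aE aO
  rw [this, Complex.sub_im, Complex.neg_im]
  ring

theorem co_of (h1 : ‖ζ'‖ ≤ 25 / 64) : CO ζ.im ζ'.im (qE ζ) (qO ζ) (aE ζ ζ') (aO ζ ζ') := by
  have hw := w_norm h0
  have hws := w_sub_norm h0
  have hi := abs_nonneg ζ.im
  have n2 : ‖(2 * Complex.I * (ζ.im : ℂ))‖ = 2 * |ζ.im| := by
    rw [norm_mul, norm_mul, Complex.norm_I, Complex.norm_real, Real.norm_eq_abs]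
    norm_num
  refine ⟨?_, ?_, ?_, ?_, ?_, ?_⟩
  · unfold qE
    rw [norm_mul, norm_mul, n2]
    have := mul_le_mul (mul_le_mul_of_nonneg_left h0 (by positivity : 0 ≤ 2 * |ζ.im|)) hw (norm_nonneg _)
      (by positivity)
    linarith
  · unfold qO
    rw [norm_mul, norm_neg, n2]
    have := mul_le_mul_of_nonneg_left hw (by positivity : 0 ≤ 2 * |ζ.im|)
    linarith
  · have e : qO ζ + 2 * Complex.I * ζ.im = -(2 * Complex.I * ζ.im) * (wζ ζ - 1) := by
      unfold qO; ring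
    rw [e, norm_mul, norm_neg, n2]
    have := mul_le_mul_of_nonneg_left hws (by positivity : 0 ≤ 2 * |ζ.im|)
    linarith
  · unfold aE
    rw [abs_neg]
    refine (Complex.abs_im_le_norm _).trans ?_
    rw [norm_mul, norm_mul]
    have := mul_le_mul (mul_le_mul h1 h0 (norm_nonneg _) (by norm_num)) hw (norm_nonneg _) (by norm_num)
    linarith
  · unfold aO
    refine (Complex.abs_im_le_norm _).trans ?_
    rw [norm_mul]
    have := mul_le_mul h1 hw (norm_nonneg _) (by norm_num)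
    linarith
  · have e : aO ζ ζ' - ζ'.im = (ζ' * (wζ ζ - 1)).im := by
      unfold aO
      rw [mul_sub, mul_one, Complex.sub_im]
    rw [e]
    refine (Complex.abs_im_le_norm _).trans ?_
    rw [norm_mul]
    have := mul_le_mul h1 hws (norm_nonneg _) (by norm_num)
    linarith

end

/-! ### the two families -/

/-- `√3 + i/4` -/
noncomputable def kp : ℂ := (Real.sqrt 3 : ℂ) + Complex.I / 4

/-- the `b` part of `x_j`, `y_j` -/
noncomputable def xb1 (u v : ℂ) : ℂ := (starRingEnd ℂ) om ^ 2 * u + (starRingEnd ℂ) om * kp * v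
noncomputable def xb2 (u v : ℂ) : ℂ := om ^ 2 * u - om * (starRingEnd ℂ) kp * v

theorem s3sq : Real.sqrt 3 * Real.sqrt 3 = 3 := Real.mul_self_sqrt (by norm_num)

theorem om_n : ‖om‖ = 1 := by
  unfold om; exact norm_ee _

theorem kp_n : ‖kp‖ = 7 / 4 := by
  have h : ‖kp‖ ^ 2 = (7 / 4) ^ 2 := by
    rw [nsq]
    unfold kp
    simp
    have := s3sq
    nlinarith
  exact (pow_left_inj₀ (norm_nonneg _) (by norm_num) (by norm_num)).1 h

theorem kp_c : (starRingEnd ℂ) kp = (Real.sqrt 3 : ℂ) - Complex.I / 4 := by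
  unfold kp
  rw [map_add, map_div₀, Complex.conj_ofReal, Complex.conj_I, map_ofNat]
  ring

theorem xb1_n (u v : ℂ) : ‖xb1 u v‖ ≤ ‖u‖ + 7 / 4 * ‖v‖ := by
  unfold xb1
  refine (norm_add_le _ _).trans (le_of_eq ?_)
  rw [norm_mul, norm_mul, norm_mul, norm_pow, Complex.norm_conj, om_n, kp_n]
  ring

theorem xb2_n (u v : ℂ) : ‖xb2 u v‖ ≤ ‖u‖ + 7 / 4 * ‖v‖ := by
  unfold xb2
  refine (norm_sub_le _ _).trans (le_of_eq ?_)
  rw [norm_mul, norm_mul, norm_mul, norm_pow, Complex.norm_conj, om_n, kp_n]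
  ring

/-- the imaginary parts of the `b` fields, real coefficients -/
theorem xb1_im (u v : ℝ) : |(xb1 u v).im| ≤ 8661 / 10000 * |u| + 11 / 8 * |v| := by
  have h3 := s3sq
  have hs : 0 ≤ Real.sqrt 3 := Real.sqrt_nonneg _
  have hs2 : Real.sqrt 3 ≤ 17321 / 10000 := by
    rw [Real.sqrt_le_left (by norm_num)]; norm_num
  have e : (xb1 u v).im = -(Real.sqrt 3 / 2 * u) - 11 / 8 * v := by
    unfold xb1 kp
    simp [pow_two, om_re', om_im']
    linear_combination (-(v) / 2) * h3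
  rw [e]
  refine (abs_sub _ _).trans ?_
  rw [abs_neg, abs_mul, abs_mul, abs_of_nonneg (by positivity : 0 ≤ Real.sqrt 3 / 2),
    abs_of_nonneg (by norm_num : (0 : ℝ) ≤ 11 / 8)]
  have := abs_nonneg u
  nlinarith

theorem xb2_im (u v : ℝ) : |(xb2 u v).im| ≤ 8661 / 10000 * |u| + 11 / 8 * |v| := by
  have h3 := s3sq
  have hs : 0 ≤ Real.sqrt 3 := Real.sqrt_nonneg _
  have hs2 : Real.sqrt 3 ≤ 17321 / 10000 := by
    rw [Real.sqrt_le_left (by norm_num)]; norm_num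
  have e : (xb2 u v).im = Real.sqrt 3 / 2 * u - 11 / 8 * v := by
    unfold xb2
    rw [kp_c]
    simp [pow_two, om_re', om_im']
    linear_combination (-(v) / 2) * h3
  rw [e]
  refine (abs_sub _ _).trans ?_
  rw [abs_mul, abs_mul, abs_of_nonneg (by positivity : 0 ≤ Real.sqrt 3 / 2),
    abs_of_nonneg (by norm_num : (0 : ℝ) ≤ 11 / 8)]
  have := abs_nonneg u
  nlinarith

/-- the exact sum over `j` -/
theorem sum1 (z0 u v : ℂ) :
    ((((starRingEnd ℂ) om * z0).im : ℝ) : ℂ) * ((starRingEnd ℂ) om * xb1 u v) + (((om * z0).im : ℝ) : ℂ) * (om * xb2 u v) =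
      -(z0.im : ℂ) * u + (((9 / 8 * z0.re : ℝ) : ℂ) - ((13 / 8 * z0.im : ℝ) : ℂ) * Complex.I) * v := by
  have h3 := s3sq
  have h3' : Real.sqrt 3 ^ 2 = 3 := by rw [pow_two]; exact h3
  have h5 : Real.sqrt 3 ^ 4 = 9 := by rw [show (4 : ℕ) = 2 * 2 by norm_num, pow_mul, h3']; norm_num
  unfold xb1 xb2
  rw [kp_c]
  unfold kp
  apply Complex.ext
  · simp [pow_two, om_re', om_im']
    ring_nf
    simp only [h3', h5]
    ring
  · simp [pow_two, om_re', om_im']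
    ring_nf
    simp only [h3', h5]
    ring

theorem sum1_norm (z0 u v : ℂ) (h : ‖z0‖ ≤ 1 / 12) :
    ‖((((starRingEnd ℂ) om * z0).im : ℝ) : ℂ) * ((starRingEnd ℂ) om * xb1 u v) + (((om * z0).im : ℝ) : ℂ) * (om * xb2 u v)‖
      ≤ 1 / 12 * (‖u‖ + 13 / 8 * ‖v‖) := by
  rw [sum1]
  refine (norm_add_le _ _).trans ?_
  rw [norm_mul, norm_mul, norm_neg, Complex.norm_real, Real.norm_eq_abs]
  have h1 := (Complex.abs_im_le_norm z0).trans h
  have h2 : ‖((9 / 8 * z0.re : ℝ) : ℂ) - ((13 / 8 * z0.im : ℝ) : ℂ) * Complex.I‖ ≤ 13 / 8 * (1 / 12) := by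
    have h3 : ‖((9 / 8 * z0.re : ℝ) : ℂ) - ((13 / 8 * z0.im : ℝ) : ℂ) * Complex.I‖ ^ 2 ≤ (13 / 8 * (1 / 12)) ^ 2 := by
      rw [nsq]
      have h4 : ‖z0‖ ^ 2 ≤ (1 / 12) ^ 2 := pow_le_pow_left₀ (norm_nonneg _) h 2
      rw [nsq] at h4
      simp
      nlinarith [sq_nonneg z0.re]
    exact (abs_le_of_sq_le_sq' h3 (by norm_num)).2
  have := mul_le_mul_of_nonneg_right h1 (norm_nonneg u)
  have := mul_le_mul_of_nonneg_right h2 (norm_nonneg v)
  linarith

theorem sum_im_sq (w : ℂ) : ((starRingEnd ℂ) om * w).im ^ 2 + (om * w).im ^ 2 ≤ 3 / 2 * ‖w‖ ^ 2 := by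
  have h3 := s3sq
  rw [nsq]
  simp [om_re', om_im']
  nlinarith [sq_nonneg w.im, sq_nonneg w.re]

theorem sum_re_sq (w : ℂ) : ((starRingEnd ℂ) om * w).re ^ 2 + (om * w).re ^ 2 ≤ 3 / 2 * ‖w‖ ^ 2 := by
  have h3 := s3sq
  rw [nsq]
  simp [om_re', om_im']
  nlinarith [sq_nonneg w.im, sq_nonneg w.re]

/-- from the squares to the sum of absolute values -/
theorem abs_sum {a b p : ℝ} (h : a ^ 2 + b ^ 2 ≤ 3 / 2 * p ^ 2) (hp : 0 ≤ p) : |a| + |b| ≤ 17321 / 10000 * p := by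
  have h1 : (|a| + |b|) ^ 2 ≤ (17321 / 10000 * p) ^ 2 := by
    have e1 := sq_abs a
    have e2 := sq_abs b
    nlinarith [sq_nonneg (|a| - |b|), sq_nonneg p]
  exact (abs_le_of_sq_le_sq' h1 (by positivity)).2

theorem abs_prod {a b c d p q : ℝ} (h : a ^ 2 + b ^ 2 ≤ 3 / 2 * p ^ 2) (k : c ^ 2 + d ^ 2 ≤ 3 / 2 * q ^ 2) (hp : 0 ≤ p)
    (hq : 0 ≤ q) : |a| * |c| + |b| * |d| ≤ 3 / 2 * (p * q) := by
  have h1 : (|a| * |c| + |b| * |d|) ^ 2 ≤ (3 / 2 * (p * q)) ^ 2 := by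
    have e1 := sq_abs a
    have e2 := sq_abs b
    have e3 := sq_abs c
    have e4 := sq_abs d
    have h2 : (|a| * |c| + |b| * |d|) ^ 2 ≤ (a ^ 2 + b ^ 2) * (c ^ 2 + d ^ 2) := by
      rw [← e1, ← e2, ← e3, ← e4]
      nlinarith [sq_nonneg (|a| * |d| - |b| * |c|)]
    have h3 : (a ^ 2 + b ^ 2) * (c ^ 2 + d ^ 2) ≤ (3 / 2 * p ^ 2) * (3 / 2 * q ^ 2) :=
      mul_le_mul h k (by positivity) (by positivity)
    nlinarith
  exact (abs_le_of_sq_le_sq' h1 (by positivity)).2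

/-- error terms of one family: the part with the factor `|η|` and the rest -/
noncomputable def L1 (R y S X Y : ℝ) : ℝ :=
  24 / 143 * (R * (y + 19 / 5000 * S) + X * (Y + 7 / 80 * S))
  + 2 / 143 * (R * (Y + 7 / 80 * S) + X * (y + 19 / 5000 * S))
  + 1 / 2 * (24 / 143 * (1 + 328 / 10000) + 3934 / 10000 * (288 / 143)) * ((y + 19 / 5000 * S) ^ 2 + (Y + 7 / 80 * S) ^ 2)
  + (328 / 10000 * (288 / 143) + 3934 / 10000 * (24 / 143) + 2 / 143) * ((y + 19 / 5000 * S) * (Y + 7 / 80 * S))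
  + 2 * (R * (7 / 80 * S) + X * (19 / 5000 * S) + y * (7 / 80 * S) + 19 / 5000 * S * Y + 19 / 5000 * S * (7 / 80 * S))
noncomputable def L0 (R y S Y : ℝ) : ℝ :=
  328 / 10000 * ((y + 19 / 5000 * S) ^ 2 + (Y + 7 / 80 * S) ^ 2)
  + 2 * (274 / 100000) * ((y + 19 / 5000 * S) * (Y + 7 / 80 * S))
  + 2 * (R + y) * (19 / 5000 * S) + (19 / 5000 * S) ^ 2 + 2 * (25 / 64) * (19 / 5000 * S) * (Y + 7 / 80 * S)

theorem Nn_add (x Y δ : ℂ) : Nn x (Y + δ) = Nn x Y - 2 * (x.im - Y.im) * δ.im + δ.im ^ 2 := by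
  unfold Nn
  rw [Complex.add_im]
  ring

/-- one family -/
theorem one {e ρ Y σ X V qe qo : ℂ} {η η' αe αo ae ao R y S BX BY BI : ℝ} (he : ‖e‖ = 1) (co : CO η η' qe qo ae ao)
    (ha : |αe| ≤ 19 / 5000) (hb : |αo| ≤ 7 / 80) (hR : ‖ρ‖ ≤ R) (hy : ‖Y‖ ≤ y) (hS : ‖σ‖ ≤ S) (hX : ‖X‖ ≤ BX)
    (hV : ‖V‖ ≤ BY) (hI : |X.im| ≤ BI) (hη' : |η'| ≤ 25 / 64) :
    Nn (e * ρ) (e * Y + -Complex.I * αe * (e * σ)) + Nn X (V + -Complex.I * αo * (e * σ))
      + Dv qe qo ae ao (e * ρ) X (e * Y + -Complex.I * αe * (e * σ)) (V + -Complex.I * αo * (e * σ)) ≤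
    Nn (e * ρ) (e * Y) + Nn X V + 2 * η * (e * ρ * V + X * (e * Y) - e * Y * V).im
      + 2 * (|η'| * |(e * Y).im|) * (BY + 7 / 80 * S) + |η| * L1 R y S BX BY + L0 R y S BY
      + |(e * σ).re| * (2 * (BI + BY) * (7 / 80)) + (7 / 80) ^ 2 * (e * σ).re ^ 2 := by
  have R0 := (norm_nonneg _).trans hR
  have y0 := (norm_nonneg _).trans hy
  have S0 := (norm_nonneg _).trans hS
  have BX0 := (norm_nonneg _).trans hX
  have BY0 := (norm_nonneg _).trans hV
  have BI0 := (abs_nonneg _).trans hI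
  have nη := abs_nonneg η
  set δz : ℂ := -Complex.I * αe * (e * σ) with hδz
  set δb : ℂ := -Complex.I * αo * (e * σ) with hδb
  have hes : ‖e * σ‖ ≤ S := by rw [norm_mul, he, one_mul]; exact hS
  have nδz : ‖δz‖ ≤ 19 / 5000 * S := by
    rw [hδz, norm_mul, norm_mul, norm_neg, Complex.norm_I, one_mul, Complex.norm_real, Real.norm_eq_abs]
    exact mul_le_mul ha hes (norm_nonneg _) (by norm_num)
  have nδb : ‖δb‖ ≤ 7 / 80 * S := by
    rw [hδb, norm_mul, norm_mul, norm_neg, Complex.norm_I, one_mul, Complex.norm_real, Real.norm_eq_abs]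
    exact mul_le_mul hb hes (norm_nonneg _) (by norm_num)
  have iδb : δb.im = -(αo * (e * σ).re) := by
    rw [hδb]
    simp only [Complex.mul_im, Complex.mul_re, Complex.neg_re, Complex.neg_im, Complex.I_re, Complex.I_im,
      Complex.ofReal_re, Complex.ofReal_im]
    ring
  have n1 : ‖e * ρ‖ ≤ R := by rw [norm_mul, he, one_mul]; exact hR
  have n2 : ‖e * Y‖ ≤ y := by rw [norm_mul, he, one_mul]; exact hy
  have n3 : ‖e * Y + δz‖ ≤ y + 19 / 5000 * S := (norm_add_le _ _).trans (add_le_add n2 nδz)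
  have n4 : ‖V + δb‖ ≤ BY + 7 / 80 * S := (norm_add_le _ _).trans (add_le_add hV nδb)
  have hD := Dv_le co.hqe co.hqo co.hqr co.hae co.hao co.hda n1 hX n3 n4
  -- N corrections
  have c1 : Nn (e * ρ) (e * Y + δz) ≤ Nn (e * ρ) (e * Y) + 2 * (R + y) * (19 / 5000 * S) + (19 / 5000 * S) ^ 2 := by
    rw [Nn_add]
    have i1 := (Complex.abs_im_le_norm (e * ρ)).trans n1
    have i2 := (Complex.abs_im_le_norm (e * Y)).trans n2
    have i3 := (Complex.abs_im_le_norm δz).trans nδz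
    have i4 : |((e * ρ).im - (e * Y).im) * δz.im| ≤ (R + y) * (19 / 5000 * S) := by
      rw [abs_mul]
      exact mul_le_mul ((abs_sub _ _).trans (add_le_add i1 i2)) i3 (abs_nonneg _) (by positivity)
    have i5 : δz.im ^ 2 ≤ (19 / 5000 * S) ^ 2 := by
      rw [← sq_abs]; exact pow_le_pow_left₀ (abs_nonneg _) i3 2
    have i6 := (abs_le.1 i4).1
    linarith
  have c2 : Nn X (V + δb) ≤ Nn X V + |(e * σ).re| * (2 * (BI + BY) * (7 / 80)) + (7 / 80) ^ 2 * (e * σ).re ^ 2 := by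
    rw [Nn_add]
    have i2 := (Complex.abs_im_le_norm V).trans hV
    have i3 : |δb.im| ≤ 7 / 80 * |(e * σ).re| := by
      rw [iδb, abs_neg, abs_mul]
      exact mul_le_mul_of_nonneg_right hb (abs_nonneg _)
    have i4 : |(X.im - V.im) * δb.im| ≤ (BI + BY) * (7 / 80 * |(e * σ).re|) := by
      rw [abs_mul]
      exact mul_le_mul ((abs_sub _ _).trans (add_le_add hI i2)) i3 (abs_nonneg _) (by positivity)
    have i5 : δb.im ^ 2 ≤ (7 / 80) ^ 2 * (e * σ).re ^ 2 := by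
      rw [← sq_abs, ← sq_abs (e * σ).re, ← mul_pow]
      exact pow_le_pow_left₀ (abs_nonneg _) i3 2
    have i6 := (abs_le.1 i4).1
    linarith
  -- first order parts
  have d1 : 2 * η * (e * ρ * (V + δb) + X * (e * Y + δz) - (e * Y + δz) * (V + δb)).im ≤
      2 * η * (e * ρ * V + X * (e * Y) - e * Y * V).im + |η| * (2 * (R * (7 / 80 * S) + BX * (19 / 5000 * S)
        + y * (7 / 80 * S) + 19 / 5000 * S * BY + 19 / 5000 * S * (7 / 80 * S))) := by
    have e1 : e * ρ * (V + δb) + X * (e * Y + δz) - (e * Y + δz) * (V + δb) =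
        (e * ρ * V + X * (e * Y) - e * Y * V) + (e * ρ * δb + X * δz - e * Y * δb - δz * V - δz * δb) := by ring
    rw [e1, Complex.add_im, mul_add]
    have m2 : ∀ {u v : ℂ} {a b : ℝ}, ‖u‖ ≤ a → ‖v‖ ≤ b → ‖u * v‖ ≤ a * b := by
      intro u v a b hu hv
      rw [norm_mul]
      exact mul_le_mul hu hv (norm_nonneg _) ((norm_nonneg _).trans hu)
    have n5 : ‖e * ρ * δb + X * δz - e * Y * δb - δz * V - δz * δb‖ ≤ R * (7 / 80 * S) + BX * (19 / 5000 * S)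
        + y * (7 / 80 * S) + 19 / 5000 * S * BY + 19 / 5000 * S * (7 / 80 * S) :=
      (norm_sub_le _ _).trans (add_le_add ((norm_sub_le _ _).trans (add_le_add ((norm_sub_le _ _).trans
        (add_le_add ((norm_add_le _ _).trans (add_le_add (m2 n1 nδb) (m2 hX nδz))) (m2 n2 nδb)))
        (m2 nδz hV))) (m2 nδz nδb))
    have h5 : |η * (e * ρ * δb + X * δz - e * Y * δb - δz * V - δz * δb).im| ≤ |η| * (R * (7 / 80 * S)
        + BX * (19 / 5000 * S) + y * (7 / 80 * S) + 19 / 5000 * S * BY + 19 / 5000 * S * (7 / 80 * S)) := by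
      rw [abs_mul]
      exact mul_le_mul_of_nonneg_left ((Complex.abs_im_le_norm _).trans n5) nη
    have := (le_abs_self _).trans h5
    linarith
  have d2 : 2 * η' * (e * Y + δz).im * (V + δb).im ≤ 2 * (|η'| * |(e * Y).im|) * (BY + 7 / 80 * S)
      + 2 * (25 / 64) * (19 / 5000 * S) * (BY + 7 / 80 * S) := by
    rw [Complex.add_im]
    have i1 := (Complex.abs_im_le_norm δz).trans nδz
    have i2 := (Complex.abs_im_le_norm (V + δb)).trans n4
    have i3 : |η' * (e * Y).im * (V + δb).im| ≤ |η'| * |(e * Y).im| * (BY + 7 / 80 * S) := by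
      rw [abs_mul, abs_mul]
      exact mul_le_mul_of_nonneg_left i2 (by positivity)
    have i4 : |η' * δz.im * (V + δb).im| ≤ 25 / 64 * (19 / 5000 * S) * (BY + 7 / 80 * S) := by
      rw [abs_mul, abs_mul]
      exact mul_le_mul (mul_le_mul hη' i1 (abs_nonneg _) (by norm_num)) i2 (abs_nonneg _) (by positivity)
    have j3 := (le_abs_self _).trans i3
    have j4 := (le_abs_self _).trans i4
    have : 2 * η' * ((e * Y).im + δz.im) * (V + δb).im =
        2 * (η' * (e * Y).im * (V + δb).im) + 2 * (η' * δz.im * (V + δb).im) := by ring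
    rw [this]
    linarith
  unfold L1 L0
  nlinarith

end Pool.Agent.Helper73.SH
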