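import Pool.Agent.Helper73.SH.PtT2b

/-!
# Project RC, SHARP, zone I, (C2): `T2`, the two families, products and Young, radius `1/12`
-/

set_option autoImplicit false

open MeasureTheory Set Filter Topology

namespace Pool.Agent.Helper73.SH

open Helper49.LT hiding sg
open Helper49.RC Helper44.GQ
open Pool.Agent.Helper43.SH (om_re' om_im')

/-- all products -/
noncomputable def EE (R y S b2 b3 u v : ℝ) : ℝ :=
  1 / 6 * (R * (u + 13 / 8 * v) + y * (b2 + 13 / 8 * b3) + y * (u + 13 / 8 * v))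
  + 75 / 64 * y * (u + 7 / 4 * v + 7 / 80 * S)
  + 1444 / 10000 * L1 R y S (b2 + 7 / 4 * b3) (u + 7 / 4 * v) + 2 * L0 R y S (u + 7 / 4 * v)
  + 17321 / 10000 * S * (2 * (8661 / 10000 * b2 + 11 / 8 * b3 + (u + 7 / 4 * v)) * (7 / 80))
  + 3 / 2 * (7 / 80) ^ 2 * S ^ 2

theorem L1_nonneg {R y S X Y : ℝ} (hR : 0 ≤ R) (hy : 0 ≤ y) (hS : 0 ≤ S) (hX : 0 ≤ X) (hY : 0 ≤ Y) :
    0 ≤ L1 R y S X Y := by
  unfold L1
  positivity

theorem two {z0 z0' ρ Y σ u v qe1 qo1 qe2 qo2 : ℂ} {b2 b3 α1e α1o α2e α2o ae1 ao1 ae2 ao2 : ℝ}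
    (h0 : ‖z0‖ ≤ 1 / 12) (h1 : ‖z0'‖ ≤ 25 / 64)
    (co1 : CO ((starRingEnd ℂ) om * z0).im ((starRingEnd ℂ) om * z0').im qe1 qo1 ae1 ao1)
    (co2 : CO (om * z0).im (om * z0').im qe2 qo2 ae2 ao2)
    (a1 : |α1e| ≤ 19 / 5000) (a2 : |α1o| ≤ 7 / 80) (a3 : |α2e| ≤ 19 / 5000) (a4 : |α2o| ≤ 7 / 80) :
    (Nn ((starRingEnd ℂ) om * ρ) ((starRingEnd ℂ) om * Y + -Complex.I * α1e * ((starRingEnd ℂ) om * σ))
      + Nn (xb1 b2 b3) (xb1 u v + -Complex.I * α1o * ((starRingEnd ℂ) om * σ))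
      + Dv qe1 qo1 ae1 ao1 ((starRingEnd ℂ) om * ρ) (xb1 b2 b3)
        ((starRingEnd ℂ) om * Y + -Complex.I * α1e * ((starRingEnd ℂ) om * σ))
        (xb1 u v + -Complex.I * α1o * ((starRingEnd ℂ) om * σ)))
    + (Nn (om * ρ) (om * Y + -Complex.I * α2e * (om * σ)) + Nn (xb2 b2 b3) (xb2 u v + -Complex.I * α2o * (om * σ))
      + Dv qe2 qo2 ae2 ao2 (om * ρ) (xb2 b2 b3) (om * Y + -Complex.I * α2e * (om * σ))
        (xb2 u v + -Complex.I * α2o * (om * σ))) ≤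
    (Nn ((starRingEnd ℂ) om * ρ) ((starRingEnd ℂ) om * Y) + Nn (xb1 b2 b3) (xb1 u v)
      + Nn (om * ρ) (om * Y) + Nn (xb2 b2 b3) (xb2 u v)) + EE ‖ρ‖ ‖Y‖ ‖σ‖ |b2| |b3| ‖u‖ ‖v‖ := by
  set ec : ℂ := (starRingEnd ℂ) om with hec
  have n1 : ‖ec‖ = 1 := by rw [hec, Complex.norm_conj, om_n]
  have n2 : ‖om‖ = 1 := om_n
  have R0 := norm_nonneg ρ
  have y0 := norm_nonneg Y
  have S0 := norm_nonneg σ
  have u0 := norm_nonneg u
  have v0 := norm_nonneg v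
  have b20 := abs_nonneg b2
  have b30 := abs_nonneg b3
  have hb2 : ‖((b2 : ℝ) : ℂ)‖ = |b2| := by rw [Complex.norm_real, Real.norm_eq_abs]
  have hb3 : ‖((b3 : ℝ) : ℂ)‖ = |b3| := by rw [Complex.norm_real, Real.norm_eq_abs]
  have X1 := xb1_n b2 b3
  have X2 := xb2_n b2 b3
  rw [hb2, hb3] at X1 X2
  have i1 : |(ec * z0').im| ≤ 25 / 64 := by
    refine (Complex.abs_im_le_norm _).trans ?_
    rw [norm_mul, n1, one_mul]; exact h1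
  have i2 : |(om * z0').im| ≤ 25 / 64 := by
    refine (Complex.abs_im_le_norm _).trans ?_
    rw [norm_mul, n2, one_mul]; exact h1
  have o1 := one (ρ := ρ) (Y := Y) (σ := σ) n1 co1 a1 a2 le_rfl le_rfl le_rfl X1 (xb1_n u v) (xb1_im b2 b3) i1
  have o2 := one (ρ := ρ) (Y := Y) (σ := σ) n2 co2 a3 a4 le_rfl le_rfl le_rfl X2 (xb2_n u v) (xb2_im b2 b3) i2
  set η1 := (ec * z0).im with hη1
  set η2 := (om * z0).im with hη2
  -- first order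
  have f1 : 2 * η1 * (ec * ρ * xb1 u v + xb1 b2 b3 * (ec * Y) - ec * Y * xb1 u v).im
      + 2 * η2 * (om * ρ * xb2 u v + xb2 b2 b3 * (om * Y) - om * Y * xb2 u v).im ≤
      1 / 6 * (‖ρ‖ * (‖u‖ + 13 / 8 * ‖v‖) + ‖Y‖ * (|b2| + 13 / 8 * |b3|) + ‖Y‖ * (‖u‖ + 13 / 8 * ‖v‖)) := by
    have s1 := sum1_norm z0 u v h0
    have s2 := sum1_norm z0 b2 b3 h0
    rw [hb2, hb3] at s2
    rw [← hec, ← hη1, ← hη2] at s1 s2
    set A := (η1 : ℂ) * (ec * xb1 u v) + (η2 : ℂ) * (om * xb2 u v)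
    set C := (η1 : ℂ) * (ec * xb1 b2 b3) + (η2 : ℂ) * (om * xb2 b2 b3)
    have e : 2 * η1 * (ec * ρ * xb1 u v + xb1 b2 b3 * (ec * Y) - ec * Y * xb1 u v).im
        + 2 * η2 * (om * ρ * xb2 u v + xb2 b2 b3 * (om * Y) - om * Y * xb2 u v).im =
        2 * (ρ * A + Y * C - Y * A).im := by
      have e1 : ρ * A + Y * C - Y * A = (η1 : ℂ) * (ec * ρ * xb1 u v + xb1 b2 b3 * (ec * Y) - ec * Y * xb1 u v)
          + (η2 : ℂ) * (om * ρ * xb2 u v + xb2 b2 b3 * (om * Y) - om * Y * xb2 u v) := by ring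
      rw [e1, Complex.add_im, Complex.im_ofReal_mul, Complex.im_ofReal_mul]
      ring
    rw [e]
    have m : ‖ρ * A + Y * C - Y * A‖ ≤ ‖ρ‖ * (1 / 12 * (‖u‖ + 13 / 8 * ‖v‖)) + ‖Y‖ * (1 / 12 * (|b2| + 13 / 8 * |b3|))
        + ‖Y‖ * (1 / 12 * (‖u‖ + 13 / 8 * ‖v‖)) := by
      refine (norm_sub_le _ _).trans (add_le_add ((norm_add_le _ _).trans (add_le_add ?_ ?_)) ?_)
      · rw [norm_mul]; exact mul_le_mul_of_nonneg_left s1 R0
      · rw [norm_mul]; exact mul_le_mul_of_nonneg_left s2 y0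
      · rw [norm_mul]; exact mul_le_mul_of_nonneg_left s1 y0
    have := (Complex.im_le_norm (ρ * A + Y * C - Y * A)).trans m
    linarith
  -- the other sums
  have q1 : |(ec * z0').im| * |(ec * Y).im| + |(om * z0').im| * |(om * Y).im| ≤ 3 / 2 * (25 / 64 * ‖Y‖) := by
    have h2 : ‖z0'‖ ^ 2 ≤ (25 / 64) ^ 2 := pow_le_pow_left₀ (norm_nonneg _) h1 2
    have h3 := sum_im_sq z0'
    exact abs_prod (by linarith) (sum_im_sq Y) (by norm_num) y0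
  have q2 : |η1| + |η2| ≤ 1444 / 10000 := by
    have h2 : ‖z0‖ ^ 2 ≤ (1 / 12) ^ 2 := pow_le_pow_left₀ (norm_nonneg _) h0 2
    have h3 := sum_im_sq z0
    have := abs_sum (a := η1) (b := η2) (p := 1 / 12) (by linarith) (by norm_num)
    linarith
  have q3 : |(ec * σ).re| + |(om * σ).re| ≤ 17321 / 10000 * ‖σ‖ := abs_sum (sum_re_sq σ) S0
  have q4 := sum_re_sq σ
  have p1 := mul_le_mul_of_nonneg_right q1 (by positivity : 0 ≤ ‖u‖ + 7 / 4 * ‖v‖ + 7 / 80 * ‖σ‖)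
  have hL1 : 0 ≤ L1 ‖ρ‖ ‖Y‖ ‖σ‖ (|b2| + 7 / 4 * |b3|) (‖u‖ + 7 / 4 * ‖v‖) :=
    L1_nonneg R0 y0 S0 (by positivity) (by positivity)
  have p2 := mul_le_mul_of_nonneg_right q2 hL1
  have p3 := mul_le_mul_of_nonneg_right q3
    (by positivity : 0 ≤ 2 * (8661 / 10000 * |b2| + 11 / 8 * |b3| + (‖u‖ + 7 / 4 * ‖v‖)) * (7 / 80 : ℝ))
  unfold EE
  nlinarith

/-- Young's inequality with a numerical certificate -/
theorem yg {x y c s t : ℝ} (hs : 0 < s) (h : c ^ 2 ≤ 4 * s * t) : c * (x * y) ≤ s * x ^ 2 + t * y ^ 2 := by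
  have h1 : 0 ≤ (2 * s * x - c * y) ^ 2 := sq_nonneg _
  have h2 : 0 ≤ (4 * s * t - c ^ 2) * y ^ 2 := mul_nonneg (by linarith) (sq_nonneg _)
  have h3 : 4 * s * (c * (x * y)) ≤ 4 * s * (s * x ^ 2 + t * y ^ 2) := by nlinarith
  exact le_of_mul_le_mul_left h3 (by positivity)

/-- all cross terms paid -/
theorem EE_le {R y S b2 b3 u v : ℝ} (hR : 0 ≤ R) (hy : 0 ≤ y) (hS : 0 ≤ S) (h2 : 0 ≤ b2) (h3 : 0 ≤ b3) (hu : 0 ≤ u)
    (hv : 0 ≤ v) :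
    EE R y S b2 b3 u v ≤ 22 / 1000 * R ^ 2 + 15 / 8 * y ^ 2 + 17 / 8 * S ^ 2 + 24 / 100 * b2 ^ 2 + 47 / 100 * b3 ^ 2
      + 5 / 2 * u ^ 2 + 9 / 2 * v ^ 2 := by
  have k1 : 16870 / 100000 * (R * u) ≤ 8 / 1000 * R ^ 2 + 88942 / 100000 * u ^ 2 := yg (by norm_num) (by norm_num)
  have k2 : 27440 / 100000 * (R * v) ≤ 11 / 1000 * R ^ 2 + 171130 / 100000 * v ^ 2 := yg (by norm_num) (by norm_num)
  have k3 : 2424 / 100000 * (R * y) ≤ 2 / 1000 * R ^ 2 + 7345 / 100000 * y ^ 2 := yg (by norm_num) (by norm_num)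
  have k4 : 4080 / 100000 * (R * S) ≤ 1 / 1000 * R ^ 2 + 41620 / 100000 * S ^ 2 := yg (by norm_num) (by norm_num)
  have k5 : 14690 / 100000 * (y * S) ≤ 10 / 100 * y ^ 2 + 5400 / 100000 * S ^ 2 := yg (by norm_num) (by norm_num)
  have k6 : 16870 / 100000 * (b2 * y) ≤ 12 / 100 * b2 ^ 2 + 5930 / 100000 * y ^ 2 := yg (by norm_num) (by norm_num)
  have k7 : 27440 / 100000 * (b3 * y) ≤ 25 / 100 * b3 ^ 2 + 7530 / 100000 * y ^ 2 := yg (by norm_num) (by norm_num)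
  have k8 : 137070 / 100000 * (y * u) ≤ 45 / 100 * y ^ 2 + 104380 / 100000 * u ^ 2 := yg (by norm_num) (by norm_num)
  have k9 : 237790 / 100000 * (y * v) ≤ 98 / 100 * y ^ 2 + 144250 / 100000 * v ^ 2 := yg (by norm_num) (by norm_num)
  have k10 : 26580 / 100000 * (b2 * S) ≤ 4 / 100 * b2 ^ 2 + 44160 / 100000 * S ^ 2 := yg (by norm_num) (by norm_num)
  have k11 : 42250 / 100000 * (b3 * S) ≤ 10 / 100 * b3 ^ 2 + 44630 / 100000 * S ^ 2 := yg (by norm_num) (by norm_num)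
  have k12 : 33400 / 100000 * (u * S) ≤ 10 / 100 * u ^ 2 + 27890 / 100000 * S ^ 2 := yg (by norm_num) (by norm_num)
  have k13 : 58450 / 100000 * (v * S) ≤ 20 / 100 * v ^ 2 + 42710 / 100000 * S ^ 2 := yg (by norm_num) (by norm_num)
  have k14 : 2424 / 100000 * (b2 * u) ≤ 2 / 100 * b2 ^ 2 + 736 / 100000 * u ^ 2 := yg (by norm_num) (by norm_num)
  have k15 : 4242 / 100000 * (b2 * v) ≤ 2 / 100 * b2 ^ 2 + 2250 / 100000 * v ^ 2 := yg (by norm_num) (by norm_num)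
  have k16 : 4242 / 100000 * (b3 * u) ≤ 4 / 100 * b3 ^ 2 + 1125 / 100000 * u ^ 2 := yg (by norm_num) (by norm_num)
  have k17 : 7423 / 100000 * (b3 * v) ≤ 4 / 100 * b3 ^ 2 + 3445 / 100000 * v ^ 2 := yg (by norm_num) (by norm_num)
  have k18 : 47390 / 100000 * (u * v) ≤ 21 / 100 * u ^ 2 + 26740 / 100000 * v ^ 2 := yg (by norm_num) (by norm_num)
  have sS : 1 / 100 * S ^ 2 ≤ 1 / 100 * S ^ 2 := le_rfl
  unfold EE L1 L0
  nlinarith [mul_nonneg hR hu, mul_nonneg hR hv, mul_nonneg hR hy, mul_nonneg hR hS, mul_nonneg hy hS,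
    mul_nonneg h2 hy, mul_nonneg h3 hy, mul_nonneg hy hu, mul_nonneg hy hv, mul_nonneg h2 hS, mul_nonneg h3 hS,
    mul_nonneg hu hS, mul_nonneg hv hS, mul_nonneg h2 hu, mul_nonneg h2 hv, mul_nonneg h3 hu, mul_nonneg h3 hv,
    mul_nonneg hu hv, sq_nonneg S, sq_nonneg u, sq_nonneg v, sq_nonneg y, sq_nonneg b2, sq_nonneg b3, sq_nonneg R]

end Pool.Agent.Helper73.SH
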