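import Pool.Agent.Helper73.SH.PtT2c

/-!
# Project RC, SHARP, zone I, (C2): THE POINTWISE INEQUALITY `T2` (mean over `t`, `t + π`), radius `1/12`
-/

set_option autoImplicit false

open MeasureTheory Set Filter Topology

namespace Pool.Agent.Helper73.SH

open Helper49.LT hiding sg
open Helper49.RC Helper44.GQ
open Pool.Agent.Helper43.SH (om_re' om_im')

theorem log_sub {ζ : ℂ} (h0 : ‖ζ‖ ≤ 1 / 12) : ‖Complex.log (1 + ζ) - ζ‖ ≤ 19 / 5000 := by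
  have h1 := Complex.norm_log_one_add_sub_self_le (z := ζ) (by linarith)
  have hn := norm_nonneg ζ
  have h2 : (1 - ‖ζ‖)⁻¹ ≤ 12 / 11 := by
    rw [inv_le_comm₀ (by linarith) (by norm_num)]
    linarith
  have h3 : 0 ≤ (1 - ‖ζ‖)⁻¹ := inv_nonneg.2 (by linarith)
  have h4 : ‖ζ‖ ^ 2 ≤ (1 / 12) ^ 2 := pow_le_pow_left₀ hn h0 2
  have h5 : ‖ζ‖ ^ 2 * (1 - ‖ζ‖)⁻¹ ≤ (1 / 12) ^ 2 * (12 / 11) := mul_le_mul h4 h2 h3 (by norm_num)
  linarith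

theorem arg_e {ζ : ℂ} (h0 : ‖ζ‖ ≤ 1 / 12) : |((1 + ζ).arg + (1 - ζ).arg) / 2| ≤ 19 / 5000 := by
  have h1 := log_sub h0
  have h2 := log_sub (ζ := -ζ) (by rw [norm_neg]; exact h0)
  rw [← Complex.log_im, ← Complex.log_im]
  have e : ((Complex.log (1 + ζ)).im + (Complex.log (1 - ζ)).im) / 2 =
      ((Complex.log (1 + ζ) - ζ).im + (Complex.log (1 + -ζ) - -ζ).im) / 2 := by
    rw [← sub_eq_add_neg 1 ζ]
    simp only [Complex.sub_im, Complex.neg_im]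
    ring
  rw [e, abs_div, abs_of_pos (by norm_num : (0 : ℝ) < 2)]
  have h3 := (Complex.abs_im_le_norm (Complex.log (1 + ζ) - ζ)).trans h1
  have h4 := (Complex.abs_im_le_norm (Complex.log (1 + -ζ) - -ζ)).trans h2
  have h5 := abs_add_le (Complex.log (1 + ζ) - ζ).im (Complex.log (1 + -ζ) - -ζ).im
  linarith

theorem arg_o {ζ : ℂ} (h0 : ‖ζ‖ ≤ 1 / 12) : |((1 + ζ).arg - (1 - ζ).arg) / 2| ≤ 7 / 80 := by
  have h1 := log_sub h0
  have h2 := log_sub (ζ := -ζ) (by rw [norm_neg]; exact h0)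
  rw [← Complex.log_im, ← Complex.log_im]
  have e : ((Complex.log (1 + ζ)).im - (Complex.log (1 - ζ)).im) / 2 =
      ((Complex.log (1 + ζ) - ζ).im - (Complex.log (1 + -ζ) - -ζ).im) / 2 + ζ.im := by
    rw [← sub_eq_add_neg 1 ζ]
    simp only [Complex.sub_im, Complex.neg_im]
    ring
  rw [e]
  have h3 := (Complex.abs_im_le_norm (Complex.log (1 + ζ) - ζ)).trans h1
  have h4 := (Complex.abs_im_le_norm (Complex.log (1 + -ζ) - -ζ)).trans h2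
  have h5 := abs_sub (Complex.log (1 + ζ) - ζ).im (Complex.log (1 + -ζ) - -ζ).im
  have h6 := (Complex.abs_im_le_norm ζ).trans h0
  refine (abs_add_le _ _).trans ?_
  rw [abs_div, abs_of_pos (by norm_num : (0 : ℝ) < 2)]
  linarith

/-- one family: `T2` at `t` and at `t + π` -/
theorem pair_F {ζ ζ' : ℂ} (h0 : ‖ζ‖ ≤ 1 / 12) (X V ρe Ye σe : ℂ) :
    1 / 2 * (T2 ((starRingEnd ℂ) (1 + ζ) / (1 + ζ)) (1 + (ζ' / (1 + ζ)).im) (ρe + X)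
        (Ye + V + -Complex.I * ((1 + ζ).arg : ℂ) * σe)
      + T2 ((starRingEnd ℂ) (1 - ζ) / (1 - ζ)) (1 + (-ζ' / (1 - ζ)).im) (-ρe + X)
        (-Ye + V + -Complex.I * ((1 - ζ).arg : ℂ) * (-σe))) =
    Nn ρe (Ye + -Complex.I * ((((1 + ζ).arg + (1 - ζ).arg) / 2 : ℝ) : ℂ) * σe)
      + Nn X (V + -Complex.I * ((((1 + ζ).arg - (1 - ζ).arg) / 2 : ℝ) : ℂ) * σe)
      + Dv (qE ζ) (qO ζ) (aE ζ ζ') (aO ζ ζ') ρe X
        (Ye + -Complex.I * ((((1 + ζ).arg + (1 - ζ).arg) / 2 : ℝ) : ℂ) * σe)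
        (V + -Complex.I * ((((1 + ζ).arg - (1 - ζ).arg) / 2 : ℝ) : ℂ) * σe) := by
  rw [← pair, q_p h0, q_m h0, a_p h0, a_m h0]
  congr 3
  · push_cast; ring
  · push_cast; ring

/-- **THE POINTWISE INEQUALITY FOR `T2`** -/
theorem T2_pt {z0 z0' : ℂ} (h0 : ‖z0‖ ≤ 1 / 12) (h1 : ‖z0'‖ ≤ 25 / 64) (ρ Y σ u v : ℂ) (b2 b3 : ℝ) :
    1 / 2 * (T2 ((starRingEnd ℂ) (1 + (starRingEnd ℂ) om * z0) / (1 + (starRingEnd ℂ) om * z0))
        (1 + (((starRingEnd ℂ) om * z0') / (1 + (starRingEnd ℂ) om * z0)).im)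
        ((starRingEnd ℂ) om * ρ + xb1 b2 b3)
        ((starRingEnd ℂ) om * Y + xb1 u v + -Complex.I * ((1 + (starRingEnd ℂ) om * z0).arg : ℂ) * ((starRingEnd ℂ) om * σ))
      + T2 ((starRingEnd ℂ) (1 - (starRingEnd ℂ) om * z0) / (1 - (starRingEnd ℂ) om * z0))
        (1 + (-((starRingEnd ℂ) om * z0') / (1 - (starRingEnd ℂ) om * z0)).im)
        (-((starRingEnd ℂ) om * ρ) + xb1 b2 b3)
        (-((starRingEnd ℂ) om * Y) + xb1 u v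
          + -Complex.I * ((1 - (starRingEnd ℂ) om * z0).arg : ℂ) * (-((starRingEnd ℂ) om * σ))))
    + 1 / 2 * (T2 ((starRingEnd ℂ) (1 + om * z0) / (1 + om * z0)) (1 + ((om * z0') / (1 + om * z0)).im)
        (om * ρ + xb2 b2 b3) (om * Y + xb2 u v + -Complex.I * ((1 + om * z0).arg : ℂ) * (om * σ))
      + T2 ((starRingEnd ℂ) (1 - om * z0) / (1 - om * z0)) (1 + (-(om * z0') / (1 - om * z0)).im)
        (-(om * ρ) + xb2 b2 b3) (-(om * Y) + xb2 u v + -Complex.I * ((1 - om * z0).arg : ℂ) * (-(om * σ)))) ≤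
    (Nn ((starRingEnd ℂ) om * ρ) ((starRingEnd ℂ) om * Y) + Nn (xb1 b2 b3) (xb1 u v)
      + Nn (om * ρ) (om * Y) + Nn (xb2 b2 b3) (xb2 u v))
    + (22 / 1000 * ‖ρ‖ ^ 2 + 15 / 8 * ‖Y‖ ^ 2 + 17 / 8 * ‖σ‖ ^ 2 + 24 / 100 * b2 ^ 2 + 47 / 100 * b3 ^ 2
      + 5 / 2 * ‖u‖ ^ 2 + 9 / 2 * ‖v‖ ^ 2) := by
  have n1 : ‖(starRingEnd ℂ) om * z0‖ ≤ 1 / 12 := by
    rw [norm_mul, Complex.norm_conj, om_n, one_mul]; exact h0
  have n2 : ‖om * z0‖ ≤ 1 / 12 := by rw [norm_mul, om_n, one_mul]; exact h0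
  have m1 : ‖(starRingEnd ℂ) om * z0'‖ ≤ 25 / 64 := by
    rw [norm_mul, Complex.norm_conj, om_n, one_mul]; exact h1
  have m2 : ‖om * z0'‖ ≤ 25 / 64 := by rw [norm_mul, om_n, one_mul]; exact h1
  rw [pair_F n1, pair_F n2]
  have h2 := two (ρ := ρ) (Y := Y) (σ := σ) (u := u) (v := v) (b2 := b2) (b3 := b3) h0 h1 (co_of n1 m1) (co_of n2 m2)
    (arg_e n1) (arg_o n1) (arg_e n2) (arg_o n2)
  have h3 := EE_le (norm_nonneg ρ) (norm_nonneg Y) (norm_nonneg σ) (abs_nonneg b2) (abs_nonneg b3) (norm_nonneg u)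
    (norm_nonneg v)
  rw [sq_abs, sq_abs] at h3
  linarith

end Pool.Agent.Helper73.SH
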