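import Pool.Agent.Helper17.RC.TailD2
import Pool.Agent.Helper95.SH.Bes

/-!
# Project RC, SHARP: the integrated Bessel inequality for the rows of an exact alignment

For one family `F` and an alignment `φ` with slope `d`: `P := F - c d` (`c` the mean of `F`), `G` a primitive of `P`
(periodic), `U := Im (P e^{-iφ}) - d Re (G e^{-iφ})`. Then for every even `l ≥ 2`
`⟨eD F φ l⟩ = -i (l² - 1)/l ⟨U e^{-ilφ}⟩`, hence for two families `Σ |e_l|²/(l² - 1) ≤ Σ_j ⟨U_j²/φ_j'⟩`
(`eM_U`, `row_W`, `W_rows`, `W_rows_slope`, `W_tsum`); functions `R_j` without moments at these rows may be subtracted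
from `U_j` (`yk_comp`). `WF_prim`: the primitive always exists.
-/

open MeasureTheory Set Filter Topology

namespace Pool.Agent.Helper73.SH

open Helper49.LT hiding sg
open Helper87.RC (BM)
open Helper56.RC (fc)
open Pool.Agent.Helper20.RC (lk lk_ge lk_sq eD eM)
open Pool.Agent.Helper17.RC (yk WOK DensW bessel2 densW_slope)
open Helper95.SH (mo mo_BM eM_mo)

/-- integration by parts against a primitive of a bounded function, real case -/
theorem parts_real {f g g' : ℝ → ℝ} {C T : ℝ} (mf : Measurable f) (bf : ∀ t, |f t| ≤ C)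
    (hg : ∀ x, HasDerivAt g (g' x) x) (cg : Continuous g') :
    ∫ x in (0 : ℝ)..T, f x * g x =
      (∫ x in (0 : ℝ)..T, f x) * g T - ∫ x in (0 : ℝ)..T, (∫ s in (0 : ℝ)..x, f s) * g' x := by
  have hf : ∀ a b : ℝ, IntervalIntegrable f volume a b := fun a b =>
    Pool.Agent.Helper20.RC.intg_real mf bf a b
  have hac := (hf 0 T).absolutelyContinuousOnInterval_intervalIntegral (c := 0) (by simp)
  have hgi : ∀ a b : ℝ, IntervalIntegrable g' volume a b := fun a b => cg.intervalIntegrable a b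
  have hg2 : g = fun x => g 0 + ∫ s in (0 : ℝ)..x, g' s := by
    funext x
    rw [intervalIntegral.integral_eq_sub_of_hasDerivAt (fun y _ => hg y) (hgi 0 x)]
    ring
  have hacg : AbsolutelyContinuousOnInterval g 0 T := by
    have h1 := (hgi 0 T).absolutelyContinuousOnInterval_intervalIntegral (c := 0) (by simp)
    have h2 : AbsolutelyContinuousOnInterval (fun _ : ℝ => g 0) 0 T :=
      (LipschitzWith.const (g 0)).lipschitzOnWith.absolutelyContinuousOnInterval
    rw [hg2]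
    exact h2.add h1
  have key := hacg.integral_mul_deriv_eq_deriv_mul hac
  have e1 : ∫ x in (0 : ℝ)..T, g x * deriv (fun x => ∫ s in (0 : ℝ)..x, f s) x = ∫ x in (0 : ℝ)..T, f x * g x := by
    refine intervalIntegral.integral_congr_ae ?_
    filter_upwards [(hf 0 T).ae_hasDerivAt_integral] with x hx hx2
    rw [(hx (uIoc_subset_uIcc hx2) 0 (by simp)).deriv, mul_comm]
  have e2 : ∫ x in (0 : ℝ)..T, deriv g x * (∫ s in (0 : ℝ)..x, f s) =
      ∫ x in (0 : ℝ)..T, (∫ s in (0 : ℝ)..x, f s) * g' x := by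
    refine intervalIntegral.integral_congr fun x _ => ?_
    show deriv g x * _ = _
    rw [(hg x).deriv, mul_comm]
  rw [e1, e2] at key
  rw [key]
  simp only [intervalIntegral.integral_same, mul_zero, sub_zero]
  ring

/-- the primitive -/
noncomputable def prim (f : ℝ → ℂ) (x : ℝ) : ℂ := ∫ s in (0 : ℝ)..x, f s

theorem prim_cont {f : ℝ → ℂ} {C : ℝ} (h : BM f C) : Continuous (prim f) :=
  intervalIntegral.continuous_primitive (fun a b => h.i a b) 0

theorem prim_re {f : ℝ → ℂ} {C : ℝ} (h : BM f C) (x : ℝ) : (prim f x).re = ∫ s in (0 : ℝ)..x, (f s).re :=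
  (Complex.reCLM.intervalIntegral_comp_comm (h.i 0 x)).symm

theorem prim_im {f : ℝ → ℂ} {C : ℝ} (h : BM f C) (x : ℝ) : (prim f x).im = ∫ s in (0 : ℝ)..x, (f s).im :=
  (Complex.imCLM.intervalIntegral_comp_comm (h.i 0 x)).symm

theorem prim_conj (f : ℝ → ℂ) (x : ℝ) :
    prim (fun t => (starRingEnd ℂ) (f t)) x = (starRingEnd ℂ) (prim f x) := by
  unfold prim
  rw [intervalIntegral.intervalIntegral_eq_integral_uIoc, intervalIntegral.intervalIntegral_eq_integral_uIoc,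
    integral_conj]
  split_ifs <;> simp

/-- integration by parts against a primitive of a bounded function -/
theorem parts {f g g' : ℝ → ℂ} {C T : ℝ} (hf : BM f C) (hg : ∀ x, HasDerivAt g (g' x) x) (cg : Continuous g') :
    ∫ x in (0 : ℝ)..T, f x * g x = prim f T * g T - ∫ x in (0 : ℝ)..T, prim f x * g' x := by
  have c0 : Continuous g := continuous_iff_continuousAt.2 fun x => (hg x).continuousAt
  have cp := prim_cont hf
  have m1 : Measurable fun x => (f x).re := Complex.measurable_re.comp hf.m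
  have m2 : Measurable fun x => (f x).im := Complex.measurable_im.comp hf.m
  have b1 : ∀ t, |(f t).re| ≤ C := fun t => (Complex.abs_re_le_norm _).trans (hf.b t)
  have b2 : ∀ t, |(f t).im| ≤ C := fun t => (Complex.abs_im_le_norm _).trans (hf.b t)
  have gr : ∀ x, HasDerivAt (fun x => (g x).re) (g' x).re x := fun x =>
    Complex.reCLM.hasFDerivAt.comp_hasDerivAt x (hg x)
  have gi : ∀ x, HasDerivAt (fun x => (g x).im) (g' x).im x := fun x =>
    Complex.imCLM.hasFDerivAt.comp_hasDerivAt x (hg x)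
  have cr : Continuous fun x => (g' x).re := Complex.continuous_re.comp cg
  have ci : Continuous fun x => (g' x).im := Complex.continuous_im.comp cg
  have k1 := parts_real (T := T) m1 b1 gr cr
  have k2 := parts_real (T := T) m2 b2 gi ci
  have k3 := parts_real (T := T) m1 b1 gi ci
  have k4 := parts_real (T := T) m2 b2 gr cr
  have hfg : IntervalIntegrable (fun x => f x * g x) volume 0 T := (hf.i 0 T).mul_continuousOn c0.continuousOn
  have hpg : IntervalIntegrable (fun x => prim f x * g' x) volume 0 T := (cp.mul cg).intervalIntegrable _ _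
  have i1 : IntervalIntegrable (fun x => (f x).re * (g x).re) volume 0 T :=
    (Pool.Agent.Helper20.RC.intg_real m1 b1 0 T).mul_continuousOn (Complex.continuous_re.comp c0).continuousOn
  have i2 : IntervalIntegrable (fun x => (f x).im * (g x).im) volume 0 T :=
    (Pool.Agent.Helper20.RC.intg_real m2 b2 0 T).mul_continuousOn (Complex.continuous_im.comp c0).continuousOn
  have i3 : IntervalIntegrable (fun x => (f x).re * (g x).im) volume 0 T :=
    (Pool.Agent.Helper20.RC.intg_real m1 b1 0 T).mul_continuousOn (Complex.continuous_im.comp c0).continuousOn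
  have i4 : IntervalIntegrable (fun x => (f x).im * (g x).re) volume 0 T :=
    (Pool.Agent.Helper20.RC.intg_real m2 b2 0 T).mul_continuousOn (Complex.continuous_re.comp c0).continuousOn
  have pr : Continuous fun x => (prim f x).re := Complex.continuous_re.comp cp
  have pi : Continuous fun x => (prim f x).im := Complex.continuous_im.comp cp
  have j1 : IntervalIntegrable (fun x => (prim f x).re * (g' x).re) volume 0 T := (pr.mul cr).intervalIntegrable _ _
  have j2 : IntervalIntegrable (fun x => (prim f x).im * (g' x).im) volume 0 T := (pi.mul ci).intervalIntegrable _ _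
  have j3 : IntervalIntegrable (fun x => (prim f x).re * (g' x).im) volume 0 T := (pr.mul ci).intervalIntegrable _ _
  have j4 : IntervalIntegrable (fun x => (prim f x).im * (g' x).re) volume 0 T := (pi.mul cr).intervalIntegrable _ _
  simp only [← prim_re hf, ← prim_im hf] at k1 k2 k3 k4
  apply Complex.ext
  · have e1 : (∫ x in (0 : ℝ)..T, f x * g x).re = ∫ x in (0 : ℝ)..T, ((f x).re * (g x).re - (f x).im * (g x).im) := by
      rw [← Complex.reCLM_apply, ← Complex.reCLM.intervalIntegral_comp_comm hfg]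
      refine intervalIntegral.integral_congr fun x _ => ?_
      simp [Complex.mul_re]
    have e2 : (∫ x in (0 : ℝ)..T, prim f x * g' x).re =
        ∫ x in (0 : ℝ)..T, ((prim f x).re * (g' x).re - (prim f x).im * (g' x).im) := by
      rw [← Complex.reCLM_apply, ← Complex.reCLM.intervalIntegral_comp_comm hpg]
      refine intervalIntegral.integral_congr fun x _ => ?_
      simp [Complex.mul_re]
    rw [Complex.sub_re, Complex.mul_re, e1, e2, intervalIntegral.integral_sub i1 i2,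
      intervalIntegral.integral_sub j1 j2, k1, k2]
    ring
  · have e1 : (∫ x in (0 : ℝ)..T, f x * g x).im = ∫ x in (0 : ℝ)..T, ((f x).re * (g x).im + (f x).im * (g x).re) := by
      rw [← Complex.imCLM_apply, ← Complex.imCLM.intervalIntegral_comp_comm hfg]
      refine intervalIntegral.integral_congr fun x _ => ?_
      simp [Complex.mul_im]
    have e2 : (∫ x in (0 : ℝ)..T, prim f x * g' x).im =
        ∫ x in (0 : ℝ)..T, ((prim f x).re * (g' x).im + (prim f x).im * (g' x).re) := by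
      rw [← Complex.imCLM_apply, ← Complex.imCLM.intervalIntegral_comp_comm hpg]
      refine intervalIntegral.integral_congr fun x _ => ?_
      simp [Complex.mul_im]
    rw [Complex.sub_im, Complex.mul_im, e1, e2, intervalIntegral.integral_add i3 i4,
      intervalIntegral.integral_add j3 j4, k3, k4]
    ring

/-- one family `F` along an alignment `φ` with slope `d`; `G` is a periodic primitive of `F - c d` -/
structure WF (F G : ℝ → ℂ) (φ d : ℝ → ℝ) (c : ℂ) (C b B : ℝ) : Prop where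
  hF : BM F C
  hd : ∀ x, HasDerivAt φ (d x) x
  cd : Continuous d
  bd : ∀ x, |d x| ≤ b
  per : φ (2 * Real.pi) = φ 0 + 2 * Real.pi
  hG : ∀ x, G x = G 0 + ∫ s in (0 : ℝ)..x, (F s - c * (d s : ℂ))
  gper : G (2 * Real.pi) = G 0
  bG : ∀ x, ‖G x‖ ≤ B

/-- the function `U = Im ((F - c d) e^{-iφ}) - d Re (G e^{-iφ})` -/
noncomputable def WU (F G : ℝ → ℂ) (φ d : ℝ → ℝ) (c : ℂ) (θ : ℝ) : ℝ :=
  ((F θ - c * (d θ : ℂ)) * ee (-φ θ)).im - d θ * (G θ * ee (-φ θ)).re

section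

variable {F G : ℝ → ℂ} {φ d : ℝ → ℝ} {c : ℂ} {C b B : ℝ}

theorem hasDerivAt_ee {φ d : ℝ → ℝ} (m : ℝ) {x : ℝ} (h : HasDerivAt φ (d x) x) :
    HasDerivAt (fun θ => ee (-(m * φ θ))) (-(Complex.I * (m : ℂ)) * ((d x : ℂ) * ee (-(m * φ x)))) x := by
  unfold ee
  have h1 : HasDerivAt (fun θ : ℝ => (((-(m * φ θ) : ℝ) : ℂ)) * Complex.I)
      (((-(m * d x) : ℝ) : ℂ) * Complex.I) x :=
    ((h.const_mul m).neg.ofReal_comp).mul_const _
  have h2 := h1.cexp
  convert h2 using 1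
  push_cast
  ring

theorem WF.cphi (h : WF F G φ d c C b B) : Continuous φ :=
  continuous_iff_continuousAt.2 fun x => (h.hd x).continuousAt

theorem WF.bmd (h : WF F G φ d c C b B) : BM (fun θ => (d θ : ℂ)) b :=
  ⟨(Complex.continuous_ofReal.comp h.cd).measurable, fun t => by
    rw [Complex.norm_real, Real.norm_eq_abs]; exact h.bd t⟩

theorem WF.bmP (h : WF F G φ d c C b B) : BM (fun θ => F θ - c * (d θ : ℂ)) (C + ‖c‖ * b) :=
  ⟨h.hF.m.sub (h.bmd.m.const_mul c), fun t => by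
    refine (norm_sub_le _ _).trans (add_le_add (h.hF.b t) ?_)
    rw [norm_mul]
    exact mul_le_mul_of_nonneg_left (h.bmd.b t) (norm_nonneg _)⟩

theorem WF.primP (h : WF F G φ d c C b B) (x : ℝ) : prim (fun θ => F θ - c * (d θ : ℂ)) x = G x - G 0 := by
  rw [h.hG x]
  unfold prim
  ring

theorem WF.cG (h : WF F G φ d c C b B) : Continuous G := by
  have e : G = fun x => G 0 + prim (fun θ => F θ - c * (d θ : ℂ)) x := by
    funext x; rw [h.primP]; ring
  rw [e]
  exact continuous_const.add (prim_cont h.bmP)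

theorem WF.conj (h : WF F G φ d c C b B) :
    WF (fun t => (starRingEnd ℂ) (F t)) (fun t => (starRingEnd ℂ) (G t)) φ d ((starRingEnd ℂ) c) C b B := by
  refine ⟨h.hF.conj, h.hd, h.cd, h.bd, h.per, fun x => ?_, by rw [h.gper], fun x => by
    rw [RCLike.norm_conj]; exact h.bG x⟩
  have e := prim_conj (fun θ => F θ - c * (d θ : ℂ)) x
  rw [h.primP, map_sub] at e
  have e2 : prim (fun t => (starRingEnd ℂ) (F t - c * (d t : ℂ))) x =
      ∫ s in (0 : ℝ)..x, ((starRingEnd ℂ) (F s) - (starRingEnd ℂ) c * (d s : ℂ)) := by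
    unfold prim
    refine intervalIntegral.integral_congr fun t _ => ?_
    show (starRingEnd ℂ) (F t - c * (d t : ℂ)) = _
    rw [map_sub, map_mul, Complex.conj_ofReal]
  rw [← e2, e]
  ring

theorem ee_per_phi {φ : ℝ → ℝ} (hp : φ (2 * Real.pi) = φ 0 + 2 * Real.pi) (n : ℤ) :
    ee (-((n : ℝ) * φ (2 * Real.pi))) = ee (-((n : ℝ) * φ 0)) := by
  rw [ee_neg, ee_neg, hp, ee_int]

/-- the moments of the slope vanish -/
theorem WF.int_d (h : WF F G φ d c C b B) {n : ℤ} (hn : n ≠ 0) :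
    ∫ θ in (0 : ℝ)..(2 * Real.pi), (d θ : ℂ) * ee (-((n : ℝ) * φ θ)) = 0 := by
  have hc : Continuous fun θ => (d θ : ℂ) * ee (-((n : ℝ) * φ θ)) :=
    (Complex.continuous_ofReal.comp h.cd).mul (continuous_ee.comp (continuous_const.mul h.cphi).neg)
  have h1 := intervalIntegral.integral_eq_sub_of_hasDerivAt (a := 0) (b := 2 * Real.pi)
    (fun x _ => hasDerivAt_ee (n : ℝ) (h.hd x)) ((continuous_const.mul hc).intervalIntegrable _ _)
  rw [ee_per_phi h.per n, sub_self, intervalIntegral.integral_const_mul] at h1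
  have h2 : -(Complex.I * ((n : ℝ) : ℂ)) ≠ 0 := by
    rw [neg_ne_zero]
    refine mul_ne_zero Complex.I_ne_zero ?_
    exact_mod_cast hn
  exact (mul_eq_zero.1 h1).resolve_left h2

/-- the moments of `F - c d` against those of `d G` -/
theorem WF.int_P (h : WF F G φ d c C b B) {n : ℤ} (hn : n ≠ 0) :
    ∫ θ in (0 : ℝ)..(2 * Real.pi), (F θ - c * (d θ : ℂ)) * ee (-((n : ℝ) * φ θ)) =
      Complex.I * ((n : ℝ) : ℂ) * ∫ θ in (0 : ℝ)..(2 * Real.pi), ((d θ : ℂ) * G θ) * ee (-((n : ℝ) * φ θ)) := by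
  have hE : Continuous fun θ => ee (-((n : ℝ) * φ θ)) := continuous_ee.comp (continuous_const.mul h.cphi).neg
  have hc : Continuous fun θ => (d θ : ℂ) * ee (-((n : ℝ) * φ θ)) :=
    (Complex.continuous_ofReal.comp h.cd).mul hE
  rw [parts h.bmP (fun x => hasDerivAt_ee (n : ℝ) (h.hd x)) (continuous_const.mul hc), h.primP, h.gper, sub_self,
    zero_mul, zero_sub]
  have e : ∀ x, prim (fun θ => F θ - c * (d θ : ℂ)) x * (-(Complex.I * ((n : ℝ) : ℂ)) * ((d x : ℂ) *
      ee (-((n : ℝ) * φ x)))) = -(Complex.I * ((n : ℝ) : ℂ)) * (((d x : ℂ) * G x) * ee (-((n : ℝ) * φ x))) +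
      (Complex.I * ((n : ℝ) : ℂ)) * G 0 * ((d x : ℂ) * ee (-((n : ℝ) * φ x))) := by
    intro x
    rw [h.primP]
    ring
  simp_rw [e]
  rw [intervalIntegral.integral_add, intervalIntegral.integral_const_mul, intervalIntegral.integral_const_mul,
    h.int_d hn]
  · ring
  · exact (continuous_const.mul (((Complex.continuous_ofReal.comp h.cd).mul h.cG).mul hE)).intervalIntegrable _ _
  · exact (continuous_const.mul hc).intervalIntegrable _ _

/-- one family: the integral of the aligned density is a moment of `U` -/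
theorem WF.int_eD (h : WF F G φ d c C b B) (k : ℕ) :
    ∫ θ in (0 : ℝ)..(2 * Real.pi), eD F φ (lk k) θ =
      -Complex.I * (((lk k ^ 2 - 1) / lk k : ℝ) : ℂ) *
        ∫ θ in (0 : ℝ)..(2 * Real.pi), (WU F G φ d c θ : ℂ) * ee (-(lk k * φ θ)) := by
  have hl := lk_ge k
  have e3 : ((2 * (k : ℤ) + 3 : ℤ) : ℝ) = lk k + 1 := by unfold lk; push_cast; ring
  have e4 : ((2 * (k : ℤ) + 1 : ℤ) : ℝ) = lk k - 1 := by unfold lk; push_cast; ring
  have a1 := h.int_P (n := 2 * (k : ℤ) + 3) (by omega)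
  have a2 := h.conj.int_P (n := 2 * (k : ℤ) + 1) (by omega)
  have z1 := h.int_d (n := 2 * (k : ℤ) + 3) (by omega)
  have z2 := h.int_d (n := 2 * (k : ℤ) + 1) (by omega)
  rw [e3] at a1 z1
  rw [e4] at a2 z2
  set l := lk k with hldef
  have hE : ∀ m : ℝ, Continuous fun θ => ee (-(m * φ θ)) := fun m =>
    continuous_ee.comp (continuous_const.mul h.cphi).neg
  have cdc : Continuous fun θ => (d θ : ℂ) := Complex.continuous_ofReal.comp h.cd
  have iP : IntervalIntegrable (fun θ => (F θ - c * (d θ : ℂ)) * ee (-((l + 1) * φ θ))) volume 0 (2 * Real.pi) :=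
    (h.bmP.i 0 (2 * Real.pi)).mul_continuousOn (hE _).continuousOn
  have iQ : IntervalIntegrable (fun θ => ((starRingEnd ℂ) (F θ) - (starRingEnd ℂ) c * (d θ : ℂ)) *
      ee (-((l - 1) * φ θ))) volume 0 (2 * Real.pi) :=
    (h.conj.bmP.i 0 (2 * Real.pi)).mul_continuousOn (hE _).continuousOn
  have i1 : IntervalIntegrable (fun θ => (d θ : ℂ) * ee (-((l + 1) * φ θ))) volume 0 (2 * Real.pi) :=
    (cdc.mul (hE _)).intervalIntegrable _ _
  have i2 : IntervalIntegrable (fun θ => (d θ : ℂ) * ee (-((l - 1) * φ θ))) volume 0 (2 * Real.pi) :=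
    (cdc.mul (hE _)).intervalIntegrable _ _
  have j1 : IntervalIntegrable (fun θ => ((d θ : ℂ) * G θ) * ee (-((l + 1) * φ θ))) volume 0 (2 * Real.pi) :=
    ((cdc.mul h.cG).mul (hE _)).intervalIntegrable _ _
  have j2 : IntervalIntegrable (fun θ => ((d θ : ℂ) * (starRingEnd ℂ) (G θ)) * ee (-((l - 1) * φ θ))) volume 0
      (2 * Real.pi) := ((cdc.mul h.conj.cG).mul (hE _)).intervalIntegrable _ _
  -- the two pointwise identities
  have q1 : ∀ θ, ee (-φ θ) * ee (-(l * φ θ)) = ee (-((l + 1) * φ θ)) := fun θ => by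
    rw [← ee_add]; congr 1; ring
  have q2 : ∀ θ, (starRingEnd ℂ) (ee (-φ θ)) * ee (-(l * φ θ)) = ee (-((l - 1) * φ θ)) := fun θ => by
    rw [← ee_neg, ← ee_add]; congr 1; ring
  have key : ∀ θ, eD F φ l θ =
      ((1 - l) / 2 : ℂ) * ((F θ - c * (d θ : ℂ)) * ee (-((l + 1) * φ θ))) +
        ((1 + l) / 2 : ℂ) * (((starRingEnd ℂ) (F θ) - (starRingEnd ℂ) c * (d θ : ℂ)) * ee (-((l - 1) * φ θ))) +
      (((1 - l) / 2 : ℂ) * c * ((d θ : ℂ) * ee (-((l + 1) * φ θ))) +
        ((1 + l) / 2 : ℂ) * (starRingEnd ℂ) c * ((d θ : ℂ) * ee (-((l - 1) * φ θ)))) := by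
    intro θ
    unfold eD
    set x : ℂ := F θ * ee (-φ θ) with hx
    have hre : (x.re : ℂ) = (x + (starRingEnd ℂ) x) / 2 := by
      rw [Complex.add_conj]; push_cast; ring
    have him : Complex.I * (l : ℂ) * (x.im : ℂ) = (l : ℂ) * (x - (starRingEnd ℂ) x) / 2 := by
      rw [Complex.sub_conj]; push_cast; ring
    rw [hre, him]
    have w1 : x * ee (-(l * φ θ)) = F θ * ee (-((l + 1) * φ θ)) := by
      rw [hx, mul_assoc, q1]
    have w2 : (starRingEnd ℂ) x * ee (-(l * φ θ)) = (starRingEnd ℂ) (F θ) * ee (-((l - 1) * φ θ)) := by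
      rw [hx, map_mul, mul_assoc, q2]
    linear_combination ((1 - l) / 2 : ℂ) * w1 + ((1 + l) / 2 : ℂ) * w2
  have key2 : ∀ θ, (WU F G φ d c θ : ℂ) * ee (-(l * φ θ)) =
      (-Complex.I / 2) * ((F θ - c * (d θ : ℂ)) * ee (-((l + 1) * φ θ))) +
        (Complex.I / 2) * (((starRingEnd ℂ) (F θ) - (starRingEnd ℂ) c * (d θ : ℂ)) * ee (-((l - 1) * φ θ))) -
      ((1 / 2 : ℂ) * (((d θ : ℂ) * G θ) * ee (-((l + 1) * φ θ))) +
        (1 / 2 : ℂ) * (((d θ : ℂ) * (starRingEnd ℂ) (G θ)) * ee (-((l - 1) * φ θ)))) := by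
    intro θ
    unfold WU
    set x : ℂ := (F θ - c * (d θ : ℂ)) * ee (-φ θ) with hx
    set y : ℂ := G θ * ee (-φ θ) with hy
    have him : (x.im : ℂ) = (-Complex.I / 2) * (x - (starRingEnd ℂ) x) := by
      rw [Complex.sub_conj]
      push_cast
      linear_combination (x.im : ℂ) * Complex.I_mul_I
    have hre : (y.re : ℂ) = (y + (starRingEnd ℂ) y) / 2 := by
      rw [Complex.add_conj]; push_cast; ring
    have w1 : x * ee (-(l * φ θ)) = (F θ - c * (d θ : ℂ)) * ee (-((l + 1) * φ θ)) := by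
      rw [hx, mul_assoc, q1]
    have w2 : (starRingEnd ℂ) x * ee (-(l * φ θ)) =
        ((starRingEnd ℂ) (F θ) - (starRingEnd ℂ) c * (d θ : ℂ)) * ee (-((l - 1) * φ θ)) := by
      rw [hx, map_mul, mul_assoc, q2, map_sub, map_mul, Complex.conj_ofReal]
    have w3 : y * ee (-(l * φ θ)) = G θ * ee (-((l + 1) * φ θ)) := by
      rw [hy, mul_assoc, q1]
    have w4 : (starRingEnd ℂ) y * ee (-(l * φ θ)) = (starRingEnd ℂ) (G θ) * ee (-((l - 1) * φ θ)) := by
      rw [hy, map_mul, mul_assoc, q2]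
    push_cast
    rw [him, hre]
    linear_combination (-Complex.I / 2) * w1 + (Complex.I / 2) * w2 - (d θ : ℂ) / 2 * w3 - (d θ : ℂ) / 2 * w4
  simp_rw [key, key2]
  rw [intervalIntegral.integral_add ((iP.const_mul _).add (iQ.const_mul _)) ((i1.const_mul _).add (i2.const_mul _)),
    intervalIntegral.integral_add (iP.const_mul _) (iQ.const_mul _),
    intervalIntegral.integral_add (i1.const_mul _) (i2.const_mul _),
    intervalIntegral.integral_sub ((iP.const_mul _).add (iQ.const_mul _)) ((j1.const_mul _).add (j2.const_mul _)),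
    intervalIntegral.integral_add (iP.const_mul _) (iQ.const_mul _),
    intervalIntegral.integral_add (j1.const_mul _) (j2.const_mul _)]
  simp only [intervalIntegral.integral_const_mul]
  rw [z1, z2, a1, a2]
  have hl0 : (l : ℂ) ≠ 0 := by
    have : (l : ℝ) ≠ 0 := by linarith
    exact_mod_cast this
  push_cast
  set J1 := ∫ θ in (0 : ℝ)..(2 * Real.pi), ((d θ : ℂ) * G θ) * ee (-((l + 1) * φ θ))
  set J2 := ∫ θ in (0 : ℝ)..(2 * Real.pi), ((d θ : ℂ) * (starRingEnd ℂ) (G θ)) * ee (-((l - 1) * φ θ))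
  have hI := Complex.I_mul_I
  field_simp
  linear_combination (Complex.I * ((l : ℂ) ^ 2 - 1) * (-(((l : ℂ) + 1) * J1) + ((l : ℂ) - 1) * J2)) * hI

theorem WU_bd (h : WF F G φ d c C b B) (t : ℝ) : |WU F G φ d c t| ≤ C + ‖c‖ * b + b * B := by
  unfold WU
  refine (abs_sub _ _).trans (add_le_add ?_ ?_)
  · refine (Complex.abs_im_le_norm _).trans ?_
    rw [norm_mul, norm_ee, mul_one]
    exact h.bmP.b t
  · rw [abs_mul]
    refine mul_le_mul (h.bd t) ?_ (abs_nonneg _) ((abs_nonneg _).trans (h.bd 0))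
    refine (Complex.abs_re_le_norm _).trans ?_
    rw [norm_mul, norm_ee, mul_one]
    exact h.bG t

theorem WU_meas (h : WF F G φ d c C b B) : Measurable (WU F G φ d c) := by
  have hE : Continuous fun θ => ee (-φ θ) := continuous_ee.comp h.cphi.neg
  unfold WU
  exact (Complex.measurable_im.comp (h.bmP.m.mul hE.measurable)).sub
    (h.cd.measurable.mul (Complex.measurable_re.comp (h.cG.measurable.mul hE.measurable)))

end

/-- the primitive of `F - c d`, `c` the mean of `F`, satisfies all conditions -/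
theorem WF_prim {F : ℝ → ℂ} {φ d : ℝ → ℝ} {C b : ℝ} (hF : BM F C) (pF : ∀ x, F (x + 2 * Real.pi) = F x)
    (hd : ∀ x, HasDerivAt φ (d x) x) (cd : Continuous d) (bd : ∀ x, |d x| ≤ b)
    (per : ∀ x, φ (x + 2 * Real.pi) = φ x + 2 * Real.pi) (g0 : ℂ) :
    ∃ B, WF F (fun x => g0 + prim (fun θ => F θ - fc F 0 * (d θ : ℂ)) x) φ d (fc F 0) C b B := by
  have hpi := Real.pi_pos
  have pd : ∀ x, d (x + 2 * Real.pi) = d x := by
    intro x
    have e1 : HasDerivAt (fun y => φ (y + 2 * Real.pi)) (d (x + 2 * Real.pi)) x :=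
      (hd (x + 2 * Real.pi)).comp_add_const x (2 * Real.pi)
    have e2 : HasDerivAt (fun y => φ (y + 2 * Real.pi)) (d x) x := by
      have : (fun y => φ (y + 2 * Real.pi)) = fun y => φ y + 2 * Real.pi := funext per
      rw [this]
      exact (hd x).add_const _
    exact e1.unique e2
  have bmd : BM (fun θ => (d θ : ℂ)) b :=
    ⟨(Complex.continuous_ofReal.comp cd).measurable, fun t => by
      rw [Complex.norm_real, Real.norm_eq_abs]; exact bd t⟩
  have bmP : BM (fun θ => F θ - fc F 0 * (d θ : ℂ)) (C + ‖fc F 0‖ * b) :=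
    ⟨hF.m.sub (bmd.m.const_mul _), fun t => by
      refine (norm_sub_le _ _).trans (add_le_add (hF.b t) ?_)
      rw [norm_mul]
      exact mul_le_mul_of_nonneg_left (bmd.b t) (norm_nonneg _)⟩
  have hper : φ (2 * Real.pi) = φ 0 + 2 * Real.pi := by have := per 0; rwa [zero_add] at this
  have idd : ∫ θ in (0 : ℝ)..(2 * Real.pi), (d θ : ℂ) = 2 * Real.pi := by
    rw [intervalIntegral.integral_ofReal, intervalIntegral.integral_eq_sub_of_hasDerivAt (fun x _ => hd x)
      (cd.intervalIntegrable _ _), hper]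
    push_cast
    ring
  have iF : ∫ θ in (0 : ℝ)..(2 * Real.pi), F θ = 2 * Real.pi * fc F 0 := by
    unfold fc
    simp only [Int.cast_zero, zero_mul, neg_zero, ee_zero, mul_one]
    have : (Real.pi : ℂ) ≠ 0 := by exact_mod_cast hpi.ne'
    field_simp
  have h0 : prim (fun θ => F θ - fc F 0 * (d θ : ℂ)) (2 * Real.pi) = 0 := by
    unfold prim
    rw [intervalIntegral.integral_sub (hF.i _ _) ((bmd.i _ _).const_mul _), intervalIntegral.integral_const_mul,
      idd, iF]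
    ring
  have hcont := prim_cont bmP
  have hperP : Function.Periodic (fun θ => F θ - fc F 0 * (d θ : ℂ)) (2 * Real.pi) := fun x => by
    show F (x + 2 * Real.pi) - fc F 0 * (d (x + 2 * Real.pi) : ℂ) = _
    rw [pF, pd]
  have hperp : ∀ x, prim (fun θ => F θ - fc F 0 * (d θ : ℂ)) (x + 2 * Real.pi) =
      prim (fun θ => F θ - fc F 0 * (d θ : ℂ)) x := by
    intro x
    have e1 : prim (fun θ => F θ - fc F 0 * (d θ : ℂ)) (x + 2 * Real.pi) =
        prim (fun θ => F θ - fc F 0 * (d θ : ℂ)) x +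
          ∫ s in x..(x + 2 * Real.pi), (F s - fc F 0 * (d s : ℂ)) := by
      unfold prim
      rw [intervalIntegral.integral_add_adjacent_intervals (bmP.i _ _) (bmP.i _ _)]
    have e2 := hperP.intervalIntegral_add_eq x 0
    rw [zero_add] at e2
    rw [e1, e2]
    have : ∫ s in (0 : ℝ)..(2 * Real.pi), (F s - fc F 0 * (d s : ℂ)) = 0 := h0
    rw [this, add_zero]
  obtain ⟨M, hM⟩ : ∃ M, ∀ x ∈ Icc (0 : ℝ) (2 * Real.pi), ‖prim (fun θ => F θ - fc F 0 * (d θ : ℂ)) x‖ ≤ M :=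
    isCompact_Icc.exists_bound_of_continuousOn hcont.continuousOn
  refine ⟨‖g0‖ + M, hF, hd, cd, bd, hper, fun x => ?_, ?_, fun x => ?_⟩
  · have : prim (fun θ => F θ - fc F 0 * (d θ : ℂ)) 0 = 0 := by
      unfold prim
      exact intervalIntegral.integral_same
    simp only [this, add_zero]
    rfl
  · have : prim (fun θ => F θ - fc F 0 * (d θ : ℂ)) 0 = 0 := by
      unfold prim
      exact intervalIntegral.integral_same
    simp only [this, h0]
  · refine (norm_add_le _ _).trans (add_le_add le_rfl ?_)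
    have hp : Function.Periodic (prim (fun θ => F θ - fc F 0 * (d θ : ℂ))) (2 * Real.pi) := hperp
    obtain ⟨y, hy, hxy⟩ := hp.exists_mem_Ico (by positivity) x 0
    rw [hxy]
    exact hM y ⟨hy.1, by have := hy.2; linarith⟩

section

variable {F1 F2 G1 G2 : ℝ → ℂ} {φ1 φ2 d1 d2 D1 D2 R1 R2 : ℝ → ℝ} {c1 c2 : ℂ} {C1 C2 b1 b2 B1 B2 a b C : ℝ}

/-- the row `k` is a moment of the two functions `U` -/
theorem eM_U (h1 : WF F1 G1 φ1 d1 c1 C1 b1 B1) (h2 : WF F2 G2 φ2 d2 c2 C2 b2 B2) (k : ℕ) :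
    eM F1 F2 φ1 φ2 (lk k) = -Complex.I * (((lk k ^ 2 - 1) / lk k : ℝ) : ℂ) *
      (yk (WU F1 G1 φ1 d1 c1) φ1 k + yk (WU F2 G2 φ2 d2 c2) φ2 k) := by
  have m1 : Measurable φ1 := h1.cphi.measurable
  have m2 : Measurable φ2 := h2.cphi.measurable
  have i : ∀ {F : ℝ → ℂ} {φ : ℝ → ℝ} {C : ℝ}, BM F C → Measurable φ →
      IntervalIntegrable (eD F φ (lk k)) volume 0 (2 * Real.pi) := by
    intro F φ C hF hφ
    have hm : Measurable (eD F φ (lk k)) := by
      unfold eD
      have hx : Measurable fun θ => F θ * ee (-φ θ) := hF.m.mul (continuous_ee.measurable.comp hφ.neg)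
      exact ((Complex.measurable_ofReal.comp (Complex.measurable_re.comp hx)).sub
        (measurable_const.mul (Complex.measurable_ofReal.comp (Complex.measurable_im.comp hx)))).mul
        (continuous_ee.measurable.comp (hφ.const_mul _).neg)
    refine (BM.i (C := C + lk k * C) ⟨hm, fun t => ?_⟩ _ _)
    unfold eD
    rw [norm_mul, norm_ee, mul_one]
    have hl := lk_ge k
    have hn : ‖F t * ee (-φ t)‖ ≤ C := by rw [norm_mul, norm_ee, mul_one]; exact hF.b t
    refine (norm_sub_le _ _).trans (add_le_add ?_ ?_)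
    · rw [Complex.norm_real, Real.norm_eq_abs]
      exact (Complex.abs_re_le_norm _).trans hn
    · rw [norm_mul, norm_mul, Complex.norm_I, one_mul, Complex.norm_real, Complex.norm_real, Real.norm_eq_abs,
        Real.norm_eq_abs, abs_of_nonneg (by linarith)]
      exact mul_le_mul_of_nonneg_left ((Complex.abs_im_le_norm _).trans hn) (by linarith)
  unfold eM yk
  rw [intervalIntegral.integral_add (i h1.hF m1) (i h2.hF m2), h1.int_eD k, h2.int_eD k]
  ring

/-- one row -/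
theorem row_W (h1 : WF F1 G1 φ1 d1 c1 C1 b1 B1) (h2 : WF F2 G2 φ2 d2 c2 C2 b2 B2) (k : ℕ) :
    ‖eM F1 F2 φ1 φ2 (lk k)‖ ^ 2 / (lk k ^ 2 - 1) = (1 - 1 / lk k ^ 2) *
      ‖yk (WU F1 G1 φ1 d1 c1) φ1 k + yk (WU F2 G2 φ2 d2 c2) φ2 k‖ ^ 2 := by
  have hl := lk_ge k
  have hs := lk_sq k
  rw [eM_U h1 h2, norm_mul, norm_mul, norm_neg, Complex.norm_I, one_mul, Complex.norm_real, Real.norm_eq_abs, mul_pow,
    sq_abs]
  field_simp

theorem row_W_le (h1 : WF F1 G1 φ1 d1 c1 C1 b1 B1) (h2 : WF F2 G2 φ2 d2 c2 C2 b2 B2) (k : ℕ) :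
    ‖eM F1 F2 φ1 φ2 (lk k)‖ ^ 2 / (lk k ^ 2 - 1) ≤
      ‖yk (WU F1 G1 φ1 d1 c1) φ1 k + yk (WU F2 G2 φ2 d2 c2) φ2 k‖ ^ 2 := by
  have hl := lk_ge k
  rw [row_W h1 h2]
  have h3 : 0 < 1 / lk k ^ 2 := by positivity
  nlinarith [sq_nonneg ‖yk (WU F1 G1 φ1 d1 c1) φ1 k + yk (WU F2 G2 φ2 d2 c2) φ2 k‖]

theorem yk_sub {f g φ : ℝ → ℝ} {C E : ℝ} (mf : Measurable f) (bf : ∀ t, |f t| ≤ C) (mg : Measurable g)
    (bg : ∀ t, |g t| ≤ E) (mφ : Measurable φ) (k : ℕ) :
    yk (fun t => f t - g t) φ k = yk f φ k - yk g φ k := by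
  have i : ∀ {f : ℝ → ℝ} {C : ℝ}, Measurable f → (∀ t, |f t| ≤ C) →
      IntervalIntegrable (fun θ => (f θ : ℂ) * ee (-(lk k * φ θ))) volume 0 (2 * Real.pi) := by
    intro f C mf bf
    refine BM.i (C := C) ⟨(Complex.measurable_ofReal.comp mf).mul
      (continuous_ee.measurable.comp (mφ.const_mul _).neg), fun t => ?_⟩ _ _
    show ‖(f t : ℂ) * ee (-(lk k * φ t))‖ ≤ C
    rw [norm_mul, norm_ee, mul_one, Complex.norm_real, Real.norm_eq_abs]
    exact bf t
  unfold yk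
  rw [← mul_sub, ← intervalIntegral.integral_sub (i mf bf) (i mg bg)]
  congr 1
  refine intervalIntegral.integral_congr fun θ _ => ?_
  show ((f θ - g θ : ℝ) : ℂ) * _ = _
  push_cast
  ring

/-- **THE ROWS `k ∈ S`**: for any `R1, R2` without moments at the rows of `S`,
`Σ_{k ∈ S} |e_k|²/(l² - 1) ≤ (1/2) ⟨D1 (U1 - R1)² + D2 (U2 - R2)²⟩` -/
theorem W_rows (h1 : WF F1 G1 φ1 d1 c1 C1 b1 B1) (h2 : WF F2 G2 φ2 d2 c2 C2 b2 B2) (w : WOK φ1 φ2 D1 D2 a b)
    (m1 : Measurable R1) (m2 : Measurable R2) (r1 : ∀ t, |R1 t| ≤ C) (r2 : ∀ t, |R2 t| ≤ C) (S : Finset ℕ)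
    (hR : ∀ k ∈ S, yk R1 φ1 k + yk R2 φ2 k = 0) :
    ∑ k ∈ S, ‖eM F1 F2 φ1 φ2 (lk k)‖ ^ 2 / (lk k ^ 2 - 1) ≤
      1 / 2 * (1 / (2 * Real.pi) * ∫ θ in (0 : ℝ)..(2 * Real.pi),
        (D1 θ * (WU F1 G1 φ1 d1 c1 θ - R1 θ) ^ 2 + D2 θ * (WU F2 G2 φ2 d2 c2 θ - R2 θ) ^ 2)) := by
  set E : ℝ := max (C1 + ‖c1‖ * b1 + b1 * B1 + C) (C2 + ‖c2‖ * b2 + b2 * B2 + C)
  have k1 : ∀ t, |WU F1 G1 φ1 d1 c1 t - R1 t| ≤ E := fun t =>
    ((abs_sub _ _).trans (add_le_add (WU_bd h1 t) (r1 t))).trans (le_max_left _ _)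
  have k2 : ∀ t, |WU F2 G2 φ2 d2 c2 t - R2 t| ≤ E := fun t =>
    ((abs_sub _ _).trans (add_le_add (WU_bd h2 t) (r2 t))).trans (le_max_right _ _)
  have h := bessel2 (f1 := fun t => WU F1 G1 φ1 d1 c1 t - R1 t) (f2 := fun t => WU F2 G2 φ2 d2 c2 t - R2 t)
    ((WU_meas h1).sub m1) k1 ((WU_meas h2).sub m2) k2 w.n1 w.n2 w.k1 w.k2 w.pos w.l1 w.u1 w.l2 w.u2 w.dens S
  refine le_trans (Finset.sum_le_sum fun k hk => ?_) h
  refine (row_W_le h1 h2 k).trans (le_of_eq ?_)
  rw [yk_sub (WU_meas h1) (WU_bd h1) m1 r1 w.n1, yk_sub (WU_meas h2) (WU_bd h2) m2 r2 w.n2]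
  have e : yk (WU F1 G1 φ1 d1 c1) φ1 k - yk R1 φ1 k + (yk (WU F2 G2 φ2 d2 c2) φ2 k - yk R2 φ2 k) =
      yk (WU F1 G1 φ1 d1 c1) φ1 k + yk (WU F2 G2 φ2 d2 c2) φ2 k - (yk R1 φ1 k + yk R2 φ2 k) := by ring
  rw [e, hR k hk, sub_zero]

/-- the moments of `d ψ(φ)` are the Fourier coefficients of `ψ` -/
theorem yk_comp {φ d ψ : ℝ → ℝ} (hd : ∀ x, HasDerivAt φ (d x) x) (cd : Continuous d) (pd : ∀ x, 0 < d x)
    (per : ∀ x, φ (x + 2 * Real.pi) = φ x + 2 * Real.pi) (perψ : ∀ x, ψ (x + 2 * Real.pi) = ψ x)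
    (cψ : Continuous ψ) (k : ℕ) :
    yk (fun θ => d θ * ψ (φ θ)) φ k =
      (1 / (2 * Real.pi) : ℂ) * ∫ x in (0 : ℝ)..(2 * Real.pi), (ψ x : ℂ) * ee (-(lk k * x)) := by
  have cφ : Continuous φ := continuous_iff_continuousAt.2 fun x => (hd x).continuousAt
  have cE : Continuous fun x : ℝ => ee (-(lk k * x)) := continuous_ee.comp (continuous_const.mul continuous_id).neg
  have pE : ∀ x, ee (-(lk k * (x + 2 * Real.pi))) = ee (-(lk k * x)) := by
    intro x
    have e : lk k = ((2 * k + 2 : ℕ) : ℤ) := by unfold lk; push_cast; ring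
    rw [ee_neg, ee_neg, e, ee_int]
  unfold yk
  congr 1
  have c1 : Continuous fun θ => ((d θ * ψ (φ θ) : ℝ) : ℂ) * ee (-(lk k * φ θ)) :=
    (Complex.continuous_ofReal.comp (cd.mul (cψ.comp cφ))).mul (cE.comp cφ)
  have c2 : Continuous fun x => (ψ x : ℂ) * ee (-(lk k * x)) := (Complex.continuous_ofReal.comp cψ).mul cE
  apply Complex.ext
  · rw [← Complex.reCLM_apply, ← Complex.reCLM_apply, ← Complex.reCLM.intervalIntegral_comp_comm
      (c1.intervalIntegrable _ _), ← Complex.reCLM.intervalIntegral_comp_comm (c2.intervalIntegrable _ _)]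
    have h := Pool.Agent.Helper17.RC.cov hd pd per (F := fun x => ψ x * (ee (-(lk k * x))).re) (fun x => by
      rw [perψ, pE])
    simp only [Complex.reCLM_apply, Complex.re_ofReal_mul]
    rw [← h]
    refine intervalIntegral.integral_congr fun x _ => ?_
    show d x * ψ (φ x) * _ = d x * (ψ (φ x) * _)
    ring
  · rw [← Complex.imCLM_apply, ← Complex.imCLM_apply, ← Complex.imCLM.intervalIntegral_comp_comm
      (c1.intervalIntegrable _ _), ← Complex.imCLM.intervalIntegral_comp_comm (c2.intervalIntegrable _ _)]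
    have h := Pool.Agent.Helper17.RC.cov hd pd per (F := fun x => ψ x * (ee (-(lk k * x))).im) (fun x => by
      rw [perψ, pE])
    simp only [Complex.imCLM_apply, Complex.im_ofReal_mul]
    rw [← h]
    refine intervalIntegral.integral_congr fun x _ => ?_
    show d x * ψ (φ x) * _ = d x * (ψ (φ x) * _)
    ring

/-- **THE ROWS `k ∈ S`, weights `2/φ'`**: `Σ_{k ∈ S} |e_k|²/(l² - 1) ≤ Σ_j ⟨(U_j - R_j)²/φ_j'⟩` -/
theorem W_rows_slope (h1 : WF F1 G1 φ1 d1 c1 C1 b1 B1) (h2 : WF F2 G2 φ2 d2 c2 C2 b2 B2) {σ : ℝ} (hσ : 0 < σ)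
    (s1 : ∀ x, σ ≤ d1 x) (s2 : ∀ x, σ ≤ d2 x) (q1 : ∀ x, φ1 (x + 2 * Real.pi) = φ1 x + 2 * Real.pi)
    (q2 : ∀ x, φ2 (x + 2 * Real.pi) = φ2 x + 2 * Real.pi)
    (m1 : Measurable R1) (m2 : Measurable R2) (r1 : ∀ t, |R1 t| ≤ C) (r2 : ∀ t, |R2 t| ≤ C) (S : Finset ℕ)
    (hR : ∀ k ∈ S, yk R1 φ1 k + yk R2 φ2 k = 0) :
    ∑ k ∈ S, ‖eM F1 F2 φ1 φ2 (lk k)‖ ^ 2 / (lk k ^ 2 - 1) ≤
      1 / (2 * Real.pi) * ∫ θ in (0 : ℝ)..(2 * Real.pi),
        ((WU F1 G1 φ1 d1 c1 θ - R1 θ) ^ 2 / d1 θ + (WU F2 G2 φ2 d2 c2 θ - R2 θ) ^ 2 / d2 θ) := by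
  have hb1 : 0 < max b1 b2 := by
    have := (hσ.trans_le (s1 0)).trans_le ((le_abs_self _).trans (h1.bd 0))
    exact this.trans_le (le_max_left _ _)
  have p1 : ∀ x, 0 < d1 x := fun x => hσ.trans_le (s1 x)
  have p2 : ∀ x, 0 < d2 x := fun x => hσ.trans_le (s2 x)
  have w : WOK φ1 φ2 (fun θ => 2 / d1 θ) (fun θ => 2 / d2 θ) (2 / max b1 b2) (2 / σ) :=
    { n1 := h1.cphi.measurable
      n2 := h2.cphi.measurable
      k1 := measurable_const.div h1.cd.measurable
      k2 := measurable_const.div h2.cd.measurable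
      pos := by positivity
      l1 := fun t => div_le_div_of_nonneg_left (by norm_num) (p1 t)
        (((le_abs_self _).trans (h1.bd t)).trans (le_max_left _ _))
      u1 := fun t => div_le_div_of_nonneg_left (by norm_num) hσ (s1 t)
      l2 := fun t => div_le_div_of_nonneg_left (by norm_num) (p2 t)
        (((le_abs_self _).trans (h2.bd t)).trans (le_max_right _ _))
      u2 := fun t => div_le_div_of_nonneg_left (by norm_num) hσ (s2 t)
      dens := densW_slope h1.hd h2.hd h1.cd h2.cd p1 p2 q1 q2 }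
  refine (W_rows h1 h2 w m1 m2 r1 r2 S hR).trans (le_of_eq ?_)
  have e : ∀ θ, 2 / d1 θ * (WU F1 G1 φ1 d1 c1 θ - R1 θ) ^ 2 + 2 / d2 θ * (WU F2 G2 φ2 d2 c2 θ - R2 θ) ^ 2 =
      2 * ((WU F1 G1 φ1 d1 c1 θ - R1 θ) ^ 2 / d1 θ + (WU F2 G2 φ2 d2 c2 θ - R2 θ) ^ 2 / d2 θ) := by
    intro θ
    have := (p1 θ).ne'
    have := (p2 θ).ne'
    field_simp
  simp_rw [e]
  rw [intervalIntegral.integral_const_mul]
  ring

/-- the series of the rows `≥ K`, without subtraction -/
theorem W_tsum (h1 : WF F1 G1 φ1 d1 c1 C1 b1 B1) (h2 : WF F2 G2 φ2 d2 c2 C2 b2 B2) {σ : ℝ} (hσ : 0 < σ)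
    (s1 : ∀ x, σ ≤ d1 x) (s2 : ∀ x, σ ≤ d2 x) (q1 : ∀ x, φ1 (x + 2 * Real.pi) = φ1 x + 2 * Real.pi)
    (q2 : ∀ x, φ2 (x + 2 * Real.pi) = φ2 x + 2 * Real.pi)
    (m1 : Measurable R1) (m2 : Measurable R2) (r1 : ∀ t, |R1 t| ≤ C) (r2 : ∀ t, |R2 t| ≤ C) (K : ℕ)
    (hR : ∀ k, K ≤ k → yk R1 φ1 k + yk R2 φ2 k = 0) :
    ∑' k : ℕ, ‖eM F1 F2 φ1 φ2 (lk (k + K))‖ ^ 2 / (lk (k + K) ^ 2 - 1) ≤
      1 / (2 * Real.pi) * ∫ θ in (0 : ℝ)..(2 * Real.pi),
        ((WU F1 G1 φ1 d1 c1 θ - R1 θ) ^ 2 / d1 θ + (WU F2 G2 φ2 d2 c2 θ - R2 θ) ^ 2 / d2 θ) := by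
  refine Real.tsum_le_of_sum_range_le (fun k => div_nonneg (by positivity) (lk_sq _).le) fun n => ?_
  have := W_rows_slope h1 h2 hσ s1 s2 q1 q2 m1 m2 r1 r2 ((Finset.range n).map (addRightEmbedding K)) (fun k hk => by
    rw [Finset.mem_map] at hk
    obtain ⟨j, _, rfl⟩ := hk
    exact hR _ (by show K ≤ j + K; omega))
  rw [Finset.sum_map] at this
  exact this

end

end Pool.Agent.Helper73.SH
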