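import Pool.Agent.Helper73.SH.WBes
import Pool.Agent.Helper43.SH.GoodI

/-!
# Project RC, SHARP: the functions `U` for trigonometric polynomials and angle alignments

Family `F θ = ee t * tp S X t`, `t = θ - τ`, alignment `φ θ = t + arg (v t)`. Then (`WF_ang`, `WU_ang`)
`|v| U = Im (u conj v) - a' Im (y conj v) - a' Im (c e^{-it} conj v) + (1 + a') (arg v - a₀₀) Re (c e^{-it} conj v)`,
`y = Σ_{n ≠ -1} X_n/(n+1) e^{int}`, `u = Σ_{n ≠ -1} n/(n+1) X_n e^{int}`, `c = X_{-1}`, `a' = Im (v'/v)`.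
-/

set_option autoImplicit false

open MeasureTheory Set Filter Topology

namespace Pool.Agent.Helper73.SH

open Helper49.LT hiding sg
open Helper87.RC (BM)
open Helper56.RC (fc)
open Helper95.RC (tp tp_BM tp_per)
open Pool.Agent.Helper20.RC (lk lk_ge lk_sq eD eM)
open Pool.Agent.Helper17.RC (yk WOK DensW bessel2 densW_slope)
open Pool.Agent.Helper43.SH (ee_dd ee_dk)

/-- the multipliers -/
noncomputable def mY (X : ℤ → ℂ) (n : ℤ) : ℂ := if n = -1 then 0 else X n / ((n : ℂ) + 1)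
noncomputable def mU (X : ℤ → ℂ) (n : ℤ) : ℂ := if n = -1 then 0 else (n : ℂ) / ((n : ℂ) + 1) * X n

theorem tp_cont (S : Finset ℤ) (X : ℤ → ℂ) : Continuous (tp S X) := by
  unfold tp
  exact continuous_finsetSum _ fun n _ => continuous_const.mul (continuous_ee.comp (continuous_const.mul continuous_id))

/-- `X = y + u + c` -/
theorem tp_split (S : Finset ℤ) (X : ℤ → ℂ) (h : (-1 : ℤ) ∈ S) (t : ℝ) :
    tp S X t = tp S (mY X) t + tp S (mU X) t + X (-1) * ee (-t) := by
  unfold tp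
  have e : X (-1) * ee (-t) = ∑ n ∈ S, if n = -1 then X n * ee ((n : ℝ) * t) else 0 := by
    rw [Finset.sum_ite_eq' S (-1 : ℤ), if_pos h]
    push_cast
    rw [neg_one_mul]
  rw [e, ← Finset.sum_add_distrib, ← Finset.sum_add_distrib]
  refine Finset.sum_congr rfl fun n _ => ?_
  unfold mY mU
  by_cases hn : n = -1
  · simp [hn]
  · have h1 : ((n : ℂ) + 1) ≠ 0 := by
      intro h0
      apply hn
      have : ((n + 1 : ℤ) : ℂ) = 0 := by push_cast; exact h0
      have := Int.cast_eq_zero.1 this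
      omega
    rw [if_neg hn, if_neg hn, if_neg hn]
    field_simp
    ring

/-- the primitive of `ee t * (Σ_{n ≠ -1} X_n ee (n t))` -/
theorem tp_prim (S : Finset ℤ) (X : ℤ → ℂ) (h : (-1 : ℤ) ∈ S) (t : ℝ) :
    HasDerivAt (fun t => -Complex.I * (ee t * tp S (mY X) t)) (ee t * tp S X t - X (-1)) t := by
  have e1 : (fun t => -Complex.I * (ee t * tp S (mY X) t)) =
      fun t => ∑ n ∈ S, -Complex.I * mY X n * ee (((n : ℝ) + 1) * t) := by
    funext t
    unfold tp
    rw [Finset.mul_sum, Finset.mul_sum]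
    refine Finset.sum_congr rfl fun n _ => ?_
    have : ee (((n : ℝ) + 1) * t) = ee t * ee ((n : ℝ) * t) := by rw [← ee_add]; congr 1; ring
    rw [this]
    ring
  rw [e1]
  have e2 : ee t * tp S X t - X (-1) =
      ∑ n ∈ S, -Complex.I * mY X n * (Complex.I * (((n : ℝ) + 1 : ℝ) : ℂ) * ee (((n : ℝ) + 1) * t)) := by
    rw [tp_split S X h t]
    have e3 : ee t * (X (-1) * ee (-t)) = X (-1) := by
      have : ee t * ee (-t) = 1 := by rw [← ee_add, add_neg_cancel, ee_zero]
      linear_combination X (-1) * this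
    rw [mul_add, e3, add_sub_cancel_right]
    unfold tp
    rw [← Finset.sum_add_distrib, Finset.mul_sum]
    refine Finset.sum_congr rfl fun n _ => ?_
    have : ee (((n : ℝ) + 1) * t) = ee t * ee ((n : ℝ) * t) := by rw [← ee_add]; congr 1; ring
    rw [this]
    have h4 : mU X n = (n : ℂ) * mY X n := by
      unfold mU mY
      by_cases hn : n = -1
      · simp [hn]
      · rw [if_neg hn, if_neg hn]; ring
    rw [h4]
    push_cast
    linear_combination (mY X n * ((n : ℂ) + 1) * (ee t * ee ((n : ℝ) * t))) * Complex.I_mul_I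
  rw [e2]
  exact HasDerivAt.fun_sum fun n _ => (ee_dk ((n : ℝ) + 1) t).const_mul _

section

variable {v v' : ℝ → ℂ}

/-- derivative of the angle -/
theorem arg_dd (hv : ∀ x, HasDerivAt v (v' x) x) (hr : ∀ x, v x ∈ Complex.slitPlane) (x : ℝ) :
    HasDerivAt (fun t => (v t).arg) (v' x / v x).im x := by
  have h1 : HasDerivAt (fun θ : ℝ => (Complex.log (v θ)).im) (v' x / v x).im x :=
    Complex.imCLM.hasFDerivAt.comp_hasDerivAt x ((hv x).clog_real (hr x))
  have h3 : (fun θ : ℝ => (v θ).arg) = fun θ : ℝ => (Complex.log (v θ)).im := by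
    funext θ; rw [Complex.log_im]
  rw [h3]
  exact h1

/-- the family, the primitive -/
noncomputable def fA (S : Finset ℤ) (X : ℤ → ℂ) (τ θ : ℝ) : ℂ := ee (θ - τ) * tp S X (θ - τ)
noncomputable def pA (S : Finset ℤ) (X : ℤ → ℂ) (v : ℝ → ℂ) (a00 τ θ : ℝ) : ℂ :=
  -Complex.I * (ee (θ - τ) * tp S (mY X) (θ - τ)) - X (-1) * ((v (θ - τ)).arg - a00 : ℝ)
/-- the alignment and its slope -/
noncomputable def phA (v : ℝ → ℂ) (τ θ : ℝ) : ℝ := θ - τ + (v (θ - τ)).arg
noncomputable def dA (v v' : ℝ → ℂ) (τ θ : ℝ) : ℝ := 1 + (v' (θ - τ) / v (θ - τ)).im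

theorem cont_slope (hv : ∀ x, HasDerivAt v (v' x) x) (cv : Continuous v') (hr : ∀ x, v x ∈ Complex.slitPlane) :
    Continuous fun x => (v' x / v x).im :=
  Complex.continuous_im.comp (cv.div (continuous_iff_continuousAt.2 fun x => (hv x).continuousAt)
    fun x => Complex.slitPlane_ne_zero (hr x))

theorem per_bdd {f : ℝ → ℝ} (hf : Continuous f) (hp : ∀ x, f (x + 2 * Real.pi) = f x) : ∃ C, ∀ x, |f x| ≤ C := by
  obtain ⟨M, hM⟩ : ∃ M, ∀ x ∈ Icc (0 : ℝ) (2 * Real.pi), ‖f x‖ ≤ M :=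
    isCompact_Icc.exists_bound_of_continuousOn hf.continuousOn
  refine ⟨M, fun x => ?_⟩
  obtain ⟨y, hy, hxy⟩ := (show Function.Periodic f (2 * Real.pi) from hp).exists_mem_Ico (by positivity) x 0
  rw [hxy]
  exact hM y ⟨hy.1, by have := hy.2; linarith⟩

theorem per_dv (hv : ∀ x, HasDerivAt v (v' x) x) (hper : ∀ x, v (x + 2 * Real.pi) = v x) (x : ℝ) :
    v' (x + 2 * Real.pi) = v' x := by
  have e1 : HasDerivAt (fun y => v (y + 2 * Real.pi)) (v' (x + 2 * Real.pi)) x :=
    (hv (x + 2 * Real.pi)).comp_add_const x (2 * Real.pi)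
  have e2 : (fun y => v (y + 2 * Real.pi)) = v := funext hper
  rw [e2] at e1
  exact e1.unique (hv x)

/-- the conditions of `WF` -/
theorem WF_ang (hv : ∀ x, HasDerivAt v (v' x) x) (cv : Continuous v') (hr : ∀ x, v x ∈ Complex.slitPlane)
    (hper : ∀ x, v (x + 2 * Real.pi) = v x) (S : Finset ℤ) (X : ℤ → ℂ) (hS : (-1 : ℤ) ∈ S) (a00 τ : ℝ) :
    ∃ b B, WF (fA S X τ) (pA S X v a00 τ) (phA v τ) (dA v v' τ) (X (-1)) (∑ n ∈ S, ‖X n‖) b B := by
  have ca := cont_slope hv cv hr
  have cvv : Continuous v := continuous_iff_continuousAt.2 fun x => (hv x).continuousAt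
  have carg : Continuous fun x => (v x).arg :=
    continuous_iff_continuousAt.2 fun x => (arg_dd hv hr x).continuousAt
  have pa : ∀ x, (v' (x + 2 * Real.pi) / v (x + 2 * Real.pi)).im = (v' x / v x).im := fun x => by
    rw [per_dv hv hper, hper]
  obtain ⟨Ca, hCa⟩ := per_bdd ca pa
  obtain ⟨Cg, hCg⟩ := per_bdd carg (fun x => by rw [hper])
  have hsub : ∀ x : ℝ, HasDerivAt (fun θ : ℝ => θ - τ) 1 x := fun x => by simpa using (hasDerivAt_id x).sub_const τ
  have hphi : ∀ x, HasDerivAt (phA v τ) (dA v v' τ x) x := by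
    intro x
    have h4 := (arg_dd hv hr (x - τ)).comp x (hsub x)
    rw [mul_one] at h4
    exact (hsub x).add h4
  have cdA : Continuous (dA v v' τ) := continuous_const.add (ca.comp (continuous_id.sub continuous_const))
  have hpr : ∀ x, HasDerivAt (pA S X v a00 τ) (fA S X τ x - X (-1) * (dA v v' τ x : ℂ)) x := by
    intro x
    have h1 := (tp_prim S X hS (x - τ)).scomp x (hsub x)
    rw [one_smul] at h1
    have h4 := (arg_dd hv hr (x - τ)).comp x (hsub x)
    rw [mul_one] at h4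
    have h5 := ((h4.sub_const a00).ofReal_comp).const_mul (X (-1))
    have h6 := h1.sub h5
    have e : fA S X τ x - X (-1) * (dA v v' τ x : ℂ) = ee (x - τ) * tp S X (x - τ) - X (-1) -
        X (-1) * (((v' (x - τ) / v (x - τ)).im : ℝ) : ℂ) := by
      unfold fA dA
      push_cast
      ring
    rw [e]
    exact h6
  have cfA : Continuous (fA S X τ) :=
    (continuous_ee.comp (continuous_id.sub continuous_const)).mul
      ((tp_cont S X).comp (continuous_id.sub continuous_const))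
  refine ⟨1 + Ca, (∑ n ∈ S, ‖mY X n‖) + ‖X (-1)‖ * (Cg + |a00|), ?_⟩
  refine ⟨⟨cfA.measurable, fun t => ?_⟩, hphi, cdA, fun x => ?_, ?_, fun x => ?_, ?_, fun x => ?_⟩
  · unfold fA
    rw [norm_mul, norm_ee, one_mul]
    exact (tp_BM S X).b _
  · unfold dA
    refine (abs_add_le _ _).trans ?_
    rw [abs_one]
    linarith [hCa (x - τ)]
  · unfold phA
    have : 2 * Real.pi - τ = (0 - τ) + 2 * Real.pi := by ring
    rw [this, hper]
    ring
  · have h := intervalIntegral.integral_eq_sub_of_hasDerivAt (a := 0) (b := x) (fun y _ => hpr y)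
      ((cfA.sub (continuous_const.mul (Complex.continuous_ofReal.comp cdA))).intervalIntegrable _ _)
    rw [h]
    ring
  · unfold pA
    have : 2 * Real.pi - τ = (0 - τ) + 2 * Real.pi := by ring
    rw [this, hper, ee_per, tp_per]
  · unfold pA
    refine (norm_sub_le _ _).trans (add_le_add ?_ ?_)
    · rw [norm_mul, norm_neg, Complex.norm_I, one_mul, norm_mul, norm_ee, one_mul]
      exact (tp_BM S _).b _
    · rw [norm_mul, Complex.norm_real, Real.norm_eq_abs]
      refine mul_le_mul_of_nonneg_left ((abs_sub _ _).trans ?_) (norm_nonneg _)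
      linarith [hCg (x - τ)]

/-- the slope times `|v|²` -/
theorem slope_norm (hr : ∀ x, v x ∈ Complex.slitPlane) (t : ℝ) :
    ‖v t‖ ^ 2 * (v' t / v t).im = (v' t * (starRingEnd ℂ) (v t)).im := by
  have hne : v t ≠ 0 := Complex.slitPlane_ne_zero (hr t)
  have h1 : v' t / v t = v' t * (starRingEnd ℂ) (v t) / ((‖v t‖ ^ 2 : ℝ) : ℂ) := by
    rw [← Complex.normSq_eq_norm_sq, ← Complex.mul_conj, mul_div_mul_right _ _ ((map_ne_zero _).2 hne)]
  rw [h1, Complex.div_ofReal_im]
  have : ‖v t‖ ≠ 0 := norm_ne_zero_iff.2 hne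
  field_simp

/-- the pointwise numerator of `U` -/
noncomputable def nU (S : Finset ℤ) (X : ℤ → ℂ) (v v' : ℝ → ℂ) (a00 t : ℝ) : ℝ :=
  (tp S (mU X) t * (starRingEnd ℂ) (v t)).im
    - (v' t / v t).im * (tp S (mY X) t * (starRingEnd ℂ) (v t)).im
    - (v' t / v t).im * (X (-1) * ee (-t) * (starRingEnd ℂ) (v t)).im
    + (1 + (v' t / v t).im) * ((v t).arg - a00) * (X (-1) * ee (-t) * (starRingEnd ℂ) (v t)).re

theorem ee_neg_arg (t : ℝ) :
    (‖v t‖ : ℂ) * ee (-(v t).arg) = (starRingEnd ℂ) (v t) := by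
  rw [ee_neg]
  have h1 := Complex.norm_mul_exp_arg_mul_I (v t)
  have h2 := congrArg (starRingEnd ℂ) h1
  rw [map_mul, Complex.conj_ofReal] at h2
  exact h2

/-- THE FORMULA OF `U` -/
theorem WU_ang (S : Finset ℤ) (X : ℤ → ℂ) (hS : (-1 : ℤ) ∈ S) (a00 τ θ : ℝ) :
    ‖v (θ - τ)‖ * WU (fA S X τ) (pA S X v a00 τ) (phA v τ) (dA v v' τ) (X (-1)) θ = nU S X v v' a00 (θ - τ) := by
  set t := θ - τ with ht
  have hE : ee (-phA v τ θ) = ee (-t) * ee (-(v t).arg) := by
    unfold phA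
    rw [← ee_add]
    congr 1
    ring
  have hc : ee t * ee (-t) = 1 := by rw [← ee_add, add_neg_cancel, ee_zero]
  have hv0 := ee_neg_arg (v := v) t
  set a' := (v' t / v t).im with ha'
  have hd : dA v v' τ θ = 1 + a' := rfl
  set c := X (-1) with hcdef
  have hsp := tp_split S X hS t
  have e1 : (‖v t‖ : ℂ) * ((fA S X τ θ - c * (dA v v' τ θ : ℂ)) * ee (-phA v τ θ)) =
      (tp S (mY X) t + tp S (mU X) t) * (starRingEnd ℂ) (v t) - (a' : ℂ) * (c * ee (-t) * (starRingEnd ℂ) (v t)) := by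
    rw [hE, hd]
    unfold fA
    rw [← ht, hsp, ← hv0]
    push_cast
    linear_combination (‖v t‖ * ee (-(v t).arg) * (tp S (mY X) t + tp S (mU X) t + c * ee (-t)) : ℂ) * hc
  have e2 : (‖v t‖ : ℂ) * (pA S X v a00 τ θ * ee (-phA v τ θ)) =
      -Complex.I * (tp S (mY X) t * (starRingEnd ℂ) (v t)) -
        (((v t).arg - a00 : ℝ) : ℂ) * (c * ee (-t) * (starRingEnd ℂ) (v t)) := by
    rw [hE]
    unfold pA
    rw [← ht, ← hv0]
    linear_combination (-Complex.I * (‖v t‖ * ee (-(v t).arg) * tp S (mY X) t) : ℂ) * hc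
  unfold WU
  have f1 := congrArg Complex.im e1
  have f2 := congrArg Complex.re e2
  rw [Complex.im_ofReal_mul, Complex.sub_im, Complex.im_ofReal_mul, add_mul, Complex.add_im] at f1
  rw [Complex.re_ofReal_mul, Complex.sub_re, Complex.re_ofReal_mul] at f2
  have f3 : (-Complex.I * (tp S (mY X) t * (starRingEnd ℂ) (v t))).re =
      (tp S (mY X) t * (starRingEnd ℂ) (v t)).im := by
    simp
  rw [f3] at f2
  rw [hd] at f1 ⊢
  unfold nU
  rw [mul_sub, f1]
  have f4 : ‖v t‖ * ((1 + a') * (pA S X v a00 τ θ * ee (-phA v τ θ)).re) =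
      (1 + a') * (‖v t‖ * (pA S X v a00 τ θ * ee (-phA v τ θ)).re) := by ring
  rw [f4, f2]
  ring

end

end Pool.Agent.Helper73.SH
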