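import Pool.Agent.Helper73.SH.WInst
import Pool.Agent.Helper73.SH.PtT2d
import Pool.Agent.Helper61.RC.QSt

/-!
# Project RC, SHARP, zone I, (C2): trigonometric polynomials, the square of `U`
-/

set_option autoImplicit false

open MeasureTheory Set Filter Topology

namespace Pool.Agent.Helper73.SH

open Helper49.LT hiding sg
open Helper49.RC Helper44.GQ Helper49.Sharp
open Helper87.RC (BM pars)
open Helper56.RC (fc)
open Helper95.RC (tp tp_BM tp_per fc_tp Sup)

/-- a continuous periodic function with finitely many coefficients is its Fourier polynomial -/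
theorem eq_tp {f : ℝ → ℂ} {C : ℝ} (hf : BM f C) (hc : Continuous f) (hp : ∀ t, f (t + 2 * Real.pi) = f t) {N : ℕ}
    (s : Sup N (fc f)) (t : ℝ) : f t = tp (Finset.Icc (-(N : ℤ)) N) (fc f) t := by
  set S := Finset.Icc (-(N : ℤ)) N with hS
  have h2 := pars (hf.sub (tp_BM S (fc f)))
  have e : ∀ n, fc (fun t => f t - tp S (fc f) t) n = 0 := by
    intro n
    rw [Helper87.RC.fc_sub hf (tp_BM S (fc f)), fc_tp]
    by_cases hn : n ∈ S
    · rw [if_pos hn, sub_self]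
    · rw [if_neg hn, s n hn, sub_self]
  simp_rw [e] at h2
  have h3 : (1 / (2 * Real.pi)) * ∫ t in (0 : ℝ)..(2 * Real.pi), ‖f t - tp S (fc f) t‖ ^ 2 = 0 := by
    have := h2.unique (f := fun _ : ℤ => ‖(0 : ℂ)‖ ^ 2) (a₁ := _) (a₂ := 0) (by simp [hasSum_zero])
    exact this
  have hpi := Real.pi_pos
  have h4 : ∫ t in (0 : ℝ)..(2 * Real.pi), ‖f t - tp S (fc f) t‖ ^ 2 = 0 := by
    have : (1 / (2 * Real.pi)) ≠ 0 := by positivity
    exact (mul_eq_zero.1 h3).resolve_left this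
  by_contra hne
  have hg : Function.Periodic (fun t => f t - tp S (fc f) t) (2 * Real.pi) := fun x => by
    show f (x + 2 * Real.pi) - tp S (fc f) (x + 2 * Real.pi) = _
    rw [hp, tp_per]
  obtain ⟨y, hy, hxy⟩ := hg.exists_mem_Ico (by positivity) t 0
  have hy0 : f y - tp S (fc f) y ≠ 0 := by
    intro h0
    apply hne
    have : f t - tp S (fc f) t = f y - tp S (fc f) y := hxy
    rw [h0] at this
    exact sub_eq_zero.1 this
  have h5 := intervalIntegral.integral_pos (a := 0) (b := 2 * Real.pi) (f := fun t => ‖f t - tp S (fc f) t‖ ^ 2)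
    (by positivity) (((hc.sub (tp_cont S _)).norm.pow 2).continuousOn) (fun x _ => by positivity)
    ⟨y, ⟨hy.1, by linarith [hy.2]⟩, by
      have := norm_pos_iff.2 hy0
      positivity⟩
  linarith

/-- Parseval for trigonometric polynomials -/
theorem mean_tp (N : ℕ) (X Y : ℤ → ℂ) :
    mean (fun t => (tp (Finset.Icc (-(N : ℤ)) N) X t * (starRingEnd ℂ) (tp (Finset.Icc (-(N : ℤ)) N) Y t)).re) =
      ∑ n ∈ Finset.Icc (-(N : ℤ)) N, (X n * (starRingEnd ℂ) (Y n)).re := by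
  rw [Helper95.SH.mean_lin (tp_BM _ X) (fun n hn => by rw [fc_tp, if_neg hn]) (tp_BM _ Y), Complex.re_sum]
  refine Finset.sum_congr rfl fun n hn => ?_
  rw [fc_tp, fc_tp, if_pos hn, if_pos hn]

/-- conjugation of trigonometric polynomials -/
theorem tp_conj (N : ℕ) (X : ℤ → ℂ) (t : ℝ) :
    (starRingEnd ℂ) (tp (Finset.Icc (-(N : ℤ)) N) X t) =
      tp (Finset.Icc (-(N : ℤ)) N) (fun n => (starRingEnd ℂ) (X (-n))) t := by
  unfold tp
  rw [map_sum]
  refine Finset.sum_bij' (fun n _ => -n) (fun n _ => -n) (fun n hn => ?_) (fun n hn => ?_) (fun n _ => neg_neg n)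
    (fun n _ => neg_neg n) (fun n _ => ?_)
  · rw [Finset.mem_Icc] at hn ⊢; omega
  · rw [Finset.mem_Icc] at hn ⊢; omega
  · show (starRingEnd ℂ) (X n * ee ((n : ℝ) * t)) = (starRingEnd ℂ) (X (- -n)) * ee (((-n : ℤ) : ℝ) * t)
    rw [neg_neg, map_mul, ← ee_neg]
    push_cast
    rw [neg_mul]

/-- mean of the square modulus -/
theorem mean_tp_sq (N : ℕ) (X : ℤ → ℂ) :
    mean (fun t => ‖tp (Finset.Icc (-(N : ℤ)) N) X t‖ ^ 2) = ∑ n ∈ Finset.Icc (-(N : ℤ)) N, ‖X n‖ ^ 2 := by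
  have h := mean_tp N X X
  have e : (fun t => (tp (Finset.Icc (-(N : ℤ)) N) X t * (starRingEnd ℂ) (tp (Finset.Icc (-(N : ℤ)) N) X t)).re) =
      fun t => ‖tp (Finset.Icc (-(N : ℤ)) N) X t‖ ^ 2 := by
    funext t
    rw [Complex.mul_conj, Complex.ofReal_re, Complex.normSq_eq_norm_sq]
  rw [e] at h
  rw [h]
  refine Finset.sum_congr rfl fun n _ => ?_
  rw [Complex.mul_conj, Complex.ofReal_re, Complex.normSq_eq_norm_sq]

/-- mean of the product -/
theorem mean_tp_mul (N : ℕ) (X Y : ℤ → ℂ) :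
    mean (fun t => (tp (Finset.Icc (-(N : ℤ)) N) X t * tp (Finset.Icc (-(N : ℤ)) N) Y t).re) =
      ∑ n ∈ Finset.Icc (-(N : ℤ)) N, (X n * Y (-n)).re := by
  have h := mean_tp N X (fun n => (starRingEnd ℂ) (Y (-n)))
  have e : (fun t => (tp (Finset.Icc (-(N : ℤ)) N) X t * (starRingEnd ℂ) (tp (Finset.Icc (-(N : ℤ)) N)
      (fun n => (starRingEnd ℂ) (Y (-n))) t)).re) =
      fun t => (tp (Finset.Icc (-(N : ℤ)) N) X t * tp (Finset.Icc (-(N : ℤ)) N) Y t).re := by
    funext t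
    rw [← tp_conj, Complex.conj_conj]
  rw [e] at h
  rw [h]
  refine Finset.sum_congr rfl fun n _ => ?_
  rw [Complex.conj_conj]

section

variable {v v' : ℝ → ℂ}

/-- `U |v|` in the variables `g`, `Ŷ` -/
theorem nU_eq (S : Finset ℤ) (X : ℤ → ℂ) (hS : (-1 : ℤ) ∈ S) (a00 t : ℝ) :
    nU S X v v' a00 t = (tp S X t * (starRingEnd ℂ) (v t)).im
      - (1 + (v' t / v t).im) * ((tp S (mY X) t + X (-1) * ee (-t)
        + -Complex.I * (((v t).arg - a00 : ℝ) : ℂ) * (X (-1) * ee (-t))) * (starRingEnd ℂ) (v t)).im := by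
  unfold nU
  rw [tp_split S X hS t]
  set y := tp S (mY X) t
  set u := tp S (mU X) t
  set c := X (-1) * ee (-t)
  set w := (starRingEnd ℂ) (v t)
  set a := (v' t / v t).im
  set b := (v t).arg - a00
  simp only [Complex.add_im, Complex.add_re, Complex.mul_im, Complex.mul_re, Complex.neg_re, Complex.neg_im, Complex.I_re,
    Complex.I_im, Complex.ofReal_re, Complex.ofReal_im]
  ring

/-- the square -/
theorem sq_T {F g Y : ℂ} {e : ℂ} (he : ‖e‖ = 1) (hF : F ≠ 0) {d : ℝ} (hd : d ≠ 0) :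
    ((g * (starRingEnd ℂ) (e * F)).im - d * (Y * (starRingEnd ℂ) (e * F)).im) ^ 2 / (‖e * F‖ ^ 2 * d) =
      ((starRingEnd ℂ) e * g * (starRingEnd ℂ) F).im ^ 2 / (‖F‖ ^ 2 * d)
        + T2 ((starRingEnd ℂ) F / F) d ((starRingEnd ℂ) e * g) ((starRingEnd ℂ) e * Y) := by
  rw [← T2_of hF, norm_mul, he, one_mul]
  have e1 : g * (starRingEnd ℂ) (e * F) = (starRingEnd ℂ) e * g * (starRingEnd ℂ) F := by rw [map_mul]; ring
  have e2 : Y * (starRingEnd ℂ) (e * F) = (starRingEnd ℂ) e * Y * (starRingEnd ℂ) F := by rw [map_mul]; ring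
  rw [e1, e2]
  have hn : ‖F‖ ≠ 0 := norm_ne_zero_iff.2 hF
  field_simp
  ring

end

end Pool.Agent.Helper73.SH
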