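import Pool.Agent.Helper73.SH.WLocA

/-!
# Project RC, SHARP, zone I, (C2): the instance, the pointwise bound
-/

set_option autoImplicit false

open MeasureTheory Set Filter Topology

namespace Pool.Agent.Helper73.SH

open Helper49.LT hiding sg
open Helper49.RC Helper44.GQ Helper49.Sharp
open Helper87.RC (BM pars)
open Helper56.RC (fc)
open Helper95.RC (tp tp_BM tp_per fc_tp Sup)
open Pool.Agent.Helper20.RC (lk lk_ge lk_sq eD eM)
open Pool.Agent.Helper33.SH (z0I PI)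
open Pool.Agent.Helper43.SH hiding tp
open Pool.Agent.Helper61.RC.QC (RestC Rest FL h2F o2F)

/-- the pointwise inequality `T1` [helper17] -/
noncomputable def T1f (e xb a s ρ : ℂ) : ℝ :=
  ((xb + e * ρ) * (starRingEnd ℂ) (1 + e * (a + s - 1 / 2 * (starRingEnd ℂ) s))).im ^ 2 /
    (‖1 + e * (a + s - 1 / 2 * (starRingEnd ℂ) s)‖ ^ 2
      - (e * (3 * a + 5 * s + 5 / 2 * (starRingEnd ℂ) s) *
        (starRingEnd ℂ) (1 + e * (a + s - 1 / 2 * (starRingEnd ℂ) s))).re)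

def T1St : Prop := ∀ (a s ρ : ℂ) (b2 b3 : ℝ), ‖a‖ + 8 / 5 * ‖s‖ ≤ 1 / 12 →
  1 / 2 * (T1f ((starRingEnd ℂ) om) (xb1 b2 b3) a s ρ + T1f ((starRingEnd ℂ) om) (xb1 b2 b3) (-a) (-s) (-ρ))
    + 1 / 2 * (T1f om (xb2 b2 b3) a s ρ + T1f om (xb2 b2 b3) (-a) (-s) (-ρ)) ≤
  (xb1 b2 b3).im ^ 2 + (xb2 b2 b3).im ^ 2 + ((starRingEnd ℂ) om * ρ).im ^ 2 + (om * ρ).im ^ 2
    + 318 / 1000 * ρ.re ^ 2 + 93 / 1000 * ρ.im ^ 2 + 31 / 20 * b2 ^ 2 + 43 / 20 * b3 ^ 2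

/-- the array without `± 2` -/
noncomputable def pO (p : ℤ → ℂ) (n : ℤ) : ℂ := if n = 2 ∨ n = -2 then 0 else p n

/-- the multiplier `1/(n+1)`, `1` at `-1` -/
noncomputable def mm (n : ℤ) : ℂ := if n = -1 then 1 else 1 / ((n : ℂ) + 1)

/-- the window -/
noncomputable abbrev SW (M : ℕ) : Finset ℤ := Finset.Icc (-((M + 2 : ℕ) : ℤ)) ((M + 2 : ℕ) : ℤ)

noncomputable def X1 (p r s : ℤ → ℂ) (n : ℤ) : ℂ := (starRingEnd ℂ) om * pO p n + kp * pO r n + s n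
noncomputable def X2 (p r s : ℤ → ℂ) (n : ℤ) : ℂ :=
  (starRingEnd ℂ) om ^ 2 * pO p n + (starRingEnd ℂ) kp * pO r n - s n

theorem mem_SW (M : ℕ) : (-1 : ℤ) ∈ SW M := by
  rw [Finset.mem_Icc]; omega

theorem mem_SW2 (M : ℕ) : (2 : ℤ) ∈ SW M := by
  rw [Finset.mem_Icc]; omega

theorem mem_SW2' (M : ℕ) : (-2 : ℤ) ∈ SW M := by
  rw [Finset.mem_Icc]; omega

theorem sup_up {M : ℕ} {f : ℤ → ℂ} (h : Sup M f) : Sup (M + 2) f := fun n hn => h n fun h2 => hn (by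
  rw [Finset.mem_Icc] at h2 ⊢
  push_cast
  omega)

/-- the real part without the harmonics `± 2`, as a polynomial -/
theorem o2_tp {f : ℝ → ℝ} {C : ℝ} (hf : BM (fun t => (f t : ℂ)) C) (hc : Continuous f)
    (hp : ∀ t, f (t + 2 * Real.pi) = f t) {M : ℕ} {p : ℤ → ℂ} (h : fc (fun t => (f t : ℂ)) = p) (s : Sup M p)
    (pc : ∀ n, p (-n) = (starRingEnd ℂ) (p n)) (t : ℝ) :
    ((f t - 2 * (fc (fun t => (f t : ℂ)) 2 * ee (2 * t)).re : ℝ) : ℂ) = tp (SW M) (pO p) t := by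
  have h1 := eq_tp hf (Complex.continuous_ofReal.comp hc) (fun t => by rw [hp]) (N := M + 2)
    (by rw [h]; exact sup_up s) t
  push_cast
  rw [h1, h]
  have e : ∀ n ∈ SW M, p n * ee ((n : ℝ) * t) = pO p n * ee ((n : ℝ) * t) +
      ((if n = 2 then p n * ee ((n : ℝ) * t) else 0) + (if n = -2 then p n * ee ((n : ℝ) * t) else 0)) := by
    intro n _
    unfold pO
    by_cases h2 : n = 2
    · subst h2; simp
    · by_cases h3 : n = -2
      · subst h3; simp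
      · simp [h2, h3]
  have e2 : tp (SW M) p t = tp (SW M) (pO p) t + (p 2 * ee (2 * t) + p (-2) * ee (-2 * t)) := by
    unfold tp
    rw [Finset.sum_congr rfl e, Finset.sum_add_distrib, Finset.sum_add_distrib, Finset.sum_ite_eq' (SW M) (2 : ℤ),
      Finset.sum_ite_eq' (SW M) (-2 : ℤ), if_pos (mem_SW2 M), if_pos (mem_SW2' M)]
    push_cast
    rfl
  have e3 : p (-2) * ee (-2 * t) = (starRingEnd ℂ) (p 2 * ee (2 * t)) := by
    rw [map_mul, ← ee_neg, pc 2, neg_mul]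
  rw [show (Finset.Icc (-((M + 2 : ℕ) : ℤ)) ((M + 2 : ℕ) : ℤ)) = SW M from rfl, e2, e3, Complex.add_conj]
  push_cast
  ring

section

variable {A : ℝ} {B : ℂ} {β ρ : ℝ → ℂ} {M : ℕ} {p r s : ℤ → ℂ}

theorem restC_re (R : RestC β ρ M p r s) (t : ℝ) : (((o2F β t).re : ℝ) : ℂ) = tp (SW M) (pO p) t := by
  obtain ⟨C, hC⟩ := R.cb.b
  have hm : BM (fun t => ((β t).re : ℂ)) C :=
    ⟨(Complex.continuous_ofReal.comp (Complex.continuous_re.comp R.kb)).measurable, fun t => by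
      rw [Complex.norm_real, Real.norm_eq_abs]; exact (Complex.abs_re_le_norm _).trans (hC t)⟩
  have h := o2_tp hm (Complex.continuous_re.comp R.kb) (fun t => by
    show (β (t + 2 * Real.pi)).re = _
    rw [show t + 2 * Real.pi = t + Real.pi + Real.pi by ring, R.pb, R.pb]) R.hp R.sp R.par.pc t
  rw [← h]
  congr 1
  unfold o2F h2F
  simp

theorem restC_im (R : RestC β ρ M p r s) (t : ℝ) : (((o2F β t).im : ℝ) : ℂ) = tp (SW M) (pO r) t := by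
  obtain ⟨C, hC⟩ := R.cb.b
  have hm : BM (fun t => ((β t).im : ℂ)) C :=
    ⟨(Complex.continuous_ofReal.comp (Complex.continuous_im.comp R.kb)).measurable, fun t => by
      rw [Complex.norm_real, Real.norm_eq_abs]; exact (Complex.abs_im_le_norm _).trans (hC t)⟩
  have h := o2_tp hm (Complex.continuous_im.comp R.kb) (fun t => by
    show (β (t + 2 * Real.pi)).im = _
    rw [show t + 2 * Real.pi = t + Real.pi + Real.pi by ring, R.pb, R.pb]) R.hr R.sr R.par.rc t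
  rw [← h]
  congr 1
  unfold o2F h2F
  simp

theorem restC_z (R : RestC β ρ M p r s) (t : ℝ) : ρ t = tp (SW M) s t := by
  obtain ⟨C, hC⟩ := R.cz.b
  have h := eq_tp (f := ρ) (C := C) ⟨R.cz.m, hC⟩ R.kz (fun t => by
    rw [show t + 2 * Real.pi = t + Real.pi + Real.pi by ring, R.pz, R.pz, neg_neg]) (N := M + 2)
    (by rw [R.hs]; exact sup_up R.ss) t
  rw [h, R.hs]

/-- linear combinations -/
theorem tp_comb (S : Finset ℤ) (a b c : ℂ) (x y z : ℤ → ℂ) (t : ℝ) :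
    tp S (fun n => a * x n + b * y n + c * z n) t = a * tp S x t + b * tp S y t + c * tp S z t := by
  unfold tp
  rw [Finset.mul_sum, Finset.mul_sum, Finset.mul_sum, ← Finset.sum_add_distrib, ← Finset.sum_add_distrib]
  refine Finset.sum_congr rfl fun n _ => ?_
  ring

theorem tp_X1 (R : RestC β ρ M p r s) (t : ℝ) : tp (SW M) (X1 p r s) t = g1L (o2F β t) (ρ t) := by
  have e : X1 p r s = fun n => (starRingEnd ℂ) om * pO p n + kp * pO r n + 1 * s n := by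
    funext n; unfold X1; ring
  rw [e, tp_comb, ← restC_re R, ← restC_im R, ← restC_z R]
  unfold g1L kp
  ring

theorem tp_X2 (R : RestC β ρ M p r s) (t : ℝ) : tp (SW M) (X2 p r s) t = g2L (o2F β t) (ρ t) := by
  have e : X2 p r s = fun n => (starRingEnd ℂ) om ^ 2 * pO p n + (starRingEnd ℂ) kp * pO r n + (-1) * s n := by
    funext n; unfold X2; ring
  rw [e, tp_comb, ← restC_re R, ← restC_im R, ← restC_z R]
  unfold g2L kp
  rw [map_add, map_div₀, Complex.conj_I, Complex.conj_ofReal, map_ofNat]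
  ring

/-- the functions `u`, `v`, `Y`, `σ` -/
noncomputable def fu (M : ℕ) (p : ℤ → ℂ) (t : ℝ) : ℂ := tp (SW M) (fun n => mm n * pO p n) t
noncomputable def fY (M : ℕ) (s : ℤ → ℂ) (t : ℝ) : ℂ := tp (SW M) (fun n => mm n * s n) t

theorem mY_eq (S : Finset ℤ) (hS : (-1 : ℤ) ∈ S) (X : ℤ → ℂ) (t : ℝ) :
    tp S (mY X) t + X (-1) * ee (-t) = tp S (fun n => mm n * X n) t := by
  have e : X (-1) * ee (-t) = ∑ n ∈ S, if n = -1 then X n * ee ((n : ℝ) * t) else 0 := by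
    rw [Finset.sum_ite_eq' S (-1 : ℤ), if_pos hS]
    push_cast
    rw [neg_one_mul]
  rw [e]
  unfold tp
  rw [← Finset.sum_add_distrib]
  refine Finset.sum_congr rfl fun n _ => ?_
  unfold mY mm
  by_cases hn : n = -1
  · simp [hn]
  · simp only [if_neg hn]
    ring

theorem X1_m1 (R : RestC β ρ M p r s) : X1 p r s (-1) = s (-1) := by
  unfold X1 pO
  rw [R.par.po (-1) ⟨-1, by norm_num⟩, R.par.ro (-1) ⟨-1, by norm_num⟩]
  simp

theorem X2_m1 (R : RestC β ρ M p r s) : X2 p r s (-1) = -s (-1) := by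
  unfold X2 pO
  rw [R.par.po (-1) ⟨-1, by norm_num⟩, R.par.ro (-1) ⟨-1, by norm_num⟩]
  simp

theorem mY1 (R : RestC β ρ M p r s) (t : ℝ) : tp (SW M) (mY (X1 p r s)) t + X1 p r s (-1) * ee (-t) =
    (starRingEnd ℂ) om * fu M p t + kp * fu M r t + fY M s t := by
  rw [mY_eq _ (mem_SW M)]
  have e : (fun n => mm n * X1 p r s n) = fun n => (starRingEnd ℂ) om * (mm n * pO p n) + kp * (mm n * pO r n)
      + 1 * (mm n * s n) := by
    funext n; unfold X1; ring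
  rw [e, tp_comb, one_mul]
  rfl

theorem mY2 (R : RestC β ρ M p r s) (t : ℝ) : tp (SW M) (mY (X2 p r s)) t + X2 p r s (-1) * ee (-t) =
    (starRingEnd ℂ) om ^ 2 * fu M p t + (starRingEnd ℂ) kp * fu M r t - fY M s t := by
  rw [mY_eq _ (mem_SW M)]
  have e : (fun n => mm n * X2 p r s n) = fun n => (starRingEnd ℂ) om ^ 2 * (mm n * pO p n)
      + (starRingEnd ℂ) kp * (mm n * pO r n) + (-1) * (mm n * s n) := by
    funext n; unfold X2; ring
  rw [e, tp_comb, sub_eq_add_neg, neg_one_mul]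
  rfl

/-! ### the alignments -/

noncomputable def v1 (A : ℝ) (B : ℂ) (t : ℝ) : ℂ := om + z0I A B t
noncomputable def v2 (A : ℝ) (B : ℂ) (t : ℝ) : ℂ := om ^ 2 - z0I A B t
noncomputable def v1' (A : ℝ) (B : ℂ) (t : ℝ) : ℂ := -(Complex.I * XB A B t)
noncomputable def v2' (A : ℝ) (B : ℂ) (t : ℝ) : ℂ := Complex.I * XB A B t

theorem v1_dd (A : ℝ) (B : ℂ) (x : ℝ) : HasDerivAt (v1 A B) (v1' A B x) x := (zB_dd A B x).const_add om
theorem v2_dd (A : ℝ) (B : ℂ) (x : ℝ) : HasDerivAt (v2 A B) (v2' A B x) x := by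
  have h := (zB_dd A B x).const_sub (om ^ 2)
  unfold v2'
  rwa [neg_neg] at h

theorem v1'_c (A : ℝ) (B : ℂ) : Continuous (v1' A B) := (continuous_const.mul (cont_XB A B)).neg
theorem v2'_c (A : ℝ) (B : ℂ) : Continuous (v2' A B) := continuous_const.mul (cont_XB A B)

theorem z0I_pi (A : ℝ) (B : ℂ) (t : ℝ) : z0I A B (t + Real.pi) = -z0I A B t := zB_pi _ _ _

theorem em3 (t : ℝ) : ee (-3 * (t + Real.pi)) = -ee (-3 * t) := by
  have h1 : ee (-Real.pi) = -1 := by rw [ee_neg, ee_pi]; simp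
  rw [show -3 * (t + Real.pi) = -3 * t + (-Real.pi + (-Real.pi + -Real.pi)) by ring, ee_add, ee_add, ee_add, h1]
  ring

theorem em5 (t : ℝ) : ee (-5 * (t + Real.pi)) = -ee (-5 * t) := by
  have h1 : ee (-Real.pi) = -1 := by rw [ee_neg, ee_pi]; simp
  rw [show -5 * (t + Real.pi) = -5 * t + (-Real.pi + (-Real.pi + (-Real.pi + (-Real.pi + -Real.pi)))) by ring,
    ee_add, ee_add, ee_add, ee_add, ee_add, h1]
  ring

theorem em1 (t : ℝ) : ee (-(t + Real.pi)) = -ee (-t) := by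
  have h1 : ee (-Real.pi) = -1 := by rw [ee_neg, ee_pi]; simp
  rw [show -(t + Real.pi) = -t + -Real.pi by ring, ee_add, h1]
  ring

end

/-! ### the pointwise bound -/

/-- one family in the variables -/
noncomputable def HH (e x w a s ρ Y σ : ℂ) : ℝ :=
  T1f e x a s ρ + T2 ((starRingEnd ℂ) (1 + e * (a + s - 1 / 2 * (starRingEnd ℂ) s)) /
      (1 + e * (a + s - 1 / 2 * (starRingEnd ℂ) s)))
    (1 + (e * (-(Complex.I * (3 * a + 5 * s + 5 / 2 * (starRingEnd ℂ) s))) /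
      (1 + e * (a + s - 1 / 2 * (starRingEnd ℂ) s))).im)
    (e * ρ + x)
    (e * Y + w + -Complex.I * ((1 + e * (a + s - 1 / 2 * (starRingEnd ℂ) s)).arg : ℂ) * (e * σ))

/-- the bound -/
noncomputable def PB (ρ Y σ u v : ℂ) (b2 b3 : ℝ) : ℝ :=
  ‖ρ - Y‖ ^ 2 + 1 / 2 * ((ρ - Y) * (ρ - Y)).re + 455 / 2000 * ‖ρ‖ ^ 2 + 225 / 2000 * (ρ * ρ).re
    + 15 / 8 * ‖Y‖ ^ 2 + 17 / 8 * ‖σ‖ ^ 2
    + (‖(b2 : ℂ) - u‖ ^ 2 + 1 / 2 * (((b2 : ℂ) - u) * ((b2 : ℂ) - u)).re + 49 / 16 * ‖(b3 : ℂ) - v‖ ^ 2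
    + 23 / 32 * (((b3 : ℂ) - v) * ((b3 : ℂ) - v)).re + 13 / 4 * (((b2 : ℂ) - u) * (starRingEnd ℂ) ((b3 : ℂ) - v)).im
    - 1 / 2 * (((b2 : ℂ) - u) * ((b3 : ℂ) - v)).im)
    + 179 / 100 * ‖(b2 : ℂ)‖ ^ 2 + 131 / 50 * ‖(b3 : ℂ)‖ ^ 2 + 5 / 2 * ‖u‖ ^ 2 + 9 / 2 * ‖v‖ ^ 2

theorem nat_z (w : ℂ) : ((starRingEnd ℂ) om * w).im ^ 2 + (om * w).im ^ 2 = ‖w‖ ^ 2 + 1 / 2 * (w * w).re := by
  have h3 : Real.sqrt 3 * Real.sqrt 3 = 3 := Real.mul_self_sqrt (by norm_num)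
  rw [nsq]
  simp only [Complex.mul_im, Complex.mul_re, Complex.conj_re, Complex.conj_im, Helper43.SH.om_re', Helper43.SH.om_im']
  linear_combination (1 / 2 * w.re ^ 2) * h3

theorem nat_b (U V : ℂ) : (xb1 U V).im ^ 2 + (xb2 U V).im ^ 2 =
    ‖U‖ ^ 2 + 1 / 2 * (U * U).re + 49 / 16 * ‖V‖ ^ 2 + 23 / 32 * (V * V).re
      + 13 / 4 * (U * (starRingEnd ℂ) V).im - 1 / 2 * (U * V).im := by
  have h3 : Real.sqrt 3 ^ 2 = 3 := Real.sq_sqrt (by norm_num)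
  have h5 : Real.sqrt 3 ^ 4 = 9 := by rw [show (4 : ℕ) = 2 * 2 by norm_num, pow_mul, h3]; norm_num
  have e1 : (xb1 U V).im = -(1 / 2 * U.im) - Real.sqrt 3 / 2 * U.re + 5 * Real.sqrt 3 / 8 * V.im - 11 / 8 * V.re := by
    unfold xb1 kp
    simp [pow_two, Helper43.SH.om_re', Helper43.SH.om_im']
    ring_nf
    simp only [h3]
    ring
  have e2 : (xb2 U V).im = -(1 / 2 * U.im) + Real.sqrt 3 / 2 * U.re - 5 * Real.sqrt 3 / 8 * V.im - 11 / 8 * V.re := by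
    unfold xb2
    rw [kp_c]
    simp [pow_two, Helper43.SH.om_re', Helper43.SH.om_im']
    ring_nf
    simp only [h3]
    ring
  rw [e1, e2, nsq, nsq]
  simp only [Complex.mul_im, Complex.mul_re, Complex.conj_re, Complex.conj_im]
  ring_nf
  simp only [h3]
  ring

theorem HH_pt (T : T1St) {a s : ℂ} (hz : ‖a‖ + 8 / 5 * ‖s‖ ≤ 1 / 12) (ρ Y σ u v : ℂ) (b2 b3 : ℝ) :
    1 / 2 * (HH ((starRingEnd ℂ) om) (xb1 b2 b3) (xb1 u v) a s ρ Y σ
        + HH ((starRingEnd ℂ) om) (xb1 b2 b3) (xb1 u v) (-a) (-s) (-ρ) (-Y) (-σ))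
      + 1 / 2 * (HH om (xb2 b2 b3) (xb2 u v) a s ρ Y σ + HH om (xb2 b2 b3) (xb2 u v) (-a) (-s) (-ρ) (-Y) (-σ)) ≤
    PB ρ Y σ u v b2 b3 := by
  have hs := norm_nonneg s
  have h0 : ‖a + s - 1 / 2 * (starRingEnd ℂ) s‖ ≤ 1 / 12 := by
    refine (norm_sub_le _ _).trans ((add_le_add (norm_add_le _ _) le_rfl).trans ?_)
    rw [norm_mul, Complex.norm_conj]
    norm_num
    linarith
  have h1 : ‖-(Complex.I * (3 * a + 5 * s + 5 / 2 * (starRingEnd ℂ) s))‖ ≤ 25 / 64 := by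
    rw [norm_neg, norm_mul, Complex.norm_I, one_mul]
    refine (norm_add_le _ _).trans ((add_le_add (norm_add_le _ _) le_rfl).trans ?_)
    rw [norm_mul, norm_mul, norm_mul, Complex.norm_conj]
    norm_num
    linarith [norm_nonneg a]
  have hT1 := T a s ρ b2 b3 hz
  have hT2 := T2_pt h0 h1 ρ Y σ u v b2 b3
  set z := a + s - 1 / 2 * (starRingEnd ℂ) s with hzd
  set z' := -(Complex.I * (3 * a + 5 * s + 5 / 2 * (starRingEnd ℂ) s)) with hzd'
  have ez : -a + -s - 1 / 2 * (starRingEnd ℂ) (-s) = -z := by rw [hzd, map_neg]; ring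
  have ez' : -(Complex.I * (3 * -a + 5 * -s + 5 / 2 * (starRingEnd ℂ) (-s))) = -z' := by rw [hzd', map_neg]; ring
  have kρ : ∀ e w : ℂ, e * -w = -(e * w) := fun e w => by ring
  have n1 := nat_z (ρ - Y)
  have n2 := nat_b ((b2 : ℂ) - u) ((b3 : ℂ) - v)
  have m1 : (xb1 ((b2 : ℂ) - u) ((b3 : ℂ) - v)).im = (xb1 b2 b3).im - (xb1 u v).im := by
    rw [← Complex.sub_im]; congr 1; unfold xb1; ring
  have m2 : (xb2 ((b2 : ℂ) - u) ((b3 : ℂ) - v)).im = (xb2 b2 b3).im - (xb2 u v).im := by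
    rw [← Complex.sub_im]; congr 1; unfold xb2; ring
  have m3 : ((starRingEnd ℂ) om * (ρ - Y)).im = ((starRingEnd ℂ) om * ρ).im - ((starRingEnd ℂ) om * Y).im := by
    rw [← Complex.sub_im]; congr 1; ring
  have m4 : (om * (ρ - Y)).im = (om * ρ).im - (om * Y).im := by
    rw [← Complex.sub_im]; congr 1; ring
  rw [m1, m2] at n2
  rw [m3, m4] at n1
  have n3 := nsq ρ
  have n4 : (ρ * ρ).re = ρ.re ^ 2 - ρ.im ^ 2 := by rw [Complex.mul_re]; ring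
  have n5 : ‖(b2 : ℂ)‖ ^ 2 = b2 ^ 2 := by rw [Complex.norm_real, Real.norm_eq_abs, sq_abs]
  have n6 : ‖(b3 : ℂ)‖ ^ 2 = b3 ^ 2 := by rw [Complex.norm_real, Real.norm_eq_abs, sq_abs]
  unfold HH PB
  rw [ez, ez', ← hzd, ← hzd', n5, n6]
  simp only [kρ, ← sub_eq_add_neg] at hT2 ⊢
  unfold Nn at hT2
  linarith

end Pool.Agent.Helper73.SH
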