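import Pool.Agent.Helper73.SH.WLocB

/-!
# Project RC, SHARP, zone I, (C2): the integrated inequality
-/

set_option autoImplicit false

open MeasureTheory Set Filter Topology

namespace Pool.Agent.Helper73.SH

open Helper49.LT hiding sg
open Helper49.RC Helper44.GQ Helper49.Sharp
open Helper87.RC (BM pars)
open Helper56.RC (fc)
open Helper95.RC (tp tp_BM tp_per fc_tp Sup)
open Pool.Agent.Helper20.RC (lk lk_ge lk_sq eD eM)
open Pool.Agent.Helper33.SH (z0I PI)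
open Pool.Agent.Helper43.SH hiding tp
open Pool.Agent.Helper61.RC.QC (RestC Rest FL h2F o2F)

theorem om_cc : (starRingEnd ℂ) om * om = 1 := by
  rw [← Complex.normSq_eq_conj_mul_self, Complex.normSq_eq_norm_sq, om_n]
  norm_num

theorem om_c2 : (starRingEnd ℂ) om ^ 2 = -om := by
  have h3 : Real.sqrt 3 * Real.sqrt 3 = 3 := Real.mul_self_sqrt (by norm_num)
  apply Complex.ext
  · simp only [pow_two, Complex.mul_re, Complex.conj_re, Complex.conj_im, Helper43.SH.om_re', Helper43.SH.om_im',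
      Complex.neg_re]
    linear_combination (-1 / 4 : ℝ) * h3
  · simp only [pow_two, Complex.mul_im, Complex.conj_re, Complex.conj_im, Helper43.SH.om_re', Helper43.SH.om_im',
      Complex.neg_im]
    ring

theorem om_ne : om ≠ 0 := by
  intro h
  have := om_n
  rw [h, norm_zero] at this
  norm_num at this

theorem arg_small {ζ : ℂ} (h0 : ‖ζ‖ ≤ 1 / 12) : |(1 + ζ).arg| ≤ 1 / 10 := by
  have h1 := log_sub h0
  rw [← Complex.log_im]
  have h3 := (Complex.abs_im_le_norm (Complex.log (1 + ζ) - ζ)).trans h1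
  have h6 := (Complex.abs_im_le_norm ζ).trans h0
  have e : (Complex.log (1 + ζ)).im = (Complex.log (1 + ζ) - ζ).im + ζ.im := by rw [Complex.sub_im]; ring
  rw [e]
  refine (abs_add_le _ _).trans ?_
  linarith

theorem one_ne {ζ : ℂ} (h0 : ‖ζ‖ ≤ 1 / 12) : 1 + ζ ≠ 0 := by
  intro h
  have : ζ = -1 := by linear_combination h
  rw [this, norm_neg, norm_one] at h0
  norm_num at h0

theorem om_3 : om ^ 2 * -om = 1 := by
  rw [← om_c2]
  linear_combination (1 + (starRingEnd ℂ) om * om) * om_cc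

theorem arg_ee' {x : ℝ} (h1 : -Real.pi < x) (h2 : x ≤ Real.pi) : (ee x).arg = x := by
  unfold ee
  rw [Complex.exp_mul_I]
  exact Complex.arg_cos_add_sin_mul_I ⟨h1, h2⟩

theorem arg_om : om.arg = Real.pi / 3 := by
  unfold om
  exact arg_ee' (by linarith [Real.pi_pos]) (by linarith [Real.pi_pos])

theorem arg_om2 : (om ^ 2).arg = 2 * Real.pi / 3 := by
  have e : om ^ 2 = ee (2 * Real.pi / 3) := by
    unfold om
    rw [pow_two, ← ee_add]
    congr 1
    ring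
  rw [e]
  exact arg_ee' (by linarith [Real.pi_pos]) (by linarith [Real.pi_pos])

theorem arg_v1 {ζ : ℂ} (h0 : ‖ζ‖ ≤ 1 / 12) : (om * (1 + ζ)).arg - Real.pi / 3 = (1 + ζ).arg := by
  have h := abs_le.1 (arg_small h0)
  rw [Complex.arg_mul om_ne (one_ne h0), arg_om]
  · ring
  · rw [arg_om]
    constructor <;> linarith [Real.pi_gt_three]

theorem arg_v2 {ζ : ℂ} (h0 : ‖ζ‖ ≤ 1 / 12) : (om ^ 2 * (1 + ζ)).arg - 2 * Real.pi / 3 = (1 + ζ).arg := by
  have h := abs_le.1 (arg_small h0)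
  rw [Complex.arg_mul (pow_ne_zero 2 om_ne) (one_ne h0), arg_om2]
  · ring
  · rw [arg_om2]
    constructor <;> linarith [Real.pi_gt_three]

section

variable {A : ℝ} {B : ℂ} {β ρ : ℝ → ℂ} {M : ℕ} {p r s : ℤ → ℂ}

theorem z0I_as (A : ℝ) (B : ℂ) (t : ℝ) : z0I A B t = (A : ℂ) * ee (-3 * t) + B * ee (-5 * t)
    - 1 / 2 * (starRingEnd ℂ) (B * ee (-5 * t)) := rfl

theorem v1_eq (A : ℝ) (B : ℂ) (t : ℝ) : v1 A B t = om * (1 + (starRingEnd ℂ) om * z0I A B t) := by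
  unfold v1
  linear_combination (-z0I A B t) * om_cc

theorem v2_eq (A : ℝ) (B : ℂ) (t : ℝ) : v2 A B t = om ^ 2 * (1 + om * z0I A B t) := by
  unfold v2
  linear_combination (z0I A B t) * om_3

/-- the integrands -/
noncomputable def hh1 (A : ℝ) (B : ℂ) (M : ℕ) (p r s : ℤ → ℂ) (t : ℝ) : ℝ :=
  nU (SW M) (X1 p r s) (v1 A B) (v1' A B) (Real.pi / 3) t ^ 2 / (‖v1 A B t‖ ^ 2 * (1 + (v1' A B t / v1 A B t).im))
noncomputable def hh2 (A : ℝ) (B : ℂ) (M : ℕ) (p r s : ℤ → ℂ) (t : ℝ) : ℝ :=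
  nU (SW M) (X2 p r s) (v2 A B) (v2' A B) (2 * Real.pi / 3) t ^ 2
    / (‖v2 A B t‖ ^ 2 * (1 + (v2' A B t / v2 A B t).im))

theorem zone_box (hA : 0 ≤ A) (hz : A + 8 / 5 * ‖B‖ ≤ 1 / 12) : ‖(A : ℂ)‖ + 2 * ‖B‖ ≤ 1 / 4 := by
  rw [Complex.norm_real, Real.norm_eq_abs, abs_of_nonneg hA]
  linarith

theorem zone_z (hA : 0 ≤ A) (hz : A + 8 / 5 * ‖B‖ ≤ 1 / 12) (t : ℝ) : ‖z0I A B t‖ ≤ 1 / 12 := by
  have h := zX3 (A : ℂ) B t
  rw [Complex.norm_real, Real.norm_eq_abs, abs_of_nonneg hA] at h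
  have h2 := norm_nonneg B
  exact h.trans (by linarith)

theorem zone_as (hA : 0 ≤ A) (hz : A + 8 / 5 * ‖B‖ ≤ 1 / 12) (t : ℝ) :
    ‖(A : ℂ) * ee (-3 * t)‖ + 8 / 5 * ‖B * ee (-5 * t)‖ ≤ 1 / 12 := by
  rw [norm_mul, norm_mul, norm_ee, norm_ee, mul_one, mul_one, Complex.norm_real, Real.norm_eq_abs, abs_of_nonneg hA]
  exact hz

theorem den_eq {v : ℂ} {v' F N e : ℂ} (hF : F ≠ 0) (he : ‖e‖ = 1) (hv : v = (starRingEnd ℂ) e * F)
    (hv' : v' = -(Complex.I * N)) :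
    ‖F‖ ^ 2 * (1 + (v' / v).im) = ‖F‖ ^ 2 - (e * N * (starRingEnd ℂ) F).re := by
  have hec : (starRingEnd ℂ) e * e = 1 := by
    rw [← Complex.normSq_eq_conj_mul_self, Complex.normSq_eq_norm_sq, he]
    norm_num
  have he0 : (starRingEnd ℂ) e ≠ 0 := fun h => by
    rw [h, zero_mul] at hec
    exact zero_ne_one hec
  have h1 : v' / v = -(Complex.I * (e * N * (starRingEnd ℂ) F)) / ((‖F‖ ^ 2 : ℝ) : ℂ) := by
    rw [← Complex.normSq_eq_norm_sq, ← Complex.mul_conj, hv, hv', div_eq_div_iff (mul_ne_zero he0 hF)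
      (mul_ne_zero hF ((map_ne_zero _).2 hF))]
    linear_combination (Complex.I * N * (starRingEnd ℂ) F * F) * hec
  rw [h1, Complex.div_ofReal_im]
  have : ‖F‖ ≠ 0 := norm_ne_zero_iff.2 hF
  rw [Complex.neg_im, Complex.I_mul_im]
  field_simp
  ring

/-- family 1 -/
theorem hh1_eq (R : RestC β ρ M p r s) (hA : 0 ≤ A) (hz : A + 8 / 5 * ‖B‖ ≤ 1 / 12) (t : ℝ) :
    hh1 A B M p r s t = HH ((starRingEnd ℂ) om) (xb1 ((o2F β t).re : ℝ) ((o2F β t).im : ℝ))
      (xb1 (fu M p t) (fu M r t)) (A * ee (-3 * t)) (B * ee (-5 * t)) (ρ t) (fY M s t) (s (-1) * ee (-t)) := by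
  have hz0 := zone_z hA hz t
  have hn : ‖(starRingEnd ℂ) om * z0I A B t‖ ≤ 1 / 12 := by
    rw [norm_mul, Complex.norm_conj, om_n, one_mul]; exact hz0
  have hF := one_ne hn
  have hbox := zone_box hA hz
  have hsl := slope1 hbox t
  have hd : (1 + (v1' A B t / v1 A B t).im) ≠ 0 := by
    have : (1 : ℝ) / 100 ≤ 1 + (v1' A B t / v1 A B t).im := hsl
    intro h0
    rw [h0] at this
    norm_num at this
  have ha : (v1 A B t).arg - Real.pi / 3 = (1 + (starRingEnd ℂ) om * z0I A B t).arg := by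
    rw [v1_eq]; exact arg_v1 hn
  have hden := den_eq (v := v1 A B t) (v' := v1' A B t) (F := 1 + (starRingEnd ℂ) om * z0I A B t) (N := XB A B t)
    (e := (starRingEnd ℂ) om) hF (by rw [Complex.norm_conj, om_n]) (by rw [Complex.conj_conj]; exact v1_eq A B t) rfl
  have hdv : v1' A B t / v1 A B t = (starRingEnd ℂ) om * -(Complex.I * XB A B t) /
      (1 + (starRingEnd ℂ) om * z0I A B t) := by
    rw [v1_eq, div_eq_div_iff (mul_ne_zero om_ne hF) hF]
    unfold v1'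
    linear_combination (Complex.I * XB A B t * (1 + (starRingEnd ℂ) om * z0I A B t)) * om_cc
  unfold hh1
  rw [nU_eq _ _ (mem_SW M), mY1 R, X1_m1 R, tp_X1 R, ha]
  set d := 1 + (v1' A B t / v1 A B t).im with hdd
  rw [v1_eq, sq_T om_n hF hd, hden]
  unfold HH T1f
  rw [hdv] at hdd
  rw [← z0I_as]
  have eN : 3 * ((A : ℂ) * ee (-3 * t)) + 5 * (B * ee (-5 * t)) + 5 / 2 * (starRingEnd ℂ) (B * ee (-5 * t)) =
      XB A B t := rfl
  rw [eN, ← hdd]
  have e1 : (starRingEnd ℂ) om * g1L (o2F β t) (ρ t) = (starRingEnd ℂ) om * ρ t +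
      xb1 ((o2F β t).re : ℝ) ((o2F β t).im : ℝ) := by
    unfold g1L xb1 kp
    ring
  have e2 : (starRingEnd ℂ) om * ((starRingEnd ℂ) om * fu M p t + kp * fu M r t + fY M s t +
      -Complex.I * ((1 + (starRingEnd ℂ) om * z0I A B t).arg : ℂ) * (s (-1) * ee (-t))) =
      (starRingEnd ℂ) om * fY M s t + xb1 (fu M p t) (fu M r t) +
        -Complex.I * ((1 + (starRingEnd ℂ) om * z0I A B t).arg : ℂ) * ((starRingEnd ℂ) om * (s (-1) * ee (-t))) := by
    unfold xb1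
    ring
  rw [e1, e2, add_comm ((starRingEnd ℂ) om * ρ t) (xb1 _ _)]

/-- family 2 -/
theorem hh2_eq (R : RestC β ρ M p r s) (hA : 0 ≤ A) (hz : A + 8 / 5 * ‖B‖ ≤ 1 / 12) (t : ℝ) :
    hh2 A B M p r s t = HH om (xb2 ((o2F β t).re : ℝ) ((o2F β t).im : ℝ))
      (xb2 (fu M p t) (fu M r t)) (A * ee (-3 * t)) (B * ee (-5 * t)) (ρ t) (fY M s t) (s (-1) * ee (-t)) := by
  have hz0 := zone_z hA hz t
  have hn : ‖om * z0I A B t‖ ≤ 1 / 12 := by
    rw [norm_mul, om_n, one_mul]; exact hz0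
  have hF := one_ne hn
  have hbox := zone_box hA hz
  have hsl := slope2 hbox t
  have hd : (1 + (v2' A B t / v2 A B t).im) ≠ 0 := by
    have : (1 : ℝ) / 100 ≤ 1 + (v2' A B t / v2 A B t).im := hsl
    intro h0
    rw [h0] at this
    norm_num at this
  have hoc : (starRingEnd ℂ) (om ^ 2) = -om := by rw [map_pow, om_c2]
  have ho := om_3
  have ha : (v2 A B t).arg - 2 * Real.pi / 3 = (1 + om * z0I A B t).arg := by
    rw [v2_eq]; exact arg_v2 hn
  have hden := den_eq (v := v2 A B t) (v' := v2' A B t) (F := 1 + om * z0I A B t) (N := -XB A B t)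
    (e := -om) hF (by rw [norm_neg, om_n]) (by
      rw [v2_eq, map_neg]
      linear_combination (-(1 + om * z0I A B t) * (starRingEnd ℂ) om) * ho - (1 + om * z0I A B t) * om ^ 2 * om_cc)
    (by unfold v2'; ring)
  have hdv : v2' A B t / v2 A B t = om * -(Complex.I * XB A B t) / (1 + om * z0I A B t) := by
    rw [v2_eq, div_eq_div_iff (mul_ne_zero (pow_ne_zero 2 om_ne) hF) hF]
    unfold v2'
    linear_combination (-Complex.I * XB A B t * (1 + om * z0I A B t)) * ho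
  unfold hh2
  rw [nU_eq _ _ (mem_SW M), mY2 R, X2_m1 R, tp_X2 R, ha]
  set d := 1 + (v2' A B t / v2 A B t).im with hdd
  rw [v2_eq, sq_T (by rw [norm_pow, om_n, one_pow]) hF hd, hden, hoc]
  unfold HH T1f
  rw [hdv] at hdd
  rw [← z0I_as]
  have eN : 3 * ((A : ℂ) * ee (-3 * t)) + 5 * (B * ee (-5 * t)) + 5 / 2 * (starRingEnd ℂ) (B * ee (-5 * t)) =
      XB A B t := rfl
  rw [eN, ← hdd]
  have e1 : -om * g2L (o2F β t) (ρ t) = om * ρ t + xb2 ((o2F β t).re : ℝ) ((o2F β t).im : ℝ) := by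
    unfold g2L xb2
    rw [om_c2, kp_c]
    ring
  have e2 : -om * ((starRingEnd ℂ) om ^ 2 * fu M p t + (starRingEnd ℂ) kp * fu M r t - fY M s t +
      -Complex.I * ((1 + om * z0I A B t).arg : ℂ) * (-s (-1) * ee (-t))) =
      om * fY M s t + xb2 (fu M p t) (fu M r t) +
        -Complex.I * ((1 + om * z0I A B t).arg : ℂ) * (om * (s (-1) * ee (-t))) := by
    unfold xb2
    rw [om_c2]
    ring
  rw [e1, e2, add_comm (om * ρ t) (xb2 _ _), neg_mul_neg]

end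

end Pool.Agent.Helper73.SH
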