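import Pool.Agent.Helper73.SH.WLocC

/-!
# Project RC, SHARP, zone I, (C2): mean values, `StC2` from `T1`
-/

set_option autoImplicit false

open MeasureTheory Set Filter Topology

namespace Pool.Agent.Helper73.SH

open Helper49.LT hiding sg
open Helper49.RC Helper44.GQ
open Helper49.Sharp hiding un
open Helper87.RC (BM pars)
open Helper56.RC (fc)
open Helper95.RC (tp tp_BM tp_per fc_tp Sup)
open Pool.Agent.Helper20.RC (lk lk_ge lk_sq eD eM)
open Pool.Agent.Helper33.SH (z0I PI)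
open Pool.Agent.Helper43.SH hiding tp
open Pool.Agent.Helper61.RC.QC

/-- a continuous function with its mean -/
structure MS (f : ℝ → ℝ) (x : ℝ) : Prop where
  c : Continuous f
  m : mean f = x

theorem MS.add {f g : ℝ → ℝ} {x y : ℝ} (h : MS f x) (k : MS g y) : MS (fun t => f t + g t) (x + y) := by
  refine ⟨h.c.add k.c, ?_⟩
  rw [← h.m, ← k.m]
  unfold mean
  rw [intervalIntegral.integral_add (h.c.intervalIntegrable _ _) (k.c.intervalIntegrable _ _)]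
  ring

theorem MS.mul {f : ℝ → ℝ} {x : ℝ} (a : ℝ) (h : MS f x) : MS (fun t => a * f t) (a * x) := by
  refine ⟨continuous_const.mul h.c, ?_⟩
  rw [← h.m]
  unfold mean
  rw [intervalIntegral.integral_const_mul]
  ring

theorem MS.sub {f g : ℝ → ℝ} {x y : ℝ} (h : MS f x) (k : MS g y) : MS (fun t => f t - g t) (x - y) := by
  refine ⟨h.c.sub k.c, ?_⟩
  rw [← h.m, ← k.m]
  unfold mean
  rw [intervalIntegral.integral_sub (h.c.intervalIntegrable _ _) (k.c.intervalIntegrable _ _)]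
  ring

theorem MS.congr {f g : ℝ → ℝ} {x y : ℝ} (h : MS f x) (e : ∀ t, g t = f t) (e2 : y = x) : MS g y := by
  rw [e2, show g = f from funext e]
  exact h

section

variable {M : ℕ}

theorem ms_sq (X : ℤ → ℂ) : MS (fun t => ‖tp (SW M) X t‖ ^ 2) (∑ n ∈ SW M, ‖X n‖ ^ 2) :=
  ⟨(tp_cont _ X).norm.pow 2, mean_tp_sq (M + 2) X⟩

theorem ms_re (X Y : ℤ → ℂ) :
    MS (fun t => (tp (SW M) X t * tp (SW M) Y t).re) (∑ n ∈ SW M, (X n * Y (-n)).re) :=
  ⟨Complex.continuous_re.comp ((tp_cont _ X).mul (tp_cont _ Y)), mean_tp_mul (M + 2) X Y⟩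

theorem tp_mI (X : ℤ → ℂ) (t : ℝ) : tp (SW M) (fun n => -Complex.I * X n) t = -Complex.I * tp (SW M) X t := by
  unfold tp
  rw [Finset.mul_sum]
  exact Finset.sum_congr rfl fun n _ => by ring

theorem ms_im (X Y : ℤ → ℂ) :
    MS (fun t => (tp (SW M) X t * tp (SW M) Y t).im) (∑ n ∈ SW M, (X n * Y (-n)).im) := by
  refine (ms_re (M := M) (fun n => -Complex.I * X n) Y).congr (fun t => ?_) (Finset.sum_congr rfl fun n _ => ?_)
  · rw [tp_mI, mul_assoc]; simp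
  · rw [mul_assoc]; simp

theorem ms_imc (X Y : ℤ → ℂ) :
    MS (fun t => (tp (SW M) X t * (starRingEnd ℂ) (tp (SW M) Y t)).im) (∑ n ∈ SW M, (X n * (starRingEnd ℂ) (Y n)).im) := by
  refine (ms_im (M := M) X (fun n => (starRingEnd ℂ) (Y (-n)))).congr (fun t => ?_)
    (Finset.sum_congr rfl fun n _ => ?_)
  · rw [tp_conj]
  · rw [neg_neg]

theorem ms_sg (x : ℂ) : MS (fun t => ‖x * ee (-t)‖ ^ 2) (‖x‖ ^ 2) := by
  have e : (fun t : ℝ => ‖x * ee (-t)‖ ^ 2) = fun _ => ‖x‖ ^ 2 := by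
    funext t
    rw [norm_mul, norm_ee, mul_one]
  rw [e]
  refine ⟨continuous_const, ?_⟩
  unfold mean
  rw [intervalIntegral.integral_const, smul_eq_mul]
  have := Real.pi_pos
  field_simp
  ring

/-- `1 - 1/(n+1)` -/
theorem mm_un (n : ℤ) : 1 - mm n = (un n : ℂ) := by
  unfold mm un
  by_cases hn : n = -1
  · simp [hn]
  · have h1 : ((n : ℂ) + 1) ≠ 0 := by
      intro h0
      apply hn
      have : ((n + 1 : ℤ) : ℂ) = 0 := by push_cast; exact h0
      have := Int.cast_eq_zero.1 this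
      omega
    rw [if_neg hn, if_neg hn]
    push_cast
    field_simp
    ring

theorem tp_diff (X : ℤ → ℂ) (t : ℝ) :
    tp (SW M) X t - tp (SW M) (fun n => mm n * X n) t = tp (SW M) (fun n => (un n : ℂ) * X n) t := by
  unfold tp
  rw [← Finset.sum_sub_distrib]
  refine Finset.sum_congr rfl fun n _ => ?_
  show X n * ee ((n : ℝ) * t) - mm n * X n * ee ((n : ℝ) * t) = (un n : ℂ) * X n * ee ((n : ℝ) * t)
  rw [← mm_un]
  ring

end

section

variable {A : ℝ} {B : ℂ} {β ρ : ℝ → ℂ} {M : ℕ} {p r s : ℤ → ℂ}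

/-- the mean of the bound, by frequencies -/
noncomputable def Fn (p r s : ℤ → ℂ) (n : ℤ) : ℝ :=
  ‖(un n : ℂ) * s n‖ ^ 2 + 1 / 2 * ((un n : ℂ) * s n * ((un (-n) : ℂ) * s (-n))).re
    + 455 / 2000 * ‖s n‖ ^ 2 + 225 / 2000 * (s n * s (-n)).re + 15 / 8 * ‖mm n * s n‖ ^ 2
    + (if n = -1 then 17 / 8 * ‖s n‖ ^ 2 else 0)
    + (‖(un n : ℂ) * pO p n‖ ^ 2 + 1 / 2 * ((un n : ℂ) * pO p n * ((un (-n) : ℂ) * pO p (-n))).re
    + 49 / 16 * ‖(un n : ℂ) * pO r n‖ ^ 2 + 23 / 32 * ((un n : ℂ) * pO r n * ((un (-n) : ℂ) * pO r (-n))).re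
    + 13 / 4 * ((un n : ℂ) * pO p n * (starRingEnd ℂ) ((un n : ℂ) * pO r n)).im
    - 1 / 2 * ((un n : ℂ) * pO p n * ((un (-n) : ℂ) * pO r (-n))).im)
    + 179 / 100 * ‖pO p n‖ ^ 2 + 131 / 50 * ‖pO r n‖ ^ 2 + 5 / 2 * ‖mm n * pO p n‖ ^ 2 + 9 / 2 * ‖mm n * pO r n‖ ^ 2

theorem ms_PB (R : RestC β ρ M p r s) :
    MS (fun t => PB (ρ t) (fY M s t) (s (-1) * ee (-t)) (fu M p t) (fu M r t) (o2F β t).re (o2F β t).im)
      (∑ n ∈ SW M, Fn p r s n) := by
  have h := ((((((ms_sq (M := M) (fun n => (un n : ℂ) * s n)).add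
    ((ms_re (M := M) (fun n => (un n : ℂ) * s n) (fun n => (un n : ℂ) * s n)).mul (1 / 2))).add
    ((ms_sq (M := M) s).mul (455 / 2000))).add ((ms_re (M := M) s s).mul (225 / 2000))).add
    ((ms_sq (M := M) (fun n => mm n * s n)).mul (15 / 8))).add ((ms_sg (s (-1))).mul (17 / 8))).add
    (((((((ms_sq (M := M) (fun n => (un n : ℂ) * pO p n)).add
      ((ms_re (M := M) (fun n => (un n : ℂ) * pO p n) (fun n => (un n : ℂ) * pO p n)).mul (1 / 2))).add
      ((ms_sq (M := M) (fun n => (un n : ℂ) * pO r n)).mul (49 / 16))).add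
      ((ms_re (M := M) (fun n => (un n : ℂ) * pO r n) (fun n => (un n : ℂ) * pO r n)).mul (23 / 32))).add
      ((ms_imc (M := M) (fun n => (un n : ℂ) * pO p n) (fun n => (un n : ℂ) * pO r n)).mul (13 / 4))).sub
      ((ms_im (M := M) (fun n => (un n : ℂ) * pO p n) (fun n => (un n : ℂ) * pO r n)).mul (1 / 2))))
  have h2 := (((h.add ((ms_sq (M := M) (pO p)).mul (179 / 100))).add ((ms_sq (M := M) (pO r)).mul (131 / 50))).add
    ((ms_sq (M := M) (fun n => mm n * pO p n)).mul (5 / 2))).add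
    ((ms_sq (M := M) (fun n => mm n * pO r n)).mul (9 / 2))
  refine h2.congr (fun t => ?_) ?_
  · unfold PB fY fu
    rw [restC_re R, restC_im R, restC_z R, tp_diff, tp_diff, tp_diff]
  · have e : (17 / 8 : ℝ) * ‖s (-1)‖ ^ 2 = ∑ n ∈ SW M, if n = -1 then 17 / 8 * ‖s n‖ ^ 2 else 0 := by
      rw [Finset.sum_ite_eq' (SW M) (-1 : ℤ), if_pos (mem_SW M)]
    rw [e]
    simp only [Finset.mul_sum]
    simp only [← Finset.sum_add_distrib, ← Finset.sum_sub_distrib]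
    rfl

/-! ### comparison with `FL` -/

theorem sum_odd {N : ℕ} {o : ℤ → ℝ} (h : ∀ n, o (-n) = -o n) : ∑ n ∈ Finset.Icc (-(N : ℤ)) N, o n = 0 := by
  have e : ∑ n ∈ Finset.Icc (-(N : ℤ)) N, o n = ∑ n ∈ Finset.Icc (-(N : ℤ)) N, o (-n) := by
    refine Finset.sum_bij' (fun n _ => -n) (fun n _ => -n) (fun n hn => ?_) (fun n hn => ?_) (fun n _ => neg_neg n)
      (fun n _ => neg_neg n) (fun n _ => ?_)
    · rw [Finset.mem_Icc] at hn ⊢; omega
    · rw [Finset.mem_Icc] at hn ⊢; omega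
    · rw [neg_neg]
  have e2 : ∑ n ∈ Finset.Icc (-(N : ℤ)) N, o (-n) = -∑ n ∈ Finset.Icc (-(N : ℤ)) N, o n := by
    rw [← Finset.sum_neg_distrib]
    exact Finset.sum_congr rfl fun n _ => h n
  linarith

/-- the odd part -/
noncomputable def od (p r : ℤ → ℂ) (n : ℤ) : ℝ :=
  -(2 * (L1n n * L2n n) * ‖pO p n‖ ^ 2) - 49 / 8 * (L1n n * L2n n) * ‖pO r n‖ ^ 2
    - (11 / 4 * L2n n ^ 2 + 15 / 4 * L1n n ^ 2) * (pO r n * (starRingEnd ℂ) (pO p n)).im

theorem pO_conj {p : ℤ → ℂ} (h : ∀ n, p (-n) = (starRingEnd ℂ) (p n)) (n : ℤ) :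
    pO p (-n) = (starRingEnd ℂ) (pO p n) := by
  unfold pO
  by_cases h1 : n = 2
  · subst h1; simp
  · by_cases h2 : n = -2
    · subst h2; simp
    · rw [if_neg (by omega), if_neg (by omega), h]

theorem od_odd (R : RestC β ρ M p r s) (n : ℤ) : od p r (-n) = -od p r n := by
  unfold od
  rw [pO_conj R.par.pc, pO_conj R.par.rc, RCLike.norm_conj, RCLike.norm_conj, Complex.conj_conj]
  have e1 : L1n (-n) = -L1n n := by
    unfold L1n
    push_cast
    rw [neg_sq, neg_div]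
  have e2 : L2n (-n) = L2n n := by
    unfold L2n
    push_cast
    rw [neg_sq]
  have e3 : ((starRingEnd ℂ) (pO r n) * pO p n).im = -(pO r n * (starRingEnd ℂ) (pO p n)).im := by
    rw [← Complex.conj_im, map_mul, Complex.conj_conj]
  rw [e1, e2, e3]
  ring

/-- the summand of `FL` -/
noncomputable def Gn (p r s : ℤ → ℂ) (n : ℤ) : ℝ :=
  z2 n * ‖s n‖ ^ 2 + s2 n * (s n * s (-n)).re + p2 n * ‖p n‖ ^ 2 + r2 n * ‖r n‖ ^ 2
    + 2 * x2 n * (r n * (starRingEnd ℂ) (p n)).im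

theorem mm_sq (n : ℤ) (x : ℂ) : ‖mm n * x‖ ^ 2 = (if n = -1 then 1 else 1 / ((n : ℝ) + 1) ^ 2) * ‖x‖ ^ 2 := by
  unfold mm
  by_cases hn : n = -1
  · simp [hn]
  · rw [if_neg hn, if_neg hn, norm_mul, mul_pow]
    congr 1
    rw [norm_div, norm_one, div_pow, one_pow]
    congr 1
    have : ((n : ℂ) + 1) = (((n : ℝ) + 1 : ℝ) : ℂ) := by push_cast; ring
    rw [this, Complex.norm_real, Real.norm_eq_abs, sq_abs]

/-- the natural form of the pair `p`, `r` -/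
theorem key_pr {n : ℤ} (h1 : (n : ℝ) + 1 ≠ 0) (h2 : (n : ℝ) - 1 ≠ 0) (x y : ℂ) :
    ‖(((n : ℝ) / (n + 1) : ℝ) : ℂ) * x‖ ^ 2
      + 1 / 2 * ((((n : ℝ) / (n + 1) : ℝ) : ℂ) * x * ((((n : ℝ) / (n - 1) : ℝ) : ℂ) * (starRingEnd ℂ) x)).re
      + 49 / 16 * ‖(((n : ℝ) / (n + 1) : ℝ) : ℂ) * y‖ ^ 2
      + 23 / 32 * ((((n : ℝ) / (n + 1) : ℝ) : ℂ) * y * ((((n : ℝ) / (n - 1) : ℝ) : ℂ) * (starRingEnd ℂ) y)).re
      + 13 / 4 * ((((n : ℝ) / (n + 1) : ℝ) : ℂ) * x * (starRingEnd ℂ) ((((n : ℝ) / (n + 1) : ℝ) : ℂ) * y)).im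
      - 1 / 2 * ((((n : ℝ) / (n + 1) : ℝ) : ℂ) * x * ((((n : ℝ) / (n - 1) : ℝ) : ℂ) * (starRingEnd ℂ) y)).im =
    (3 / 2 * L2n n ^ 2 + 1 / 2 * L1n n ^ 2) * ‖x‖ ^ 2 + (121 / 32 * L2n n ^ 2 + 75 / 32 * L1n n ^ 2) * ‖y‖ ^ 2
      + 2 * (13 / 4 * (L1n n * L2n n)) * (y * (starRingEnd ℂ) x).im
      + (-(2 * (L1n n * L2n n) * ‖x‖ ^ 2) - 49 / 8 * (L1n n * L2n n) * ‖y‖ ^ 2
        - (11 / 4 * L2n n ^ 2 + 15 / 4 * L1n n ^ 2) * (y * (starRingEnd ℂ) x).im) := by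
  have ea : (n : ℝ) / (n + 1) = L2n n - L1n n := by
    unfold L2n L1n
    have : (n : ℝ) ^ 2 - 1 ≠ 0 := by
      have e : (n : ℝ) ^ 2 - 1 = (n + 1) * (n - 1) := by ring
      rw [e]; exact mul_ne_zero h1 h2
    rw [← sub_div, div_eq_div_iff h1 this]
    ring
  have eb : (n : ℝ) / (n - 1) = L2n n + L1n n := by
    unfold L2n L1n
    have : (n : ℝ) ^ 2 - 1 ≠ 0 := by
      have e : (n : ℝ) ^ 2 - 1 = (n + 1) * (n - 1) := by ring
      rw [e]; exact mul_ne_zero h1 h2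
    rw [← add_div, div_eq_div_iff h2 this]
    ring
  rw [ea, eb, norm_mul, norm_mul, Complex.norm_real, Real.norm_eq_abs, mul_pow, mul_pow, sq_abs, nsq x, nsq y]
  simp only [Complex.mul_im, Complex.mul_re, Complex.conj_re, Complex.conj_im, Complex.ofReal_re, Complex.ofReal_im]
  ring

theorem Fn_eq (R : RestC β ρ M p r s) (n : ℤ) : Fn p r s n = Gn p r s n + od p r n := by
  have hs : ‖(un n : ℂ) * s n‖ ^ 2 + 1 / 2 * ((un n : ℂ) * s n * ((un (-n) : ℂ) * s (-n))).re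
      + 455 / 2000 * ‖s n‖ ^ 2 + 225 / 2000 * (s n * s (-n)).re + 15 / 8 * ‖mm n * s n‖ ^ 2
      + (if n = -1 then 17 / 8 * ‖s n‖ ^ 2 else 0) = z2 n * ‖s n‖ ^ 2 + s2 n * (s n * s (-n)).re := by
    have e : ((un n : ℂ) * s n * ((un (-n) : ℂ) * s (-n))).re = un n * un (-n) * (s n * s (-n)).re := by
      rw [show (un n : ℂ) * s n * ((un (-n) : ℂ) * s (-n)) = ((un n * un (-n) : ℝ) : ℂ) * (s n * s (-n)) by
        push_cast; ring, Complex.re_ofReal_mul]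
    rw [e, mm_sq, norm_mul, mul_pow, Complex.norm_real, Real.norm_eq_abs, sq_abs]
    unfold z2 s2
    by_cases hn : n = -1
    · rw [if_pos hn, if_pos hn, if_pos hn]; ring
    · rw [if_neg hn, if_neg hn, if_neg hn]; ring
  have hpr : (‖(un n : ℂ) * pO p n‖ ^ 2 + 1 / 2 * ((un n : ℂ) * pO p n * ((un (-n) : ℂ) * pO p (-n))).re
      + 49 / 16 * ‖(un n : ℂ) * pO r n‖ ^ 2 + 23 / 32 * ((un n : ℂ) * pO r n * ((un (-n) : ℂ) * pO r (-n))).re
      + 13 / 4 * ((un n : ℂ) * pO p n * (starRingEnd ℂ) ((un n : ℂ) * pO r n)).im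
      - 1 / 2 * ((un n : ℂ) * pO p n * ((un (-n) : ℂ) * pO r (-n))).im)
      + 179 / 100 * ‖pO p n‖ ^ 2 + 131 / 50 * ‖pO r n‖ ^ 2 + 5 / 2 * ‖mm n * pO p n‖ ^ 2 + 9 / 2 * ‖mm n * pO r n‖ ^ 2 =
      p2 n * ‖p n‖ ^ 2 + r2 n * ‖r n‖ ^ 2 + 2 * x2 n * (r n * (starRingEnd ℂ) (p n)).im + od p r n := by
    by_cases h2 : n = 2 ∨ n = -2
    · have e1 : pO p n = 0 := by unfold pO; rw [if_pos h2]
      have e2 : pO r n = 0 := by unfold pO; rw [if_pos h2]
      unfold od p2 r2 x2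
      rw [e1, e2, if_pos h2, if_pos h2, if_pos h2]
      simp
    · have e1 : pO p n = p n := by unfold pO; rw [if_neg h2]
      have e2 : pO r n = r n := by unfold pO; rw [if_neg h2]
      rcases Int.even_or_odd n with he | ho
      · have hn1 : n ≠ -1 := by rintro rfl; revert he; decide
        have hn2 : n ≠ 1 := by rintro rfl; revert he; decide
        have h3 : (n : ℝ) + 1 ≠ 0 := by
          intro h0
          apply hn1
          have : ((n + 1 : ℤ) : ℝ) = 0 := by push_cast; exact h0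
          have := Int.cast_eq_zero.1 this
          omega
        have h4 : (n : ℝ) - 1 ≠ 0 := by
          intro h0
          apply hn2
          have : ((n - 1 : ℤ) : ℝ) = 0 := by push_cast; exact h0
          have := Int.cast_eq_zero.1 this
          omega
        have u1 : un n = (n : ℝ) / (n + 1) := by unfold un; rw [if_neg hn1]
        have u2 : un (-n) = (n : ℝ) / (n - 1) := by
          unfold un
          rw [if_neg (by omega)]
          push_cast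
          rw [div_eq_div_iff (by intro h0; apply h4; linarith) h4]
          ring
        have hk := key_pr h3 h4 (p n) (r n)
        rw [mm_sq, mm_sq, if_neg hn1, pO_conj R.par.pc, pO_conj R.par.rc, e1, e2, u1, u2, hk]
        unfold od p2 r2 x2
        rw [e1, e2, if_neg h2, if_neg h2, if_neg h2]
        ring
      · have p0 := R.par.po n ho
        have r0 := R.par.ro n ho
        unfold od
        rw [e1, e2, p0, r0]
        simp
  unfold Fn Gn
  linarith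

theorem FL_eq (R : RestC β ρ M p r s) : FL z2 s2 p2 r2 x2 M p r s = ∑ n ∈ SW M, Gn p r s n := by
  unfold FL
  refine Finset.sum_subset (fun n hn => ?_) (fun n _ hn => ?_)
  · rw [Finset.mem_Icc] at hn ⊢
    push_cast
    omega
  · rw [R.sp n hn, R.sr n hn, R.ss n hn]
    simp

theorem sum_Fn (R : RestC β ρ M p r s) : ∑ n ∈ SW M, Fn p r s n = FL z2 s2 p2 r2 x2 M p r s := by
  rw [FL_eq R, Finset.sum_congr rfl fun n _ => Fn_eq R n, Finset.sum_add_distrib]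
  have := sum_odd (N := M + 2) (od_odd R)
  rw [show ∑ n ∈ SW M, od p r n = 0 from this, add_zero]

end

end Pool.Agent.Helper73.SH
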